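import Pool.Agent.LibKloosterman.Triple

/-!
# LibKC40: both signs of Kloosterman sums with at most three prime factors (MP_6ea630_nt, helper40, helper27)

Definitions. `d` prime, `d ≡ 3 mod 4`. `A`, `B`, `q = A + 2B`, `n = (d A + q)/2` (so `2n = dA + q`).
Modulo `d`: `1/(nA) = 2/(qA)`, `1/(AB) = 2/(A(q-A))`, `1/(Bq) = 2/(q(q-A))`, and the third is the second minus the first.
-/

set_option autoImplicit false

namespace Pool.Agent.LibKC40

open Finset

/-- `K_d(α y²)` -/
noncomputable def kk {d : ℕ} [Fact d.Prime] (α y : ZMod d) : ℝ := (Kloo.K d (α * y ^ 2)).re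

theorem kk_neg {d : ℕ} [Fact d.Prime] (α y : ZMod d) : kk α (-y) = kk α y := by
  unfold kk; rw [neg_sq]

/-- its sign, `0` at `0` -/
noncomputable def sg {d : ℕ} [Fact d.Prime] (α y : ZMod d) : ℝ := if y = 0 then 0 else if 0 < kk α y then 1 else -1

/-- the local condition: the product of the three local factors is negative -/
def NegP {d : ℕ} [Fact d.Prime] (α A q : ZMod d) : Prop :=
  A ≠ 0 ∧ q ≠ 0 ∧ q ≠ A ∧
    kk α (2 * (q * A)⁻¹) * kk α (2 * (A * (q - A))⁻¹) * kk α (2 * (q * (q - A))⁻¹) < 0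

open scoped Classical in
/-- the set of all bad classes -/
noncomputable def NegS {d : ℕ} [Fact d.Prime] (α : ZMod d) : Finset (ZMod d × ZMod d) :=
  univ.filter fun z => NegP α z.1 z.2

end Pool.Agent.LibKC40
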