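import Mathlib

/-!
Row E1. The triple sum and the Fourier coefficients.
-/

set_option autoImplicit false

namespace Pool.Agent.LibKC40

open Finset

/-- the sum of the characters over the first variable -/
theorem sum_char {d : ℕ} [Fact d.Prime] (w : ZMod d) :
    ∑ ξ : ZMod d, (ZMod.stdAddChar (ξ * w) : ℂ) = if w = 0 then (d : ℂ) else 0 := by
  have h := AddChar.sum_mulShift w (ZMod.isPrimitive_stdAddChar d)
  rw [h]
  split_ifs
  · rw [ZMod.card]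
  · simp

/-- the Fourier coefficient is real -/
theorem four_real {d : ℕ} [Fact d.Prime] (s : ZMod d → ℝ) (heven : ∀ y, s (-y) = s y) (ξ : ZMod d) :
    ((∑ y : ZMod d, s y * (ZMod.stdAddChar (ξ * y) : ℂ).re : ℝ) : ℂ) =
      ∑ y : ZMod d, (s y : ℂ) * (ZMod.stdAddChar (ξ * y) : ℂ) := by
  apply Complex.ext
  · rw [Complex.ofReal_re, Complex.re_sum]
    refine sum_congr rfl fun y _ => ?_
    rw [Complex.re_ofReal_mul]
  · rw [Complex.ofReal_im, Complex.im_sum]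
    have h1 : ∑ y : ZMod d, ((s y : ℂ) * (ZMod.stdAddChar (ξ * y) : ℂ)).im =
        ∑ y : ZMod d, -((s y : ℂ) * (ZMod.stdAddChar (ξ * y) : ℂ)).im := by
      refine Fintype.sum_equiv (Equiv.neg _) _ _ fun y => ?_
      rw [Equiv.neg_apply, heven, mul_neg, AddChar.map_neg_eq_conj, Complex.im_ofReal_mul,
        Complex.im_ofReal_mul, Complex.conj_im]
      ring
    rw [sum_neg_distrib] at h1
    linarith

theorem triple_sum_le {d : ℕ} [Fact d.Prime] (s : ZMod d → ℝ) (heven : ∀ y, s (-y) = s y) (M : ℝ) (hM0 : 0 ≤ M)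
    (hM : ∀ ξ : ZMod d, ∑ y : ZMod d, s y * (ZMod.stdAddChar (ξ * y) : ℂ).re ≤ M) :
    ∑ y₁ : ZMod d, ∑ y₂ : ZMod d, s y₁ * s y₂ * s (y₂ - y₁) ≤ M * ∑ y : ZMod d, s y ^ 2 := by
  set S : ZMod d → ℝ := fun ξ => ∑ y : ZMod d, s y * (ZMod.stdAddChar (ξ * y) : ℂ).re with hS
  have hSC : ∀ ξ, (S ξ : ℂ) = ∑ y : ZMod d, (s y : ℂ) * (ZMod.stdAddChar (ξ * y) : ℂ) :=
    fun ξ => four_real s heven ξ
  have h2 : (∑ ξ : ZMod d, (S ξ : ℂ) ^ 2) = (d : ℂ) * ∑ y : ZMod d, (s y : ℂ) ^ 2 := by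
    have e1 : ∀ ξ, (S ξ : ℂ) ^ 2 = ∑ y₁ : ZMod d, ∑ y₂ : ZMod d,
        ((s y₁ : ℂ) * s y₂) * (ZMod.stdAddChar (ξ * (y₁ + y₂)) : ℂ) := by
      intro ξ
      rw [pow_two, hSC, sum_mul]
      refine sum_congr rfl fun y₁ _ => ?_
      rw [mul_sum]
      refine sum_congr rfl fun y₂ _ => ?_
      rw [mul_add, AddChar.map_add_eq_mul]
      ring
    rw [sum_congr rfl fun ξ _ => e1 ξ, sum_comm, mul_sum]
    refine sum_congr rfl fun y₁ _ => ?_
    rw [sum_comm]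
    simp_rw [← mul_sum, sum_char]
    rw [sum_eq_single (-y₁)]
    · rw [heven, add_neg_cancel, if_pos rfl]; ring
    · intro b _ hb
      rw [if_neg, mul_zero]
      intro h; exact hb (eq_neg_of_add_eq_zero_right h)
    · intro h; exact absurd (mem_univ _) h
  have h3 : (∑ ξ : ZMod d, (S ξ : ℂ) ^ 3) =
      (d : ℂ) * ∑ y₁ : ZMod d, ∑ y₂ : ZMod d, (s y₁ : ℂ) * s y₂ * s (y₂ - y₁) := by
    have e1 : ∀ ξ, (S ξ : ℂ) ^ 3 = ∑ y₁ : ZMod d, ∑ y₂ : ZMod d, ∑ y₃ : ZMod d,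
        ((s y₁ : ℂ) * s y₂ * s y₃) * (ZMod.stdAddChar (ξ * (y₁ + y₂ + y₃)) : ℂ) := by
      intro ξ
      rw [pow_three, hSC, sum_mul]
      refine sum_congr rfl fun y₁ _ => ?_
      rw [sum_mul, mul_sum]
      refine sum_congr rfl fun y₂ _ => ?_
      rw [mul_sum, mul_sum]
      refine sum_congr rfl fun y₃ _ => ?_
      rw [mul_add, mul_add, AddChar.map_add_eq_mul, AddChar.map_add_eq_mul]
      ring
    have e2 : (∑ ξ : ZMod d, (S ξ : ℂ) ^ 3) =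
        ∑ y₁ : ZMod d, ∑ y₂ : ZMod d, (d : ℂ) * ((s y₁ : ℂ) * s y₂ * s (y₁ + y₂)) := by
      rw [sum_congr rfl fun ξ _ => e1 ξ, sum_comm]
      refine sum_congr rfl fun y₁ _ => ?_
      rw [sum_comm]
      refine sum_congr rfl fun y₂ _ => ?_
      rw [sum_comm]
      simp_rw [← mul_sum, sum_char]
      rw [sum_eq_single (-(y₁ + y₂))]
      · rw [heven, add_neg_cancel, if_pos rfl]; ring
      · intro b _ hb
        rw [if_neg, mul_zero]
        intro h; exact hb (eq_neg_of_add_eq_zero_right h)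
      · intro h; exact absurd (mem_univ _) h
    rw [e2]
    simp_rw [mul_sum]
    refine Fintype.sum_equiv (Equiv.neg _) _ _ fun y₁ => ?_
    refine sum_congr rfl fun y₂ _ => ?_
    rw [Equiv.neg_apply, heven, sub_neg_eq_add, add_comm y₂ y₁]
  have h2' : (∑ ξ : ZMod d, S ξ ^ 2) = (d : ℝ) * ∑ y : ZMod d, s y ^ 2 := by exact_mod_cast h2
  have h3' : (∑ ξ : ZMod d, S ξ ^ 3) =
      (d : ℝ) * ∑ y₁ : ZMod d, ∑ y₂ : ZMod d, s y₁ * s y₂ * s (y₂ - y₁) := by exact_mod_cast h3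
  have h4 : (∑ ξ : ZMod d, S ξ ^ 3) ≤ M * ∑ ξ : ZMod d, S ξ ^ 2 := by
    rw [mul_sum]
    refine sum_le_sum fun ξ _ => ?_
    have e : S ξ ^ 3 = S ξ * S ξ ^ 2 := by ring
    rw [e]
    exact mul_le_mul_of_nonneg_right (hM ξ) (sq_nonneg _)
  rw [h2', h3'] at h4
  have hd0 : (0 : ℝ) < d := by exact_mod_cast (Fact.out : d.Prime).pos
  have h5 : (d : ℝ) * ∑ y₁ : ZMod d, ∑ y₂ : ZMod d, s y₁ * s y₂ * s (y₂ - y₁) ≤
      d * (M * ∑ y : ZMod d, s y ^ 2) := by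
    calc _ ≤ _ := h4
      _ = _ := by ring
  exact le_of_mul_le_mul_left h5 hd0

theorem cos_le {d : ℕ} [Fact d.Prime] (hd : d ≠ 2) (s : ZMod d → ℝ) (hs : ∀ y, |s y| ≤ 1) (ξ : ZMod d) (hξ : ξ ≠ 0) :
    ∑ y : ZMod d, s y * (ZMod.stdAddChar (ξ * y) : ℂ).re ≤ 3 / 4 * d := by
  have hd0 : (0 : ℝ) < d := by exact_mod_cast (Fact.out : d.Prime).pos
  -- the cosine has mean square `1/2`
  have h20 : (2 : ZMod d) ≠ 0 := by
    intro h
    have h1 : ((2 : ℕ) : ZMod d) = 0 := by exact_mod_cast h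
    rw [ZMod.natCast_eq_zero_iff] at h1
    have h2 := (Nat.prime_dvd_prime_iff_eq (Fact.out : d.Prime) Nat.prime_two).1 h1
    exact hd h2
  have hsq : ∑ y : ZMod d, (ZMod.stdAddChar (ξ * y) : ℂ).re ^ 2 = d / 2 := by
    have e1 : ∀ y : ZMod d, (ZMod.stdAddChar (ξ * y) : ℂ).re ^ 2 =
        (1 + (ZMod.stdAddChar (y * (2 * ξ)) : ℂ).re) / 2 := by
      intro y
      have hn : ‖(ZMod.stdAddChar (ξ * y) : ℂ)‖ = 1 := by
        rw [ZMod.stdAddChar_apply]; exact Circle.norm_coe _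
      have h2 := Complex.sq_norm (ZMod.stdAddChar (ξ * y) : ℂ)
      rw [hn, Complex.normSq_apply] at h2
      have h3 : (ZMod.stdAddChar (y * (2 * ξ)) : ℂ) =
          (ZMod.stdAddChar (ξ * y) : ℂ) * (ZMod.stdAddChar (ξ * y) : ℂ) := by
        rw [← AddChar.map_add_eq_mul]; congr 1; ring
      rw [h3, Complex.mul_re]
      nlinarith
    rw [sum_congr rfl fun y _ => e1 y, ← sum_div, sum_add_distrib]
    have h2 : ∑ y : ZMod d, (ZMod.stdAddChar (y * (2 * ξ)) : ℂ).re = 0 := by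
      rw [← Complex.re_sum, sum_char, if_neg (mul_ne_zero h20 hξ)]; rfl
    rw [h2, sum_const, card_univ, ZMod.card]
    simp
  have hs2 : ∑ y : ZMod d, s y ^ 2 ≤ d := by
    calc ∑ y : ZMod d, s y ^ 2 ≤ ∑ _y : ZMod d, (1 : ℝ) := by
          refine sum_le_sum fun y _ => ?_
          rw [← sq_abs]
          have := hs y
          have := abs_nonneg (s y)
          nlinarith
      _ = d := by rw [sum_const, card_univ, ZMod.card]; simp
  have hcs := Finset.sum_mul_sq_le_sq_mul_sq (univ : Finset (ZMod d)) s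
    (fun y => (ZMod.stdAddChar (ξ * y) : ℂ).re)
  rw [hsq] at hcs
  have h5 : (∑ y : ZMod d, s y * (ZMod.stdAddChar (ξ * y) : ℂ).re) ^ 2 ≤ (3 / 4 * (d : ℝ)) ^ 2 := by
    calc _ ≤ _ := hcs
      _ ≤ (d : ℝ) * (d / 2) := mul_le_mul_of_nonneg_right hs2 (by positivity)
      _ ≤ _ := by nlinarith
  exact (abs_le_of_sq_le_sq' h5 (by positivity)).2

end Pool.Agent.LibKC40
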