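import Pool.Agent.LibKC40.Defs
import Pool.Agent.LibWeil46.RD2

/-!
Row E3. Moments and size of `K_d(α y²)`, `d ≡ 3 mod 4`.
-/

set_option autoImplicit false

namespace Pool.Agent.LibKC40

open Finset

theorem kk_zero {d : ℕ} [Fact d.Prime] (α : ZMod d) : kk α 0 = -1 := by
  unfold kk Kloo.K
  simp only [ne_eq, OfNat.ofNat_ne_zero, not_false_eq_true, zero_pow, mul_zero, zero_mul,
    zero_add]
  have h1 := Kloo.sum_units_eq (d := d) (fun x => (ZMod.stdAddChar (1 * x) : ℂ))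
  rw [Kloo.sum_psi_zero 1 one_ne_zero] at h1
  simp only [mul_zero, AddChar.map_zero_eq_one, one_mul] at h1
  have h2 : ∑ u : (ZMod d)ˣ, (ZMod.stdAddChar (((u⁻¹ : (ZMod d)ˣ)) : ZMod d) : ℂ) =
      ∑ u : (ZMod d)ˣ, (ZMod.stdAddChar (u : ZMod d) : ℂ) :=
    Fintype.sum_equiv (Equiv.inv _) _ _ fun u => rfl
  rw [h2]
  have h3 : ∑ u : (ZMod d)ˣ, (ZMod.stdAddChar (u : ZMod d) : ℂ) = -1 := by linear_combination -h1
  rw [h3]; simp

theorem K_re {d : ℕ} [Fact d.Prime] (α y : ZMod d) : Kloo.K d (α * y ^ 2) = ((kk α y : ℝ) : ℂ) := by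
  apply Complex.ext
  · simp [kk]
  · rw [Complex.ofReal_im]; exact Kloo.K_im _ _

theorem chi_abs {d : ℕ} [Fact d.Prime] (α : ZMod d) (hα : α ≠ 0) :
    Kloo.chi d α = 1 ∨ Kloo.chi d α = -1 := by
  rcases quadraticChar_dichotomy (F := ZMod d) hα with h | h
  · left; rw [Kloo.chi_apply, h]; simp
  · right; rw [Kloo.chi_apply, h]; simp

theorem first_moment {d : ℕ} [Fact d.Prime] (h4 : d % 4 = 3) (α : ZMod d) (hα : α ≠ 0) :
    |∑ y : ZMod d, kk α y| ≤ d := by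
  have hd0 : (0 : ℝ) < d := by exact_mod_cast (Fact.out : d.Prime).pos
  have hT0 := Kloo.T_eq h4 α 0 hα (by simp)
  simp only [ne_eq, OfNat.ofNat_ne_zero, not_false_eq_true, zero_pow, zero_mul, sub_zero,
    map_one, mul_one, AddChar.map_zero_eq_one] at hT0
  have h1 := Kloo.sum_units_eq (d := d) (fun y => Kloo.K d (α * y ^ 2))
  rw [hT0] at h1
  have h2 : Kloo.K d (α * 0 ^ 2) = -1 := by rw [K_re, kk_zero]; simp
  rw [h2] at h1
  have h3 : ∑ y : ZMod d, Kloo.K d (α * y ^ 2) = -(Kloo.chi d α * d) := by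
    rw [h1]; ring
  rw [sum_congr rfl fun y _ => K_re α y, ← Complex.ofReal_sum] at h3
  rcases chi_abs α hα with h | h
  · rw [h] at h3
    have h5 : ∑ y : ZMod d, kk α y = -d := by
      have : ((∑ y : ZMod d, kk α y : ℝ) : ℂ) = ((-d : ℝ) : ℂ) := by rw [h3]; push_cast; ring
      exact_mod_cast this
    rw [h5, abs_neg, abs_of_pos hd0]
  · rw [h] at h3
    have h5 : ∑ y : ZMod d, kk α y = d := by
      have : ((∑ y : ZMod d, kk α y : ℝ) : ℂ) = ((d : ℝ) : ℂ) := by rw [h3]; push_cast; ring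
      exact_mod_cast this
    rw [h5, abs_of_pos hd0]

/-- sums over the squares -/
theorem sum_sq_arg {d : ℕ} [Fact d.Prime] (h4 : d % 4 = 3) (f : ZMod d → ℂ) :
    ∑ y : ZMod d, f (y ^ 2) = ∑ t : ZMod d, (Kloo.chi d t + 1) * f t := by
  classical
  have h1 : ∑ u : ZMod d, f (u ^ 2) =
      ∑ y : ZMod d, ∑ u ∈ univ.filter (fun u : ZMod d => u ^ 2 = y), f (u ^ 2) := by
    rw [sum_fiberwise]
  rw [h1]
  refine sum_congr rfl fun y _ => ?_
  have h4' : ∀ u ∈ univ.filter (fun u : ZMod d => u ^ 2 = y), f (u ^ 2) = f y := by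
    intro u hu
    rw [(mem_filter.1 hu).2]
  rw [sum_congr rfl h4', sum_const, nsmul_eq_mul]
  congr 1
  have h5 := quadraticChar_card_sqrts (Kloo.ringChar_ne h4) y
  have h6 : #{x : ZMod d | x ^ 2 = y}.toFinset = #(univ.filter (fun u : ZMod d => u ^ 2 = y)) := by
    congr 1
    ext u; simp
  rw [h6] at h5
  rw [Kloo.chi_apply]
  exact_mod_cast congrArg (fun z : ℤ => (z : ℂ)) h5

/-- the square of a Kloosterman sum -/
theorem K_sq {d : ℕ} [Fact d.Prime] (α t : ZMod d) :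
    Kloo.K d (α * t) ^ 2 = ∑ u : (ZMod d)ˣ, ∑ v : (ZMod d)ˣ,
      (ZMod.stdAddChar (t * (α * ((u : ZMod d) + (v : ZMod d)))) : ℂ) *
        (ZMod.stdAddChar (((u⁻¹ : (ZMod d)ˣ) : ZMod d) + ((v⁻¹ : (ZMod d)ˣ) : ZMod d)) : ℂ) := by
  unfold Kloo.K
  rw [pow_two, sum_mul]
  refine sum_congr rfl fun u _ => ?_
  rw [mul_sum]
  refine sum_congr rfl fun v _ => ?_
  rw [← AddChar.map_add_eq_mul, ← AddChar.map_add_eq_mul]
  congr 1
  ring

theorem K_sq_sum {d : ℕ} [Fact d.Prime] (α : ZMod d) (hα : α ≠ 0) :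
    ∑ t : ZMod d, Kloo.K d (α * t) ^ 2 = (d : ℂ) * (d - 1) := by
  rw [sum_congr rfl fun t _ => K_sq α t, sum_comm]
  have h1 : ∀ u : (ZMod d)ˣ, ∑ t : ZMod d, ∑ v : (ZMod d)ˣ,
      (ZMod.stdAddChar (t * (α * ((u : ZMod d) + (v : ZMod d)))) : ℂ) *
        (ZMod.stdAddChar (((u⁻¹ : (ZMod d)ˣ) : ZMod d) + ((v⁻¹ : (ZMod d)ˣ) : ZMod d)) : ℂ) = d := by
    intro u
    rw [sum_comm]
    rw [sum_eq_single (-u)]
    · rw [← sum_mul, inv_neg, Units.val_neg, Units.val_neg, add_neg_cancel, add_neg_cancel, mul_zero]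
      simp only [mul_zero, AddChar.map_zero_eq_one, mul_one, sum_const, card_univ, ZMod.card,
        nsmul_eq_mul]
    · intro v _ hv
      rw [← sum_mul]
      have h2 := AddChar.sum_mulShift (α * ((u : ZMod d) + (v : ZMod d)))
        (ZMod.isPrimitive_stdAddChar d)
      rw [h2, if_neg]
      · rw [Nat.cast_zero, zero_mul]
      · apply mul_ne_zero hα
        intro h
        apply hv
        apply Units.ext
        rw [Units.val_neg]
        exact eq_neg_of_add_eq_zero_right h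
    · intro h; exact absurd (mem_univ _) h
  rw [sum_congr rfl fun u _ => h1 u, sum_const, card_univ, ZMod.card_units, nsmul_eq_mul,
    Nat.cast_sub (Fact.out : d.Prime).one_le]
  push_cast; ring

theorem chi_inv_add {d : ℕ} [Fact d.Prime] (u v : (ZMod d)ˣ) :
    Kloo.chi d (((u⁻¹ : (ZMod d)ˣ) : ZMod d) + ((v⁻¹ : (ZMod d)ˣ) : ZMod d)) =
      Kloo.chi d (((u : ZMod d) * v) * ((u : ZMod d) + v)) := by
  have hu := u.ne_zero
  have hv := v.ne_zero
  have h1 : (((u : ZMod d) * v) * ((u : ZMod d) + v)) =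
      (((u : ZMod d) * v) * ((u : ZMod d) * v)) *
        (((u⁻¹ : (ZMod d)ˣ) : ZMod d) + ((v⁻¹ : (ZMod d)ˣ) : ZMod d)) := by
    rw [Units.val_inv_eq_inv_val, Units.val_inv_eq_inv_val]
    field_simp
    ring
  rw [h1, map_mul (Kloo.chi d) (((u : ZMod d) * v) * ((u : ZMod d) * v)),
    map_mul (Kloo.chi d) ((u : ZMod d) * v) ((u : ZMod d) * v),
    Kloo.chi_mul_self _ (mul_ne_zero hu hv), one_mul]

theorem jacobi_w {d : ℕ} [Fact d.Prime] (h4 : d % 4 = 3) (w : ZMod d) (hw : w ≠ 0) :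
    ∑ u : ZMod d, Kloo.chi d (u * (w - u)) = 1 := by
  have h1 : ∑ u : ZMod d, Kloo.chi d (u * (w - u)) =
      ∑ t : ZMod d, Kloo.chi d t * Kloo.chi d (1 - t) := by
    symm
    refine Fintype.sum_equiv (Equiv.mulLeft₀ w hw) _ _ fun t => ?_
    have h2 : Equiv.mulLeft₀ w hw t = w * t := rfl
    rw [h2]
    have h3 : w * t * (w - w * t) = (w * w) * (t * (1 - t)) := by ring
    rw [h3, map_mul (Kloo.chi d) (w * w), map_mul (Kloo.chi d) w w, Kloo.chi_mul_self w hw, one_mul,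
      map_mul]
  rw [h1]
  have h2 : jacobiSum (Kloo.chi d) (Kloo.chi d)⁻¹ = -(Kloo.chi d) (-1) :=
    jacobiSum_nontrivial_inv (Kloo.chi_ne_one h4)
  rw [(Kloo.chi_quad (d := d)).inv, Kloo.chi_neg_one h4, neg_neg] at h2
  exact h2

theorem chi_K_sq_sum {d : ℕ} [Fact d.Prime] (h4 : d % 4 = 3) (α : ZMod d) (hα : α ≠ 0) :
    ∑ t : ZMod d, Kloo.chi d t * Kloo.K d (α * t) ^ 2 = -(Kloo.chi d α * d) := by
  have hcp : ∀ m : ZMod d, ∑ t : ZMod d, Kloo.chi d t * (ZMod.stdAddChar (t * m) : ℂ) =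
      Kloo.chi d m * Kloo.gs d := by
    intro m
    by_cases hm : m = 0
    · subst hm
      rw [MulChar.map_zero, zero_mul]
      simp only [mul_zero, AddChar.map_zero_eq_one, mul_one]
      exact MulChar.sum_eq_zero_of_ne_one (Kloo.chi_ne_one h4)
    · rw [← Kloo.sum_chi_psi m hm]
      refine sum_congr rfl fun t _ => ?_
      rw [mul_comm t m]
  have h1 : ∑ t : ZMod d, Kloo.chi d t * Kloo.K d (α * t) ^ 2 =
      ∑ u : (ZMod d)ˣ, ∑ v : (ZMod d)ˣ, (Kloo.chi d α * Kloo.gs d) *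
        (Kloo.chi d ((u : ZMod d) + (v : ZMod d)) *
        (ZMod.stdAddChar (((u⁻¹ : (ZMod d)ˣ) : ZMod d) + ((v⁻¹ : (ZMod d)ˣ) : ZMod d)) : ℂ)) := by
    simp_rw [K_sq, mul_sum]
    rw [sum_comm]
    refine sum_congr rfl fun u _ => ?_
    rw [sum_comm]
    refine sum_congr rfl fun v _ => ?_
    have e1 : ∀ t : ZMod d, Kloo.chi d t *
        ((ZMod.stdAddChar (t * (α * ((u : ZMod d) + (v : ZMod d)))) : ℂ) *
        (ZMod.stdAddChar (((u⁻¹ : (ZMod d)ˣ) : ZMod d) + ((v⁻¹ : (ZMod d)ˣ) : ZMod d)) : ℂ)) =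
        (Kloo.chi d t * (ZMod.stdAddChar (t * (α * ((u : ZMod d) + (v : ZMod d)))) : ℂ)) *
        (ZMod.stdAddChar (((u⁻¹ : (ZMod d)ˣ) : ZMod d) + ((v⁻¹ : (ZMod d)ˣ) : ZMod d)) : ℂ) := by
      intro t; ring
    rw [sum_congr rfl fun t _ => e1 t, ← sum_mul, hcp, map_mul]
    ring
  have h2 : ∑ u : (ZMod d)ˣ, ∑ v : (ZMod d)ˣ,
        (Kloo.chi d ((u : ZMod d) + (v : ZMod d)) *
        (ZMod.stdAddChar (((u⁻¹ : (ZMod d)ˣ) : ZMod d) + ((v⁻¹ : (ZMod d)ˣ) : ZMod d)) : ℂ)) =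
      ∑ u : (ZMod d)ˣ, ∑ v : (ZMod d)ˣ, Kloo.chi d (((u : ZMod d) * (v : ZMod d)) * ((u : ZMod d) + (v : ZMod d))) *
        (ZMod.stdAddChar ((u : ZMod d) + (v : ZMod d)) : ℂ) := by
    refine Fintype.sum_equiv (Equiv.inv _) _ _ fun u => ?_
    refine Fintype.sum_equiv (Equiv.inv _) _ _ fun v => ?_
    rw [Equiv.inv_apply, ← chi_inv_add, inv_inv, inv_inv]
  have h3 : ∑ u : (ZMod d)ˣ, ∑ v : (ZMod d)ˣ, Kloo.chi d (((u : ZMod d) * (v : ZMod d)) * ((u : ZMod d) + (v : ZMod d))) *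
        (ZMod.stdAddChar ((u : ZMod d) + (v : ZMod d)) : ℂ) =
      ∑ u : ZMod d, ∑ v : ZMod d, Kloo.chi d ((u * v) * (u + v)) *
        (ZMod.stdAddChar (u + v) : ℂ) := by
    rw [Kloo.sum_units_eq (fun u => ∑ v : ZMod d, Kloo.chi d ((u * v) * (u + v)) *
        (ZMod.stdAddChar (u + v) : ℂ))]
    have e0 : ∑ v : ZMod d, Kloo.chi d ((0 * v) * (0 + v)) * (ZMod.stdAddChar (0 + v) : ℂ) = 0 := by
      apply sum_eq_zero; intro v _
      rw [zero_mul, zero_mul, MulChar.map_zero, zero_mul]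
    rw [e0, zero_add]
    refine sum_congr rfl fun u _ => ?_
    rw [Kloo.sum_units_eq (fun v : ZMod d => Kloo.chi d (((u : ZMod d) * v) * ((u : ZMod d) + v)) *
        (ZMod.stdAddChar ((u : ZMod d) + v) : ℂ))]
    rw [mul_zero, zero_mul, MulChar.map_zero, zero_mul, zero_add]
  have h5 : ∑ u : ZMod d, ∑ v : ZMod d, Kloo.chi d ((u * v) * (u + v)) *
        (ZMod.stdAddChar (u + v) : ℂ) = Kloo.gs d := by
    have e1 : ∑ u : ZMod d, ∑ v : ZMod d, Kloo.chi d ((u * v) * (u + v)) *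
        (ZMod.stdAddChar (u + v) : ℂ) =
        ∑ u : ZMod d, ∑ w : ZMod d, Kloo.chi d ((u * (w - u)) * w) * (ZMod.stdAddChar w : ℂ) := by
      refine sum_congr rfl fun u _ => ?_
      refine Fintype.sum_equiv (Equiv.addLeft u) _ _ fun v => ?_
      rw [Equiv.coe_addLeft, add_sub_cancel_left]
    rw [e1, sum_comm]
    have e2 : ∀ w : ZMod d, ∑ u : ZMod d, Kloo.chi d ((u * (w - u)) * w) * (ZMod.stdAddChar w : ℂ) =
        Kloo.chi d w * (ZMod.stdAddChar (1 * w) : ℂ) := by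
      intro w
      by_cases hw : w = 0
      · subst hw
        rw [MulChar.map_zero, zero_mul]
        apply sum_eq_zero; intro u _
        rw [mul_zero, MulChar.map_zero, zero_mul]
      · have e3 : ∀ u : ZMod d, Kloo.chi d ((u * (w - u)) * w) * (ZMod.stdAddChar w : ℂ) =
            Kloo.chi d (u * (w - u)) * (Kloo.chi d w * (ZMod.stdAddChar w : ℂ)) := by
          intro u; rw [map_mul]; ring
        rw [sum_congr rfl fun u _ => e3 u, ← sum_mul, jacobi_w h4 w hw, one_mul, one_mul]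
    rw [sum_congr rfl fun w _ => e2 w, Kloo.sum_chi_psi 1 one_ne_zero, map_one, one_mul]
  rw [h1]
  simp_rw [← mul_sum]
  rw [h2, h3, h5]
  have h6 := Kloo.gs_sq h4
  linear_combination (Kloo.chi d α) * h6

theorem second_moment {d : ℕ} [Fact d.Prime] (h4 : d % 4 = 3) (α : ZMod d) (hα : α ≠ 0) :
    (d : ℝ) ^ 2 - 4 * d ≤ ∑ y : ZMod d, kk α y ^ 2 := by
  have hd0 : (0 : ℝ) < d := by exact_mod_cast (Fact.out : d.Prime).pos
  have h1 := sum_sq_arg h4 (fun t => Kloo.K d (α * t) ^ 2)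
  simp_rw [add_mul, one_mul, sum_add_distrib] at h1
  rw [K_sq_sum α hα, chi_K_sq_sum h4 α hα] at h1
  have h2 : ∑ y : ZMod d, Kloo.K d (α * y ^ 2) ^ 2 = ((∑ y : ZMod d, kk α y ^ 2 : ℝ) : ℂ) := by
    rw [Complex.ofReal_sum]
    refine sum_congr rfl fun y _ => ?_
    rw [K_re]; push_cast; rfl
  rw [h2] at h1
  rcases chi_abs α hα with h | h
  · rw [h] at h1
    have h5 : ∑ y : ZMod d, kk α y ^ 2 = -d + d * (d - 1) := by
      have : ((∑ y : ZMod d, kk α y ^ 2 : ℝ) : ℂ) = ((-d + d * (d - 1) : ℝ) : ℂ) := by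
        rw [h1]; push_cast; ring
      exact_mod_cast this
    rw [h5]; nlinarith
  · rw [h] at h1
    have h5 : ∑ y : ZMod d, kk α y ^ 2 = d + d * (d - 1) := by
      have : ((∑ y : ZMod d, kk α y ^ 2 : ℝ) : ℂ) = ((d + d * (d - 1) : ℝ) : ℂ) := by
        rw [h1]; push_cast; ring
      exact_mod_cast this
    rw [h5]; nlinarith

theorem kk_le {d : ℕ} [Fact d.Prime] (α y : ZMod d) (hα : α ≠ 0) (hy : y ≠ 0) : |kk α y| ≤ 2 * Real.sqrt d := by
  have h := Pool.Weil46.weil_std d 1 (α * y ^ 2) 1 (mul_ne_zero hα (pow_ne_zero 2 hy)) one_ne_zero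
  have h1 : ∑ u : (ZMod d)ˣ, (1 : MulChar (ZMod d) ℂ) (u : ZMod d) *
      (ZMod.stdAddChar ((α * y ^ 2) * (u : ZMod d) + 1 * ((u⁻¹ : (ZMod d)ˣ) : ZMod d)) : ℂ) =
      Kloo.K d (α * y ^ 2) := by
    unfold Kloo.K
    refine sum_congr rfl fun u _ => ?_
    rw [MulChar.one_apply_coe, one_mul, one_mul]
  rw [h1] at h
  exact (Complex.abs_re_le_norm _).trans h

theorem kk_ne_zero {d : ℕ} [Fact d.Prime] (α y : ZMod d) : kk α y ≠ 0 := by
  intro h
  have h1 := K_re α y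
  rw [h] at h1
  exact Kloo.K_prime_ne_zero (Fact.out : d.Prime) (α * y ^ 2) (by rw [h1]; simp)

end Pool.Agent.LibKC40
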