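import Pool.Agent.LibKC40.E1
import Pool.Agent.LibKC40.E3

/-!
Row E4. At least `d²/9` negative triples.
-/

set_option autoImplicit false

namespace Pool.Agent.LibKC40

open Finset

theorem sg_zero {d : ℕ} [Fact d.Prime] (α : ZMod d) : sg α 0 = 0 := by
  unfold sg; rw [if_pos rfl]

theorem sg_neg {d : ℕ} [Fact d.Prime] (α y : ZMod d) : sg α (-y) = sg α y := by
  unfold sg; rw [kk_neg]; simp only [neg_eq_zero]

theorem sg_cases {d : ℕ} [Fact d.Prime] (α y : ZMod d) (hy : y ≠ 0) :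
    (0 < kk α y ∧ sg α y = 1) ∨ (kk α y < 0 ∧ sg α y = -1) := by
  unfold sg
  rw [if_neg hy]
  by_cases h : 0 < kk α y
  · left; exact ⟨h, if_pos h⟩
  · right
    exact ⟨lt_of_le_of_ne (not_lt.1 h) (kk_ne_zero α y), if_neg h⟩

theorem sg_abs {d : ℕ} [Fact d.Prime] (α y : ZMod d) : |sg α y| ≤ 1 := by
  by_cases hy : y = 0
  · subst hy; rw [sg_zero]; simp
  · rcases sg_cases α y hy with h | h <;> rw [h.2] <;> simp

theorem sg_sum_le {d : ℕ} [Fact d.Prime] (h4 : d % 4 = 3) (α : ZMod d) (hα : α ≠ 0) :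
    ∑ y : ZMod d, sg α y ≤ 3 / 4 * d + 2 * Real.sqrt d := by
  have hd3 : 3 ≤ d := by omega
  have hd3' : (3 : ℝ) ≤ d := by exact_mod_cast hd3
  have hd0 : (0 : ℝ) < d := by linarith
  set R : ℝ := 2 * Real.sqrt d with hR
  have hsq : Real.sqrt d * Real.sqrt d = d := Real.mul_self_sqrt hd0.le
  have hs1 : 1 ≤ Real.sqrt d := by
    rw [Real.one_le_sqrt]; linarith
  have hR2 : 2 ≤ R := by rw [hR]; linarith
  have hRR : R * R = 4 * d := by rw [hR]; nlinarith
  have hpt : ∀ y : ZMod d, kk α y ^ 2 - R * kk α y ≤ (1 - sg α y) * (R * R) := by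
    intro y
    by_cases hy : y = 0
    · subst hy
      rw [kk_zero, sg_zero]
      nlinarith
    · have hk := kk_le α y hα hy
      rw [← hR] at hk
      rcases sg_cases α y hy with h | h
      · rw [h.2]
        rw [abs_of_pos h.1] at hk
        have := mul_nonneg h.1.le (sub_nonneg.2 hk)
        nlinarith
      · rw [h.2]
        rw [abs_of_neg h.1] at hk
        have h1 : 0 ≤ -kk α y := by linarith [h.1]
        have h2 : (-kk α y) * (-kk α y) ≤ R * R := mul_le_mul hk hk h1 (by linarith)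
        have h3 : R * (-kk α y) ≤ R * R := mul_le_mul_of_nonneg_left hk (by linarith)
        nlinarith
  have hsum := sum_le_sum fun y (_ : y ∈ (univ : Finset (ZMod d))) => hpt y
  rw [sum_sub_distrib, ← mul_sum, ← sum_mul, sum_sub_distrib, sum_const, card_univ, ZMod.card,
    nsmul_eq_mul, mul_one, hRR] at hsum
  have h1 := (abs_le.1 (first_moment h4 α hα)).2
  have h2 := second_moment h4 α hα
  have h3 : R * ∑ y : ZMod d, kk α y ≤ R * d := mul_le_mul_of_nonneg_left h1 (by linarith)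
  have h5 : (d : ℝ) * (d - 4 - R) ≤ d * (4 * (d - ∑ y : ZMod d, sg α y)) := by nlinarith
  have h6 := le_of_mul_le_mul_left h5 hd0
  rw [hR] at h6
  linarith

open scoped Classical in
theorem neg_pairs : ∃ d₀ : ℕ, ∀ (d : ℕ) [Fact d.Prime], d₀ ≤ d → d % 4 = 3 → ∀ α : ZMod d, α ≠ 0 →
    (d : ℝ) ^ 2 / 9 ≤ #((univ : Finset (ZMod d × ZMod d)).filter fun z =>
      sg α z.1 * sg α z.2 * sg α (z.2 - z.1) = -1) := by
  refine ⟨6400, fun d hd hd1 h4 α hα => ?_⟩
  have hd1' : (6400 : ℝ) ≤ d := by exact_mod_cast hd1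
  have hd0 : (0 : ℝ) < d := by linarith
  have hsq : Real.sqrt d * Real.sqrt d = d := Real.mul_self_sqrt hd0.le
  have hs80 : 80 ≤ Real.sqrt d := by
    apply Real.le_sqrt_of_sq_le; linarith
  have hs0 : 0 ≤ Real.sqrt d := by linarith
  have hd2 : d ≠ 2 := by omega
  have hT := triple_sum_le (sg α) (sg_neg α) (3 / 4 * d + 2 * Real.sqrt d) (by positivity) (by
    intro ξ
    by_cases hξ : ξ = 0
    · subst hξ
      have e : ∑ y : ZMod d, sg α y * (ZMod.stdAddChar (0 * y) : ℂ).re = ∑ y : ZMod d, sg α y := by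
        refine sum_congr rfl fun y _ => ?_
        rw [zero_mul, AddChar.map_zero_eq_one, Complex.one_re, mul_one]
      rw [e]; exact sg_sum_le h4 α hα
    · have := cos_le hd2 (sg α) (sg_abs α) ξ hξ
      linarith)
  have hs2 : ∑ y : ZMod d, sg α y ^ 2 ≤ d := by
    calc ∑ y : ZMod d, sg α y ^ 2 ≤ ∑ _y : ZMod d, (1 : ℝ) := by
          refine sum_le_sum fun y _ => ?_
          rw [← sq_abs]
          have := sg_abs α y
          have := abs_nonneg (sg α y)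
          nlinarith
      _ = d := by rw [sum_const, card_univ, ZMod.card]; simp
  have hT2 : ∑ y₁ : ZMod d, ∑ y₂ : ZMod d, sg α y₁ * sg α y₂ * sg α (y₂ - y₁) ≤
      (3 / 4 * d + 2 * Real.sqrt d) * d :=
    hT.trans (mul_le_mul_of_nonneg_left hs2 (by positivity))
  have hpt : ∀ y₁ y₂ : ZMod d, 1 - (if y₁ = 0 then (1 : ℝ) else 0) - (if y₂ = 0 then (1 : ℝ) else 0)
      - (if y₂ = y₁ then (1 : ℝ) else 0)
      - 2 * (if sg α y₁ * sg α y₂ * sg α (y₂ - y₁) = -1 then (1 : ℝ) else 0) ≤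
      sg α y₁ * sg α y₂ * sg α (y₂ - y₁) := by
    intro y₁ y₂
    by_cases h1 : y₁ = 0
    · rw [if_pos h1, h1, sg_zero, zero_mul, zero_mul]
      split_ifs <;> norm_num
    by_cases h2 : y₂ = 0
    · rw [if_pos h2, h2, sg_zero, mul_zero, zero_mul]
      split_ifs <;> norm_num
    by_cases h3 : y₂ = y₁
    · rw [if_pos h3, h3, sub_self, sg_zero, mul_zero]
      split_ifs <;> norm_num
    rw [if_neg h1, if_neg h2, if_neg h3]
    rcases sg_cases α y₁ h1 with e1 | e1 <;> rcases sg_cases α y₂ h2 with e2 | e2 <;>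
      rcases sg_cases α (y₂ - y₁) (sub_ne_zero.2 h3) with e3 | e3 <;>
      rw [e1.2, e2.2, e3.2] <;> norm_num
  have hsum : ∑ y₁ : ZMod d, ∑ y₂ : ZMod d, (1 - (if y₁ = 0 then (1 : ℝ) else 0)
      - (if y₂ = 0 then (1 : ℝ) else 0) - (if y₂ = y₁ then (1 : ℝ) else 0)
      - 2 * (if sg α y₁ * sg α y₂ * sg α (y₂ - y₁) = -1 then (1 : ℝ) else 0)) ≤
      ∑ y₁ : ZMod d, ∑ y₂ : ZMod d, sg α y₁ * sg α y₂ * sg α (y₂ - y₁) :=
    sum_le_sum fun y₁ _ => sum_le_sum fun y₂ _ => hpt y₁ y₂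
  have hcard : ((#((univ : Finset (ZMod d × ZMod d)).filter fun z =>
      sg α z.1 * sg α z.2 * sg α (z.2 - z.1) = -1) : ℕ) : ℝ) =
      ∑ y₁ : ZMod d, ∑ y₂ : ZMod d,
        (if sg α y₁ * sg α y₂ * sg α (y₂ - y₁) = -1 then (1 : ℝ) else 0) := by
    rw [card_filter]
    push_cast
    rw [← Fintype.sum_prod_type']
  set N : ℝ := ((#((univ : Finset (ZMod d × ZMod d)).filter fun z =>
      sg α z.1 * sg α z.2 * sg α (z.2 - z.1) = -1) : ℕ) : ℝ) with hN
  have e1 : ∑ y₁ : ZMod d, ∑ y₂ : ZMod d, (1 - (if y₁ = 0 then (1 : ℝ) else 0)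
      - (if y₂ = 0 then (1 : ℝ) else 0) - (if y₂ = y₁ then (1 : ℝ) else 0)
      - 2 * (if sg α y₁ * sg α y₂ * sg α (y₂ - y₁) = -1 then (1 : ℝ) else 0)) =
      (d : ℝ) * d - d - d - d - 2 * N := by
    rw [hcard]
    simp_rw [sum_sub_distrib, ← mul_sum]
    have c1 : ∑ _y₁ : ZMod d, ∑ _y₂ : ZMod d, (1 : ℝ) = d * d := by simp
    have c2 : ∑ y₁ : ZMod d, ∑ _y₂ : ZMod d, (if y₁ = 0 then (1 : ℝ) else 0) = d := by
      simp
    have c3 : ∑ _y₁ : ZMod d, ∑ y₂ : ZMod d, (if y₂ = 0 then (1 : ℝ) else 0) = d := by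
      simp
    have c4 : ∑ y₁ : ZMod d, ∑ y₂ : ZMod d, (if y₂ = y₁ then (1 : ℝ) else 0) = d := by
      simp
    rw [c1, c2, c3, c4]
  rw [e1] at hsum
  have h9 : (d : ℝ) * d - 3 * d - 2 * N ≤ (3 / 4 * d + 2 * Real.sqrt d) * d := by linarith
  nlinarith

end Pool.Agent.LibKC40
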