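import Pool.Agent.LibKC40.E4

/-!
Row E5. Transfer to the classes `(A, q)`.
-/

set_option autoImplicit false

namespace Pool.Agent.LibKC40

open Finset

open scoped Classical in
/-- a root of `x` if `x` is a square -/
noncomputable def rt {d : ℕ} (x : ZMod d) : ZMod d := if h : ∃ r : ZMod d, x = r * r then h.choose else 0

theorem rt_mul {d : ℕ} (x : ZMod d) (h : IsSquare x) : rt x * rt x = x := by
  have h' : ∃ r : ZMod d, x = r * r := h
  unfold rt
  rw [dif_pos h']
  exact h'.choose_spec.symm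

theorem sq_or_neg {d : ℕ} [Fact d.Prime] (h3 : d % 4 = 3) (x : ZMod d) : IsSquare x ∨ IsSquare (-x) := by
  by_contra hcon
  push Not at hcon
  have h1 := quadraticChar_neg_one_iff_not_isSquare.2 hcon.1
  have h2 := quadraticChar_neg_one_iff_not_isSquare.2 hcon.2
  have h4 : quadraticChar (ZMod d) (-1) = -1 := by
    rw [quadraticChar_neg_one (Kloo.ringChar_ne h3), ZMod.card, ZMod.χ₄_nat_three_mod_four h3]
  rw [neg_eq_neg_one_mul, map_mul, h4, h1] at h2
  norm_num at h2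

/-- `2 y₁ y₂ y₃` -/
def pz {d : ℕ} (z : ZMod d × ZMod d) : ZMod d := 2 * z.1 * z.2 * (z.2 - z.1)

open scoped Classical in
/-- the sign -/
noncomputable def ez {d : ℕ} (z : ZMod d × ZMod d) : ZMod d := if IsSquare (pz z) then 1 else -1

/-- the class of the pair -/
noncomputable def fz {d : ℕ} (z : ZMod d × ZMod d) : ZMod d × ZMod d :=
  (ez z * rt (ez z * pz z) * (z.1 * z.2)⁻¹, 2 * z.2 * (rt (ez z * pz z))⁻¹)

theorem ez_cases {d : ℕ} (z : ZMod d × ZMod d) : ez z = 1 ∨ ez z = -1 := by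
  unfold ez; split_ifs
  · left; rfl
  · right; rfl

theorem ez_sq {d : ℕ} (z : ZMod d × ZMod d) : ez z * ez z = 1 := by
  rcases ez_cases z with h | h <;> rw [h] <;> ring

theorem ez_square {d : ℕ} [Fact d.Prime] (h3 : d % 4 = 3) (z : ZMod d × ZMod d) :
    IsSquare (ez z * pz z) := by
  unfold ez
  split_ifs with h
  · rw [one_mul]; exact h
  · rcases sq_or_neg h3 (pz z) with h1 | h1
    · exact absurd h1 h
    · rw [neg_one_mul]; exact h1

theorem two_ne {d : ℕ} [Fact d.Prime] (h3 : d % 4 = 3) : (2 : ZMod d) ≠ 0 := by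
  intro h
  have h1 : ((2 : ℕ) : ZMod d) = 0 := by exact_mod_cast h
  rw [ZMod.natCast_eq_zero_iff] at h1
  have h2 := (Nat.prime_dvd_prime_iff_eq (Fact.out : d.Prime) Nat.prime_two).1 h1
  omega

theorem kk_ez {d : ℕ} [Fact d.Prime] (α : ZMod d) (z : ZMod d × ZMod d) (y : ZMod d) :
    kk α (ez z * y) = kk α y := by
  rcases ez_cases z with h | h
  · rw [h, one_mul]
  · rw [h, neg_one_mul, kk_neg]

/-- the data of the map -/
theorem fz_spec {d : ℕ} [Fact d.Prime] (h3 : d % 4 = 3) (z : ZMod d × ZMod d) (h1 : z.1 ≠ 0) (h2 : z.2 ≠ 0)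
    (h12 : z.2 - z.1 ≠ 0) :
    (fz z).1 ≠ 0 ∧ (fz z).2 ≠ 0 ∧ (fz z).2 ≠ (fz z).1 ∧
      2 * ((fz z).2 * (fz z).1)⁻¹ = ez z * z.1 ∧
      2 * ((fz z).1 * ((fz z).2 - (fz z).1))⁻¹ = ez z * z.2 ∧
      2 * ((fz z).2 * ((fz z).2 - (fz z).1))⁻¹ = ez z * (z.2 - z.1) := by
  have h20 := two_ne (d := d) h3
  have he := ez_sq z
  have hr := rt_mul _ (ez_square h3 z)
  have he0 : ez z ≠ 0 := by
    intro h; rw [h, zero_mul] at he; exact zero_ne_one he
  have hp0 : pz z ≠ 0 := mul_ne_zero (mul_ne_zero (mul_ne_zero h20 h1) h2) h12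
  have hw0 : rt (ez z * pz z) ≠ 0 := by
    intro h; rw [h, zero_mul] at hr
    exact (mul_ne_zero he0 hp0) hr.symm
  set w := rt (ez z * pz z) with hw
  set e := ez z with hee
  have hp : pz z = 2 * z.1 * z.2 * (z.2 - z.1) := rfl
  rw [hp] at hr
  have hA : (fz z).1 = e * w * (z.1 * z.2)⁻¹ := rfl
  have hq : (fz z).2 = 2 * z.2 * w⁻¹ := rfl
  have hqA : (fz z).2 - (fz z).1 = 2 * z.1 * w⁻¹ := by
    rw [hA, hq]
    field_simp
    have hew : e * w ^ 2 = 2 * z.1 * z.2 * (z.2 - z.1) := by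
      rw [pow_two, hr, ← mul_assoc, he, one_mul]
    linear_combination -hew
  have hA0 : (fz z).1 ≠ 0 := by
    rw [hA]; exact mul_ne_zero (mul_ne_zero he0 hw0) (inv_ne_zero (mul_ne_zero h1 h2))
  have hq0 : (fz z).2 ≠ 0 := by
    rw [hq]; exact mul_ne_zero (mul_ne_zero h20 h2) (inv_ne_zero hw0)
  have hqA0 : (fz z).2 - (fz z).1 ≠ 0 := by
    rw [hqA]; exact mul_ne_zero (mul_ne_zero h20 h1) (inv_ne_zero hw0)
  have key : ∀ x y : ZMod d, x ≠ 0 → x * (e * y) = 2 → 2 * x⁻¹ = e * y := by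
    intro x y hx hxy
    rw [← hxy, mul_comm x, mul_assoc, mul_inv_cancel₀ hx, mul_one]
  refine ⟨hA0, hq0, sub_ne_zero.1 hqA0, key _ _ (mul_ne_zero hq0 hA0) ?_,
    key _ _ (mul_ne_zero hA0 hqA0) ?_, key _ _ (mul_ne_zero hq0 hqA0) ?_⟩
  · rw [hA, hq]
    field_simp
    linear_combination he
  · rw [hqA, hA]
    field_simp
    linear_combination he
  · rw [hqA, hq]
    field_simp
    linear_combination -hr

theorem fz_neg {d : ℕ} (z z' : ZMod d × ZMod d) (hz : z' = -z) (he : ez z' ≠ ez z) :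
    (fz z').2 = -(fz z).2 := by
  have h1 : pz z' = -pz z := by
    rw [hz]; unfold pz; rw [Prod.fst_neg, Prod.snd_neg]; ring
  have h2 : ez z' = -ez z := by
    rcases ez_cases z with h | h <;> rcases ez_cases z' with h' | h' <;> rw [h, h'] at he ⊢
    · exact absurd rfl he
    · ring
    · exact absurd rfl he
  unfold fz
  simp only
  rw [h1, h2, neg_mul_neg, hz, Prod.snd_neg]
  ring

open scoped Classical in
theorem negS_ge : ∃ d₀ : ℕ, ∀ (d : ℕ) [Fact d.Prime], d₀ ≤ d → d % 4 = 3 → ∀ α : ZMod d, α ≠ 0 →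
    (d : ℝ) ^ 2 / 9 ≤ #(NegS α) := by
  obtain ⟨d₀, h0⟩ := neg_pairs
  refine ⟨d₀, fun d hd hd1 h3 α hα => (h0 d hd1 h3 α hα).trans ?_⟩
  have hne : ∀ z : ZMod d × ZMod d, sg α z.1 * sg α z.2 * sg α (z.2 - z.1) = -1 →
      z.1 ≠ 0 ∧ z.2 ≠ 0 ∧ z.2 - z.1 ≠ 0 := by
    intro z hz
    refine ⟨?_, ?_, ?_⟩ <;> intro h <;> rw [h, sg_zero] at hz <;> norm_num at hz
  have hsgn : ∀ z : ZMod d × ZMod d, sg α z.1 * sg α z.2 * sg α (z.2 - z.1) = -1 →
      kk α z.1 * kk α z.2 * kk α (z.2 - z.1) < 0 := by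
    intro z hz
    obtain ⟨h1, h2, h12⟩ := hne z hz
    rcases sg_cases α z.1 h1 with e1 | e1 <;> rcases sg_cases α z.2 h2 with e2 | e2 <;>
      rcases sg_cases α (z.2 - z.1) h12 with e3 | e3 <;> rw [e1.2, e2.2, e3.2] at hz <;>
      norm_num at hz
    · exact mul_neg_of_pos_of_neg (mul_pos e1.1 e2.1) e3.1
    · exact mul_neg_of_neg_of_pos (mul_neg_of_pos_of_neg e1.1 e2.1) e3.1
    · exact mul_neg_of_neg_of_pos (mul_neg_of_neg_of_pos e1.1 e2.1) e3.1
    · exact mul_neg_of_pos_of_neg (mul_pos_of_neg_of_neg e1.1 e2.1) e3.1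
  have hle : #((univ : Finset (ZMod d × ZMod d)).filter fun z =>
      sg α z.1 * sg α z.2 * sg α (z.2 - z.1) = -1) ≤ #(NegS α) := by
    refine card_le_card_of_injOn fz ?_ ?_
    · intro z hz
      have hz' := (mem_filter.1 (mem_coe.1 hz)).2
      obtain ⟨h1, h2, h12⟩ := hne z hz'
      obtain ⟨hA, hq, hqA, e1, e2, e3⟩ := fz_spec h3 z h1 h2 h12
      rw [mem_coe]
      unfold NegS
      rw [mem_filter]
      refine ⟨mem_univ _, hA, hq, hqA, ?_⟩
      rw [e1, e2, e3, kk_ez, kk_ez, kk_ez]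
      exact hsgn z hz'
    · intro z hz z' hz' hzz
      have hz1 := (mem_filter.1 (mem_coe.1 hz)).2
      have hz1' := (mem_filter.1 (mem_coe.1 hz')).2
      obtain ⟨h1, h2, h12⟩ := hne z hz1
      obtain ⟨h1', h2', h12'⟩ := hne z' hz1'
      obtain ⟨hA, hq, hqA, e1, e2, e3⟩ := fz_spec h3 z h1 h2 h12
      obtain ⟨hA', hq', hqA', e1', e2', e3'⟩ := fz_spec h3 z' h1' h2' h12'
      rw [← hzz] at e1' e2' e3'
      have f1 : ez z * z.1 = ez z' * z'.1 := e1.symm.trans e1'
      have f2 : ez z * z.2 = ez z' * z'.2 := e2.symm.trans e2'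
      by_cases he : ez z' = ez z
      · rw [he] at f1 f2
        have he0 : ez z ≠ 0 := by
          intro h; have := ez_sq z; rw [h, zero_mul] at this; exact zero_ne_one this
        exact Prod.ext (mul_left_cancel₀ he0 f1) (mul_left_cancel₀ he0 f2)
      · exfalso
        have hzn : z' = -z := by
          rcases ez_cases z with h | h <;> rcases ez_cases z' with h' | h' <;> rw [h, h'] at he f1 f2
          · exact absurd rfl he
          · apply Prod.ext
            · rw [Prod.fst_neg]; linear_combination f1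
            · rw [Prod.snd_neg]; linear_combination f2
          · apply Prod.ext
            · rw [Prod.fst_neg]; linear_combination -f1
            · rw [Prod.snd_neg]; linear_combination -f2
          · exact absurd rfl he
        have h5 := fz_neg z z' hzn he
        rw [← hzz] at h5
        have h6 : 2 * (fz z).2 = 0 := by linear_combination h5
        exact (mul_ne_zero (two_ne h3) hq) h6
  exact_mod_cast hle

end Pool.Agent.LibKC40
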