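import Pool.Agent.LibKC40.Defs

/-!
Row F1. The identity.
-/

set_option autoImplicit false

namespace Pool.Agent.LibKC40

open Finset Kloo

theorem F_re_mul (a : ℤ) {c c' w : ℕ} [NeZero c] [NeZero c'] [NeZero (c * c')] (h : c.Coprime c')
    (hw : w.Coprime (c * c')) : (F a (c * c') w).re = (F a c (c' * w)).re * (F a c' (c * w)).re := by
  rw [F_mul a h hw, F_real a c (c' * w), F_real a c' (c * w), ← Complex.ofReal_mul, Complex.ofReal_re,
    Complex.ofReal_re, Complex.ofReal_re]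

theorem F_kk (a : ℤ) (d w : ℕ) [Fact d.Prime] : (F a d w).re = kk (a : ZMod d) ((w : ZMod d)⁻¹) := rfl

theorem two_ne_zmod {p : ℕ} (hp : p.Prime) (h2 : p ≠ 2) : (2 : ZMod p) ≠ 0 := by
  intro h
  have h1 : ((2 : ℕ) : ZMod p) = 0 := by exact_mod_cast h
  rw [ZMod.natCast_eq_zero_iff] at h1
  exact h2 ((Nat.prime_dvd_prime_iff_eq hp Nat.prime_two).1 h1)

theorem four_neg (a : ℤ) (d n A B q : ℕ) [Fact d.Prime] [NeZero n] [NeZero A] [NeZero B] [NeZero q]
    (hd2 : d ≠ 2) (hn : n.Prime) (hA : A.Prime) (hB : B.Prime) (hq : q.Prime)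
    (hA2 : A ≠ 2) (hq2 : q ≠ 2) (h1 : q = A + 2 * B) (h2 : 2 * n = d * A + q)
    (hdis : n ≠ A ∧ n ≠ B ∧ n ≠ q ∧ A ≠ B ∧ A ≠ q ∧ B ≠ q)
    (hd : d ≠ n ∧ d ≠ A ∧ d ≠ B ∧ d ≠ q)
    (hneg : NegP (a : ZMod d) (A : ZMod d) (q : ZMod d)) :
    (F a (n * q) 1).re * (F a (d * (n * A)) 1).re * (F a (d * (A * B)) 1).re *
      (F a (d * (B * q)) 1).re < 0 := by
  have hdp : d.Prime := Fact.out
  obtain ⟨hnA, hnB, hnq, hAB, hAq, hBq⟩ := hdis
  obtain ⟨hdn, hdA, hdB, hdq⟩ := hd
  have cnA := (Nat.coprime_primes hn hA).2 hnA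
  have cnq := (Nat.coprime_primes hn hq).2 hnq
  have cAB := (Nat.coprime_primes hA hB).2 hAB
  have cAq := (Nat.coprime_primes hA hq).2 hAq
  have cBq := (Nat.coprime_primes hB hq).2 hBq
  have cdn := (Nat.coprime_primes hdp hn).2 hdn
  have cdA := (Nat.coprime_primes hdp hA).2 hdA
  have cdB := (Nat.coprime_primes hdp hB).2 hdB
  have cdq := (Nat.coprime_primes hdp hq).2 hdq
  have FA : Fact A.Prime := ⟨hA⟩
  have FB : Fact B.Prime := ⟨hB⟩
  have Fn : Fact n.Prime := ⟨hn⟩
  have Fq : Fact q.Prime := ⟨hq⟩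
  rw [F_re_mul a cnq (Nat.coprime_one_left _),
    F_re_mul a (cdn.mul_right cdA) (Nat.coprime_one_left _),
    F_re_mul a (cdA.mul_right cdB) (Nat.coprime_one_left _),
    F_re_mul a (cdB.mul_right cdq) (Nat.coprime_one_left _)]
  simp only [mul_one]
  rw [F_re_mul a cnA (cdn.mul_right cdA), F_re_mul a cAB (cdA.mul_right cdB),
    F_re_mul a cBq (cdB.mul_right cdq)]
  -- the congruences
  have g1 : F a n q = F a n (A * d) := by
    apply F_congr_neg a (cnA.symm.mul_left cdn)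
    have e := congrArg (fun z : ℕ => (z : ZMod n)) h2
    push_cast at e ⊢
    rw [ZMod.natCast_self, mul_zero] at e
    linear_combination -e
  have g2 : F a A (n * d) = F a A (B * d) := by
    apply F_congr
    have e := congrArg (fun z : ℕ => (z : ZMod A)) h2
    have e' := congrArg (fun z : ℕ => (z : ZMod A)) h1
    push_cast at e e' ⊢
    rw [ZMod.natCast_self, mul_zero, zero_add] at e
    rw [ZMod.natCast_self, zero_add] at e'
    have e2 : (n : ZMod A) = B := mul_left_cancel₀ (two_ne_zmod hA hA2) (e.trans e')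
    rw [e2]
  have g3 : F a B (q * d) = F a B (A * d) := by
    apply F_congr
    have e' := congrArg (fun z : ℕ => (z : ZMod B)) h1
    push_cast at e' ⊢
    rw [ZMod.natCast_self, mul_zero, add_zero] at e'
    rw [e']
  have g4 : F a q n = F a q (B * d) := by
    apply F_congr_neg a (cBq.mul_left cdq)
    have e := congrArg (fun z : ℕ => (z : ZMod q)) h2
    have e' := congrArg (fun z : ℕ => (z : ZMod q)) h1
    push_cast at e e' ⊢
    rw [ZMod.natCast_self, add_zero] at e
    rw [ZMod.natCast_self] at e'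
    apply mul_left_cancel₀ (two_ne_zmod hq hq2)
    linear_combination e - (d : ZMod q) * e'
  rw [g1, g2, g3, g4]
  -- the local factors
  obtain ⟨hA0, hq0, hqA, hlt⟩ := hneg
  have h20 := two_ne_zmod hdp hd2
  have e := congrArg (fun z : ℕ => (z : ZMod d)) h2
  have e' := congrArg (fun z : ℕ => (z : ZMod d)) h1
  push_cast at e e'
  rw [ZMod.natCast_self, zero_mul, zero_add] at e
  have hn' : (n : ZMod d) = q / 2 := by rw [eq_div_iff h20]; linear_combination e
  have hB' : (B : ZMod d) = (q - A) / 2 := by rw [eq_div_iff h20]; linear_combination -e'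
  have hqA' : (q : ZMod d) - A ≠ 0 := sub_ne_zero.2 hqA
  have k1 : (F a d (n * A)).re = kk (a : ZMod d) (2 * ((q : ZMod d) * A)⁻¹) := by
    rw [F_kk]; congr 1
    push_cast
    rw [hn']
    field_simp
  have k2 : (F a d (A * B)).re = kk (a : ZMod d) (2 * ((A : ZMod d) * (q - A))⁻¹) := by
    rw [F_kk]; congr 1
    push_cast
    rw [hB']
    field_simp
  have k3 : (F a d (B * q)).re = kk (a : ZMod d) (2 * ((q : ZMod d) * (q - A))⁻¹) := by
    rw [F_kk]; congr 1
    push_cast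
    rw [hB']
    field_simp
  rw [k1, k2, k3]
  have z1 := F_re_ne_zero a n (A * d) hn.prime.squarefree
  have z2 := F_re_ne_zero a A (B * d) hA.prime.squarefree
  have z3 := F_re_ne_zero a B (A * d) hB.prime.squarefree
  have z4 := F_re_ne_zero a q (B * d) hq.prime.squarefree
  have hpos : 0 < (F a n (A * d)).re ^ 2 * (F a A (B * d)).re ^ 2 * (F a B (A * d)).re ^ 2 *
      (F a q (B * d)).re ^ 2 := by positivity
  have := mul_neg_of_pos_of_neg hpos hlt
  calc _ = (F a n (A * d)).re ^ 2 * (F a A (B * d)).re ^ 2 * (F a B (A * d)).re ^ 2 *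
      (F a q (B * d)).re ^ 2 * (kk (a : ZMod d) (2 * ((q : ZMod d) * A)⁻¹) *
        kk (a : ZMod d) (2 * ((A : ZMod d) * (q - A))⁻¹) *
        kk (a : ZMod d) (2 * ((q : ZMod d) * (q - A))⁻¹)) := by ring
    _ < 0 := this

end Pool.Agent.LibKC40
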