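import Pool.Agent.LibKC40.GDefs

/-!
Row G1 (MEDIUM, only algebra of finite sums). Variance over the box.

PLAN. Expand the square: `∑_{d,d'} w_d w_{d'} S(d,d')`, `S(d,d') = ∑_{z ∈ Box} κ_d κ_{d'} f(n_d) f(n_{d'})`. Diagonal: `#Box ≤ 9 N²`, `|κ| ≤ 1`,
`|f| ≤ L`, total `≤ 9 N² L² ∑ w_d²`. For `d < d'` (the case `d' < d` by symmetry `S(d,d') = S(d',d)`): the map `(A,q) ↦ (n, A)`, `n = nn d A q`
(parity: `A` odd, `q ≡ A + 2 mod 4`, `d ≡ 3 mod 4` give `dA + q ≡ 2 mod 4`, so `n` is odd and `2n = dA + q`; conversely `n`, `A` odd and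
`q = 2n - dA` give `q ≡ A + 2 mod 4`), is a bijection from the box onto `{(n, A) : n odd, A ∈ JJ N d n}`, `n < 4dN`;
`nn d' A q = n + ((d'-d)/2) A`; `(q : ZMod d) = 2n`, `(q : ZMod d') = 2n - dA`. So `S(d,d') = ∑_{n odd} f n · INN κ f N d d' n`.
-/

set_option autoImplicit false

namespace Pool.Agent.LibKC40

open Finset

private theorem g1_mod (d A : ℕ) (hd : d % 4 = 3) : (d * A) % 4 = (3 * A) % 4 := by
  rw [Nat.mul_mod, hd]
  omega

private theorem g1_two (d A q : ℕ) (hd : d % 4 = 3) (hA : A % 2 = 1) (hq : q % 4 = (A + 2) % 4) :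
    2 * nn d A q = d * A + q ∧ nn d A q % 2 = 1 := by
  have h := g1_mod d A hd
  unfold nn
  omega

private theorem g1_lt (N d A q : ℕ) (hd : d % 4 = 3) (hA : N < A) (hA' : A ≤ 4 * N) (hq' : q ≤ 4 * N) :
    nn d A q < 4 * d * N := by
  have h1 : d * A ≤ d * (4 * N) := Nat.mul_le_mul_left d hA'
  have h2 : 3 * N ≤ d * N := Nat.mul_le_mul_right N (by omega)
  have h3 : 4 * d * N = 4 * (d * N) := by ring
  have h4 : d * (4 * N) = 4 * (d * N) := by ring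
  unfold nn
  rw [h3]
  rw [h4] at h1
  omega

private theorem g1_S (N d d' : ℕ) (hd : d % 4 = 3) (hd' : d' % 4 = 3) (hlt : d < d')
    (κ : (d : ℕ) → ZMod d → ZMod d → ℝ) (f : ℕ → ℝ) :
    ∑ z ∈ Box N, (κ d (z.1 : ZMod d) (z.2 : ZMod d) * f (nn d z.1 z.2)) *
      (κ d' (z.1 : ZMod d') (z.2 : ZMod d') * f (nn d' z.1 z.2)) =
    ∑ n ∈ (range (4 * d * N)).filter (fun n => n % 2 = 1), f n * INN κ f N d d' n := by
  obtain ⟨g, rfl⟩ : ∃ g, d' = d + 2 * g := ⟨(d' - d) / 2, by omega⟩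
  have hg : (d + 2 * g - d) / 2 = g := by omega
  unfold INN
  simp_rw [hg, Finset.mul_sum]
  rw [Finset.sum_sigma']
  refine Finset.sum_nbij' (fun z => (⟨nn d z.1 z.2, z.1⟩ : (_ : ℕ) × ℕ)) (fun p => (p.2, 2 * p.1 - d * p.2)) ?_ ?_ ?_ ?_ ?_
  · rintro ⟨A, q⟩ hz
    unfold Box at hz
    simp only [Finset.mem_filter, Finset.mem_product, Finset.mem_Ioc] at hz
    obtain ⟨⟨⟨hA, hA'⟩, hq, hq'⟩, hA2, hq4⟩ := hz
    obtain ⟨h2, h3⟩ := g1_two d A q hd hA2 hq4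
    have h4 := g1_lt N d A q hd hA hA' hq'
    unfold JJ
    simp only [Finset.mem_sigma, Finset.mem_filter, Finset.mem_range, Finset.mem_Ioc]
    refine ⟨⟨h4, h3⟩, ⟨hA, hA'⟩, hA2, ?_, ?_⟩
    · omega
    · omega
  · rintro ⟨n, A⟩ hp
    unfold JJ at hp
    simp only [Finset.mem_sigma, Finset.mem_filter, Finset.mem_range, Finset.mem_Ioc] at hp
    obtain ⟨⟨h1, h2⟩, ⟨hA, hA'⟩, hA2, h3, h4⟩ := hp
    have h5 := g1_mod d A hd
    unfold Box
    simp only [Finset.mem_filter, Finset.mem_product, Finset.mem_Ioc]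
    refine ⟨⟨⟨hA, hA'⟩, ?_, ?_⟩, hA2, ?_⟩
    · omega
    · omega
    · omega
  · rintro ⟨A, q⟩ hz
    unfold Box at hz
    simp only [Finset.mem_filter, Finset.mem_product, Finset.mem_Ioc] at hz
    obtain ⟨⟨⟨hA, hA'⟩, hq, hq'⟩, hA2, hq4⟩ := hz
    obtain ⟨h2, h3⟩ := g1_two d A q hd hA2 hq4
    refine Prod.ext rfl ?_
    show 2 * nn d A q - d * A = q
    omega
  · rintro ⟨n, A⟩ hp
    unfold JJ at hp
    simp only [Finset.mem_sigma, Finset.mem_filter, Finset.mem_range, Finset.mem_Ioc] at hp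
    obtain ⟨⟨h1, h2⟩, ⟨hA, hA'⟩, hA2, h3, h4⟩ := hp
    have h5 : nn d A (2 * n - d * A) = n := by
      unfold nn
      omega
    show (⟨nn d A (2 * n - d * A), A⟩ : (_ : ℕ) × ℕ) = ⟨n, A⟩
    rw [h5]
  · rintro ⟨A, q⟩ hz
    unfold Box at hz
    simp only [Finset.mem_filter, Finset.mem_product, Finset.mem_Ioc] at hz
    obtain ⟨⟨⟨hA, hA'⟩, hq, hq'⟩, hA2, hq4⟩ := hz
    obtain ⟨h2, h3⟩ := g1_two d A q hd hA2 hq4
    have h6 : nn (d + 2 * g) A q = nn d A q + g * A := by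
      have e : (d + 2 * g) * A = d * A + 2 * (g * A) := by ring
      have e2 : nn (d + 2 * g) A q = ((d + 2 * g) * A + q) / 2 := rfl
      rw [e2, e]
      omega
    have c1 : (q : ZMod d) = 2 * ((nn d A q : ℕ) : ZMod d) := by
      have := congrArg (fun t : ℕ => (t : ZMod d)) h2
      push_cast at this
      rw [this, ZMod.natCast_self, zero_mul, zero_add]
    have c2 : (q : ZMod (d + 2 * g)) = 2 * ((nn d A q : ℕ) : ZMod (d + 2 * g)) - (d : ZMod (d + 2 * g)) * (A : ZMod (d + 2 * g)) := by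
      have := congrArg (fun t : ℕ => (t : ZMod (d + 2 * g))) h2
      simp only [Nat.cast_mul, Nat.cast_add, Nat.cast_ofNat] at this
      rw [this]
      ring
    show (κ d (A : ZMod d) (q : ZMod d) * f (nn d A q)) *
      (κ (d + 2 * g) (A : ZMod (d + 2 * g)) (q : ZMod (d + 2 * g)) * f (nn (d + 2 * g) A q)) =
      f (nn d A q) * (κ d (A : ZMod d) (2 * ((nn d A q : ℕ) : ZMod d)) *
        κ (d + 2 * g) (A : ZMod (d + 2 * g)) (2 * ((nn d A q : ℕ) : ZMod (d + 2 * g)) - (d : ZMod (d + 2 * g)) * (A : ZMod (d + 2 * g))) *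
        f (nn d A q + g * A))
    rw [h6, ← c1, ← c2]
    ring

private theorem g1_card (N : ℕ) : ((Box N).card : ℝ) ≤ 9 * N ^ 2 := by
  have h1 : (Box N).card ≤ (3 * N) * (3 * N) := by
    unfold Box
    refine (Finset.card_filter_le _ _).trans ?_
    rw [Finset.card_product, Nat.card_Ioc]
    have : 4 * N - N = 3 * N := by omega
    rw [this]
  have h2 : ((Box N).card : ℝ) ≤ ((3 * N) * (3 * N) : ℕ) := by exact_mod_cast h1
  refine h2.trans (le_of_eq ?_)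
  push_cast
  ring

theorem var_le (N : ℕ) (D : Finset ℕ) (hD : ∀ d ∈ D, d % 4 = 3) (w : ℕ → ℝ) (hw : ∀ d, 0 ≤ w d)
    (κ : (d : ℕ) → ZMod d → ZMod d → ℝ) (hκ : ∀ d ∈ D, ∀ A q, |κ d A q| ≤ 1) (f : ℕ → ℝ) (L E : ℝ) (hE0 : 0 ≤ E)
    (hf : ∀ d ∈ D, ∀ n, n ≤ 4 * d * N → |f n| ≤ L)
    (hE : ∀ d ∈ D, ∀ d' ∈ D, d < d' →
      ∑ n ∈ (range (4 * d * N)).filter (fun n => n % 2 = 1), |f n| * |INN κ f N d d' n| ≤ E) :
    ∑ z ∈ Box N, (∑ d ∈ D, w d * (κ d (z.1 : ZMod d) (z.2 : ZMod d) * f (nn d z.1 z.2))) ^ 2 ≤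
      9 * N ^ 2 * L ^ 2 * (∑ d ∈ D, w d ^ 2) + E * (∑ d ∈ D, w d) ^ 2 := by
  obtain ⟨a, ha⟩ : ∃ a : ℕ → ℕ × ℕ → ℝ, a = fun d z => κ d (z.1 : ZMod d) (z.2 : ZMod d) * f (nn d z.1 z.2) := ⟨_, rfl⟩
  have haE : ∀ d z, κ d (z.1 : ZMod d) (z.2 : ZMod d) * f (nn d z.1 z.2) = a d z := fun d z => by rw [ha]
  have hlt : ∀ d ∈ D, ∀ d' ∈ D, d < d' → ∑ z ∈ Box N, a d z * a d' z ≤ E := by
    intro d hd d' hd' h
    have h1 : ∑ z ∈ Box N, a d z * a d' z = ∑ n ∈ (range (4 * d * N)).filter (fun n => n % 2 = 1), f n * INN κ f N d d' n := by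
      rw [ha]
      exact g1_S N d d' (hD d hd) (hD d' hd') h κ f
    rw [h1]
    refine le_trans (Finset.sum_le_sum fun n _ => ?_) (hE d hd d' hd' h)
    rw [← abs_mul]
    exact le_abs_self _
  have hdiag : ∀ d ∈ D, ∑ z ∈ Box N, a d z * a d z ≤ 9 * N ^ 2 * L ^ 2 := by
    intro d hd
    have hb : ∀ z ∈ Box N, a d z * a d z ≤ L ^ 2 := by
      rintro ⟨A, q⟩ hz
      unfold Box at hz
      simp only [Finset.mem_filter, Finset.mem_product, Finset.mem_Ioc] at hz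
      obtain ⟨⟨⟨hA, hA'⟩, hq, hq'⟩, hA2, hq4⟩ := hz
      have h4 := (g1_lt N d A q (hD d hd) hA hA' hq').le
      have h5 := hf d hd _ h4
      have h6 := hκ d hd (A : ZMod d) (q : ZMod d)
      have h7 : |a d (A, q)| ≤ L := by
        rw [ha]
        show |κ d (A : ZMod d) (q : ZMod d) * f (nn d A q)| ≤ L
        rw [abs_mul]
        calc |κ d (A : ZMod d) (q : ZMod d)| * |f (nn d A q)| ≤ 1 * |f (nn d A q)| :=
              mul_le_mul_of_nonneg_right h6 (abs_nonneg _)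
          _ = |f (nn d A q)| := one_mul _
          _ ≤ L := h5
      rw [← pow_two, ← sq_abs]
      exact pow_le_pow_left₀ (abs_nonneg _) h7 2
    calc ∑ z ∈ Box N, a d z * a d z ≤ ∑ z ∈ Box N, L ^ 2 := Finset.sum_le_sum hb
      _ = ((Box N).card : ℝ) * L ^ 2 := by rw [Finset.sum_const, nsmul_eq_mul]
      _ ≤ 9 * N ^ 2 * L ^ 2 := mul_le_mul_of_nonneg_right (g1_card N) (sq_nonneg L)
  have hS : ∀ d ∈ D, ∀ d' ∈ D, ∑ z ∈ Box N, a d z * a d' z ≤ E + (if d = d' then 9 * (N : ℝ) ^ 2 * L ^ 2 else 0) := by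
    intro d hd d' hd'
    rcases lt_trichotomy d d' with h | h | h
    · rw [if_neg h.ne, add_zero]
      exact hlt d hd d' hd' h
    · subst h
      rw [if_pos rfl]
      have := hdiag d hd
      linarith
    · rw [if_neg (ne_of_gt h), add_zero]
      have h1 := hlt d' hd' d hd h
      refine le_trans (le_of_eq (Finset.sum_congr rfl fun z _ => mul_comm _ _)) h1
  have hexp : ∑ z ∈ Box N, (∑ d ∈ D, w d * (κ d (z.1 : ZMod d) (z.2 : ZMod d) * f (nn d z.1 z.2))) ^ 2 =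
      ∑ d ∈ D, ∑ d' ∈ D, w d * w d' * ∑ z ∈ Box N, a d z * a d' z := by
    simp_rw [haE]
    have h1 : ∀ z ∈ Box N, (∑ d ∈ D, w d * a d z) ^ 2 = ∑ d ∈ D, ∑ d' ∈ D, w d * w d' * (a d z * a d' z) := by
      intro z _
      rw [pow_two, Finset.sum_mul_sum]
      refine Finset.sum_congr rfl fun d _ => Finset.sum_congr rfl fun d' _ => ?_
      ring
    rw [Finset.sum_congr rfl h1, Finset.sum_comm]
    refine Finset.sum_congr rfl fun d _ => ?_
    rw [Finset.sum_comm]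
    refine Finset.sum_congr rfl fun d' _ => ?_
    rw [Finset.mul_sum]
  rw [hexp]
  calc ∑ d ∈ D, ∑ d' ∈ D, w d * w d' * ∑ z ∈ Box N, a d z * a d' z
      ≤ ∑ d ∈ D, ∑ d' ∈ D, w d * w d' * (E + (if d = d' then 9 * (N : ℝ) ^ 2 * L ^ 2 else 0)) :=
        Finset.sum_le_sum fun d hd => Finset.sum_le_sum fun d' hd' =>
          mul_le_mul_of_nonneg_left (hS d hd d' hd') (mul_nonneg (hw d) (hw d'))
    _ = ∑ d ∈ D, (w d * (∑ d' ∈ D, w d') * E + 9 * (N : ℝ) ^ 2 * L ^ 2 * w d ^ 2) := by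
        refine Finset.sum_congr rfl fun d hd => ?_
        have h1 : ∀ d' ∈ D, w d * w d' * (E + (if d = d' then 9 * (N : ℝ) ^ 2 * L ^ 2 else 0)) =
            w d * w d' * E + (if d = d' then w d * w d' * (9 * (N : ℝ) ^ 2 * L ^ 2) else 0) := by
          intro d' _
          split_ifs <;> ring
        rw [Finset.sum_congr rfl h1, Finset.sum_add_distrib, Finset.sum_ite_eq, if_pos hd, Finset.mul_sum, Finset.sum_mul]
        ring
    _ = 9 * N ^ 2 * L ^ 2 * (∑ d ∈ D, w d ^ 2) + E * (∑ d ∈ D, w d) ^ 2 := by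
        rw [Finset.sum_add_distrib, ← Finset.sum_mul, ← Finset.sum_mul, ← Finset.mul_sum]
        ring

end Pool.Agent.LibKC40
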