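import Pool.Agent.LibKC40.GDefs

/-!
Row G2a (MEDIUM). Primes `n + g A`, `A` odd in a residue class modulo the odd number `m`.

PLAN. `A` odd and `A ≡ r mod m`, `r` odd, is `A ≡ r mod 2m`; `p = n + g A`, `A ∈ (u,v]`, runs over the `p ∈ (n+gu, n+gv]`, `p ≡ n + g r mod 2gm`.
Coprime case: `SWb` with `Q = 2gm` (`(n+gv) - (n+gu) = g (v-u)`). Otherwise a prime `p ≡ n + gr` divides.. `gcd(n+gr, 2gm) ∣ p`, so
`p ∣ 2gm`, impossible since `p ≥ n > 2gm`: the sum is `0`.
-/

set_option autoImplicit false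

namespace Pool.Agent.LibKC40

open Finset Pool.Agent.LibSW40

theorem class_sum {Q0 X : ℕ} {η : ℝ} (hSW : SWb Q0 X η) (g m n r u v : ℕ) (hg : 0 < g) (hm : m % 2 = 1)
    (hr : r % 2 = 1) (hQ : 2 * g * m ≤ Q0) (hn : 2 * g * m < n) (huv : u ≤ v) (hX : n + g * v ≤ X) :
    |(∑ A ∈ (Ioc u v).filter (fun A => A % 2 = 1 ∧ A ≡ r [MOD m]), th (n + g * A)) -
      (if (n + g * r).Coprime (2 * g * m) then (g : ℝ) * ((v : ℝ) - u) / ((2 * g * m).totient : ℝ) else 0)| ≤ η := by
  classical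
  have hm0 : 0 < m := by omega
  have hcop : Nat.Coprime 2 m := by
    rw [Nat.coprime_comm]
    exact (Nat.odd_iff.2 hm).coprime_two_right
  have hQe : 2 * g * m = g * (2 * m) := by ring
  have hQ1 : 1 ≤ 2 * g * m := Nat.one_le_iff_ne_zero.2 (by positivity)
  have hiff : ∀ A : ℕ, (A % 2 = 1 ∧ A ≡ r [MOD m]) ↔ A ≡ r [MOD 2 * m] := by
    intro A
    rw [← Nat.modEq_and_modEq_iff_modEq_mul hcop]
    constructor
    · rintro ⟨h1, h2⟩
      exact ⟨by unfold Nat.ModEq; omega, h2⟩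
    · rintro ⟨h1, h2⟩
      refine ⟨?_, h2⟩
      unfold Nat.ModEq at h1
      omega
  have hsum : ∑ A ∈ (Ioc u v).filter (fun A => A % 2 = 1 ∧ A ≡ r [MOD m]), th (n + g * A) =
      ∑ p ∈ (Ioc (n + g * u) (n + g * v)).filter
        (fun p => p.Prime ∧ p ≡ n + g * r [MOD 2 * g * m]), Real.log p := by
    unfold th
    rw [← Finset.sum_filter]
    refine Finset.sum_bij (fun A _ => n + g * A) ?_ ?_ ?_ ?_
    · intro A hA
      rw [Finset.mem_filter, Finset.mem_filter, Finset.mem_Ioc, hiff] at hA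
      obtain ⟨⟨⟨h1, h2⟩, h3⟩, h4⟩ := hA
      rw [Finset.mem_filter, Finset.mem_Ioc]
      refine ⟨⟨?_, ?_⟩, h4, ?_⟩
      · have := Nat.mul_lt_mul_of_pos_left h1 hg
        omega
      · have := Nat.mul_le_mul_left g h2
        omega
      · rw [hQe]
        exact (Nat.ModEq.mul_left' g h3).add_left n
    · intro A _ B _ hAB
      have h1 : n + g * A = n + g * B := hAB
      have h2 : g * A = g * B := by omega
      exact Nat.eq_of_mul_eq_mul_left hg h2
    · intro p hp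
      rw [Finset.mem_filter, Finset.mem_Ioc] at hp
      obtain ⟨⟨h1, h2⟩, h3, h4⟩ := hp
      obtain ⟨t, rfl⟩ : ∃ t, p = n + t := ⟨p - n, by omega⟩
      have h5 : t ≡ g * r [MOD 2 * g * m] := Nat.ModEq.add_left_cancel' n h4
      have h6 : g ∣ t := (Nat.ModEq.dvd_iff h5 (by rw [hQe]; exact dvd_mul_right _ _)).2 (dvd_mul_right _ _)
      obtain ⟨A, rfl⟩ := h6
      rw [hQe] at h5
      have h7 : A ≡ r [MOD 2 * m] := Nat.ModEq.mul_left_cancel' hg.ne' h5
      refine ⟨A, ?_, rfl⟩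
      rw [Finset.mem_filter, Finset.mem_filter, Finset.mem_Ioc, hiff]
      refine ⟨⟨⟨?_, ?_⟩, h7⟩, h3⟩
      · have h8 : g * u < g * A := by omega
        exact Nat.lt_of_mul_lt_mul_left h8
      · have h8 : g * A ≤ g * v := by omega
        exact Nat.le_of_mul_le_mul_left h8 hg
    · intro A _
      rfl
  rw [hsum]
  by_cases hc : (n + g * r).Coprime (2 * g * m)
  · rw [if_pos hc]
    have h1 := hSW (2 * g * m) (n + g * r) (n + g * u) (n + g * v) hQ1 hQ hc
      (by have := Nat.mul_le_mul_left g huv; omega) hX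
    have h2 : (((n + g * v : ℕ) : ℝ) - ((n + g * u : ℕ) : ℝ)) = (g : ℝ) * ((v : ℝ) - u) := by
      push_cast
      ring
    rwa [h2] at h1
  · rw [if_neg hc]
    have h0 : 0 ≤ η := by
      have := hSW 1 0 0 0 le_rfl (hQ1.trans hQ) (Nat.coprime_one_right 0) le_rfl (Nat.zero_le _)
      exact (abs_nonneg _).trans this
    have hz : (Ioc (n + g * u) (n + g * v)).filter
        (fun p => p.Prime ∧ p ≡ n + g * r [MOD 2 * g * m]) = ∅ := by
      rw [Finset.filter_eq_empty_iff]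
      rintro p hp ⟨h3, h4⟩
      rw [Finset.mem_Ioc] at hp
      apply hc
      have h5 : Nat.gcd p (2 * g * m) = Nat.gcd (n + g * r) (2 * g * m) := h4.gcd_eq
      unfold Nat.Coprime
      rw [← h5]
      have h6 : ¬ p ∣ 2 * g * m := by
        intro h7
        have := Nat.le_of_dvd hQ1 h7
        omega
      exact (Nat.Prime.coprime_iff_not_dvd h3).2 h6
    rw [hz, Finset.sum_empty, sub_zero, abs_zero]
    exact h0

end Pool.Agent.LibKC40
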