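import Pool.Agent.LibKC40.G2a

/-!
Row G2b (MEDIUM). The inner sum over the classes modulo `d d'`.

PLAN. `g = (d'-d)/2 > 0` is even and prime to `d d'` (`d, d'` different odd primes `≡ 3 mod 4`). `JJ N d n` is the set of the odd `A` of an interval
`(u, v]` (`A ≤ (2n-N-1)/d`, `A ≥ (2n-4N)/d`; empty allowed), `(v-u) ≤ 3N/d + 1`. Split by the class `r` of `A` modulo `m = d d'`
(take odd representatives `r < 2m`): `κ` is constant on a class, `class_sum`. `gcd(n + g r, 2 g m) = 1` iff `d ∤ n + g r` and `d' ∤ n + g r`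
(`n` prime `> 2gm`, `n + gr` odd). `φ(2gm) = φ(2g)(d-1)(d'-1)`. The sum over the classes of
`κ_d(r, 2n) [d ∤ n+gr] κ_{d'}(r, 2n-dr) [d' ∤ n+gr]` is the product `F₁ F₂` (Chinese remainder).
-/

set_option autoImplicit false

namespace Pool.Agent.LibKC40

open Finset Pool.Agent.LibSW40

open scoped Classical in
/-- the sum over the classes modulo `d` -/
noncomputable def F1 (κ : (d : ℕ) → ZMod d → ZMod d → ℝ) (d d' n : ℕ) [NeZero d] : ℝ :=
  ∑ t : ZMod d, if (n : ZMod d) + (((d' - d) / 2 : ℕ) : ZMod d) * t = 0 then 0 else κ d t (2 * (n : ZMod d))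

open scoped Classical in
/-- the sum over the classes modulo `d'` -/
noncomputable def F2 (κ : (d : ℕ) → ZMod d → ZMod d → ℝ) (d d' n : ℕ) [NeZero d'] : ℝ :=
  ∑ t : ZMod d', if (n : ZMod d') + (((d' - d) / 2 : ℕ) : ZMod d') * t = 0 then 0 else
    κ d' t (2 * (n : ZMod d') - (d : ZMod d') * t)

private theorem g2b_JJ (N d n : ℕ) (hd : 0 < d) : ∃ u v : ℕ, u ≤ v ∧ v ≤ 4 * N ∧
    (v : ℝ) - u ≤ 3 * N / d + 1 ∧ JJ N d n = (Ioc u v).filter (fun A => A % 2 = 1) := by
  have hdR : (0 : ℝ) < d := by exact_mod_cast hd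
  have hmem : ∀ A : ℕ, A ∈ JJ N d n ↔ (max N ((2 * n - 4 * N - 1) / d) < A ∧
      A ≤ min (4 * N) ((2 * n - N - 1) / d)) ∧ A % 2 = 1 := by
    intro A
    unfold JJ
    rw [Finset.mem_filter, Finset.mem_Ioc, max_lt_iff, le_min_iff, Nat.div_lt_iff_lt_mul hd,
      Nat.le_div_iff_mul_le hd, mul_comm A d]
    constructor
    · rintro ⟨⟨h1, h2⟩, h3, h4, h5⟩
      have hA : 0 < d * A := Nat.mul_pos hd (by omega)
      exact ⟨⟨⟨h1, by omega⟩, h2, by omega⟩, h3⟩
    · rintro ⟨⟨⟨h1, h2⟩, h3, h4⟩, h5⟩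
      have hA : 0 < d * A := Nat.mul_pos hd (by omega)
      exact ⟨⟨h1, h3⟩, h5, by omega, by omega⟩
  by_cases hc : min (4 * N) ((2 * n - N - 1) / d) ≤ max N ((2 * n - 4 * N - 1) / d)
  · refine ⟨0, 0, le_rfl, Nat.zero_le _, ?_, ?_⟩
    · rw [sub_self]
      positivity
    · ext A
      rw [hmem]
      simp only [Finset.mem_filter, Finset.mem_Ioc]
      constructor
      · rintro ⟨⟨h1, h2⟩, _⟩
        omega
      · rintro ⟨⟨h1, h2⟩, _⟩
        omega
  · push Not at hc
    refine ⟨max N ((2 * n - 4 * N - 1) / d), min (4 * N) ((2 * n - N - 1) / d), hc.le, min_le_left _ _, ?_, ?_⟩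
    · have h1 : ((min (4 * N) ((2 * n - N - 1) / d) : ℕ) : ℝ) ≤ ((2 * n - N - 1 : ℕ) : ℝ) / d := by
        refine le_trans (Nat.cast_le.2 (min_le_right _ _)) Nat.cast_div_le
      have h2 : ((2 * n - 4 * N - 1 : ℕ) : ℝ) / d - 1 ≤ ((max N ((2 * n - 4 * N - 1) / d) : ℕ) : ℝ) := by
        refine le_trans ?_ (Nat.cast_le.2 (le_max_right _ _))
        rw [sub_le_iff_le_add, div_le_iff₀ hdR]
        have h3 := Nat.lt_div_mul_add (a := 2 * n - 4 * N - 1) hd
        have h4 : (2 * n - 4 * N - 1 : ℕ) ≤ ((2 * n - 4 * N - 1) / d + 1) * d := by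
          rw [add_mul, one_mul]
          exact h3.le
        exact_mod_cast h4
      have h5 : ((2 * n - N - 1 : ℕ) : ℝ) ≤ ((2 * n - 4 * N - 1 : ℕ) : ℝ) + 3 * N := by
        have h6 : 2 * n - N - 1 ≤ (2 * n - 4 * N - 1) + 3 * N := by omega
        exact_mod_cast h6
      have h7 : ((2 * n - N - 1 : ℕ) : ℝ) / d ≤ ((2 * n - 4 * N - 1 : ℕ) : ℝ) / d + 3 * N / d := by
        rw [← add_div]
        exact div_le_div_of_nonneg_right h5 hdR.le
      linarith
    · ext A
      rw [hmem]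
      simp only [Finset.mem_filter, Finset.mem_Ioc]

/-- the odd representative -/
private def g2b_r (m : ℕ) (s : ZMod m) : ℕ := if s.val % 2 = 1 then s.val else s.val + m

private theorem g2b_r_odd (m : ℕ) (hm : m % 2 = 1) (s : ZMod m) : g2b_r m s % 2 = 1 := by
  unfold g2b_r
  split_ifs with h
  · exact h
  · omega

private theorem g2b_r_cast (m : ℕ) [NeZero m] (s : ZMod m) : ((g2b_r m s : ℕ) : ZMod m) = s := by
  unfold g2b_r
  split_ifs with h
  · exact ZMod.natCast_zmod_val s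
  · rw [Nat.cast_add, ZMod.natCast_self, add_zero]
    exact ZMod.natCast_zmod_val s

private theorem g2b_cop (g d d' n r : ℕ) (hg : 0 < g) (hg2 : g % 2 = 0) (hd : d.Prime) (hd' : d'.Prime)
    (hn : n.Prime) (hQn : 2 * g * (d * d') < n) :
    (n + g * r).Coprime (2 * g * (d * d')) ↔ ¬ d ∣ n + g * r ∧ ¬ d' ∣ n + g * r := by
  have hgn : g < n := by
    have h1 : 0 < d * d' := Nat.mul_pos hd.pos hd'.pos
    have h2 : 2 * g ≤ 2 * g * (d * d') := Nat.le_mul_of_pos_right _ h1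
    omega
  have h1 : (n + g * r).Coprime g := by
    have h2 : n.Coprime g := by
      rw [Nat.Prime.coprime_iff_not_dvd hn]
      intro h
      exact absurd (Nat.le_of_dvd hg h) (by omega)
    have h3 : (n + g * r).Coprime g ↔ n.Coprime g := by
      rw [Nat.coprime_add_mul_left_left]
    exact h3.2 h2
  have h2 : (n + g * r).Coprime 2 := by
    have h3 : 2 ∣ g := Nat.dvd_of_mod_eq_zero hg2
    exact Nat.Coprime.coprime_dvd_right h3 h1
  constructor
  · intro h
    have h3 : (n + g * r).Coprime (d * d') := Nat.Coprime.coprime_dvd_right (Dvd.intro_left _ rfl) h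
    have h4 : (n + g * r).Coprime d := Nat.Coprime.coprime_dvd_right (Dvd.intro _ rfl) h3
    have h5 : (n + g * r).Coprime d' := Nat.Coprime.coprime_dvd_right (Dvd.intro_left _ rfl) h3
    exact ⟨(Nat.Prime.coprime_iff_not_dvd hd).1 h4.symm, (Nat.Prime.coprime_iff_not_dvd hd').1 h5.symm⟩
  · rintro ⟨h3, h4⟩
    have h5 := ((Nat.Prime.coprime_iff_not_dvd hd).2 h3).symm
    have h6 := ((Nat.Prime.coprime_iff_not_dvd hd').2 h4).symm
    exact (h2.mul_right h1).mul_right (h5.mul_right h6)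

theorem inn_main {Q0 X : ℕ} {η : ℝ} (hSW : SWb Q0 X η) (hη : 0 ≤ η) (κ : (d : ℕ) → ZMod d → ZMod d → ℝ)
    (N d d' n : ℕ) [NeZero d] [NeZero d'] (hκ : (∀ A q, |κ d A q| ≤ 1) ∧ ∀ A q, |κ d' A q| ≤ 1)
    (hd : d.Prime) (hd' : d'.Prime) (hd4 : d % 4 = 3) (hd4' : d' % 4 = 3) (hdd : d < d')
    (hn : n.Prime) (hQ : 2 * ((d' - d) / 2) * (d * d') ≤ Q0) (hQn : 2 * ((d' - d) / 2) * (d * d') < n)
    (hX : n + (d' - d) / 2 * (4 * N) ≤ X) :
    |INN κ th N d d' n| ≤ (((d' - d) / 2 : ℕ) : ℝ) * (3 * N / d + 1) / ((2 * ((d' - d) / 2)).totient : ℝ) /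
      (((d : ℝ) - 1) * ((d' : ℝ) - 1)) * |F1 κ d d' n * F2 κ d d' n| + d * d' * η := by
  classical
  set g : ℕ := (d' - d) / 2 with hg
  have hg0 : 0 < g := by rw [hg]; omega
  have hg2 : g % 2 = 0 := by rw [hg]; omega
  have h2g : 2 * g = d' - d := by rw [hg]; omega
  have hdpos : 0 < d := hd.pos
  have hdpos' : 0 < d' := hd'.pos
  have hm0 : d * d' ≠ 0 := Nat.mul_ne_zero hdpos.ne' hdpos'.ne'
  have hNZ : NeZero (d * d') := ⟨hm0⟩
  have hmodd : (d * d') % 2 = 1 := by
    rw [Nat.mul_mod, show d % 2 = 1 by omega, show d' % 2 = 1 by omega]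
  have hcop : d.Coprime d' := (Nat.coprime_primes hd hd').2 hdd.ne
  obtain ⟨u, v, huv, hv, hlen, hJJ⟩ := g2b_JJ N d n hdpos
  -- the classes
  set c1 : ZMod (d * d') →+* ZMod d := ZMod.castHom (Dvd.intro _ rfl) (ZMod d) with hc1
  set c2 : ZMod (d * d') →+* ZMod d' := ZMod.castHom (Dvd.intro_left _ rfl) (ZMod d') with hc2
  set Φ : ZMod (d * d') → ℝ := fun s => κ d (c1 s) (2 * (n : ZMod d)) *
    κ d' (c2 s) (2 * (n : ZMod d') - (d : ZMod d') * c2 s) with hΦ
  have hΦ1 : ∀ s, |Φ s| ≤ 1 := by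
    intro s
    rw [hΦ]
    simp only
    rw [abs_mul]
    exact mul_le_one₀ (hκ.1 _ _) (abs_nonneg _) (hκ.2 _ _)
  set I : ZMod (d * d') → ℝ := fun s => ∑ A ∈ (Ioc u v).filter (fun A => A % 2 = 1 ∧ A ≡ g2b_r (d * d') s [MOD (d * d')]),
    th (n + g * A) with hI
  set Mn : ZMod (d * d') → ℝ := fun s => if (n + g * g2b_r (d * d') s).Coprime (2 * g * (d * d')) then
    (g : ℝ) * ((v : ℝ) - u) / ((2 * g * (d * d')).totient : ℝ) else 0 with hMn
  have hX' : n + g * v ≤ X := by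
    have h1 : g * v ≤ g * (4 * N) := Nat.mul_le_mul_left _ hv
    omega
  have hcl : ∀ s, |I s - Mn s| ≤ η := by
    intro s
    exact class_sum hSW g (d * d') n (g2b_r (d * d') s) u v hg0 hmodd (g2b_r_odd _ hmodd s) hQ hQn huv hX'
  have hsplit : INN κ th N d d' n = ∑ s : ZMod (d * d'), Φ s * I s := by
    unfold INN
    rw [hJJ, ← Finset.sum_fiberwise ((Ioc u v).filter (fun A => A % 2 = 1)) (fun A : ℕ => (A : ZMod (d * d')))]
    refine Finset.sum_congr rfl fun s _ => ?_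
    rw [hI]
    simp only
    rw [Finset.filter_filter, Finset.mul_sum]
    refine Finset.sum_congr ?_ ?_
    · refine Finset.filter_congr fun A _ => ?_
      rw [← ZMod.natCast_eq_natCast_iff, g2b_r_cast]
    · intro A hA
      rw [Finset.mem_filter] at hA
      have h1 : (A : ZMod (d * d')) = s := by
        have h2 := hA.2.2
        rw [← ZMod.natCast_eq_natCast_iff, g2b_r_cast] at h2
        exact h2
      rw [hΦ]
      simp only
      rw [← h1, map_natCast, map_natCast]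
  -- the error
  have hmain : |INN κ th N d d' n - ∑ s : ZMod (d * d'), Φ s * Mn s| ≤ d * d' * η := by
    rw [hsplit, ← Finset.sum_sub_distrib]
    refine (Finset.abs_sum_le_sum_abs _ _).trans ?_
    have h1 : ∀ s ∈ (Finset.univ : Finset (ZMod (d * d'))), |Φ s * I s - Φ s * Mn s| ≤ η := by
      intro s _
      rw [← mul_sub, abs_mul]
      calc |Φ s| * |I s - Mn s| ≤ 1 * η := mul_le_mul (hΦ1 s) (hcl s) (abs_nonneg _) zero_le_one
        _ = η := one_mul η
    refine (Finset.sum_le_card_nsmul _ _ _ h1).trans (le_of_eq ?_)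
    rw [Finset.card_univ, ZMod.card, nsmul_eq_mul]
    push_cast
    ring
  -- the main term
  set W : ℝ := (g : ℝ) * ((v : ℝ) - u) / ((2 * g * (d * d')).totient : ℝ) with hW
  have hMn2 : ∀ s, Mn s = if (n : ZMod d) + ((g : ℕ) : ZMod d) * c1 s = 0 then 0 else
      if (n : ZMod d') + ((g : ℕ) : ZMod d') * c2 s = 0 then 0 else W := by
    intro s
    have e1 : (n : ZMod d) + ((g : ℕ) : ZMod d) * c1 s = 0 ↔ d ∣ n + g * g2b_r (d * d') s := by
      rw [← ZMod.natCast_eq_zero_iff]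
      push_cast
      have h1 : ((g2b_r (d * d') s : ℕ) : ZMod d) = c1 s := by
        conv_rhs => rw [← g2b_r_cast (d * d') s, map_natCast]
      rw [h1]
    have e2 : (n : ZMod d') + ((g : ℕ) : ZMod d') * c2 s = 0 ↔ d' ∣ n + g * g2b_r (d * d') s := by
      rw [← ZMod.natCast_eq_zero_iff]
      push_cast
      have h1 : ((g2b_r (d * d') s : ℕ) : ZMod d') = c2 s := by
        conv_rhs => rw [← g2b_r_cast (d * d') s, map_natCast]
      rw [h1]
    have e3 := g2b_cop g d d' n (g2b_r (d * d') s) hg0 hg2 hd hd' hn hQn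
    rw [hMn]
    simp only
    by_cases h1 : d ∣ n + g * g2b_r (d * d') s
    · rw [if_neg (fun h => (e3.1 h).1 h1), if_pos (e1.2 h1)]
    · by_cases h2 : d' ∣ n + g * g2b_r (d * d') s
      · rw [if_neg (fun h => (e3.1 h).2 h2), if_neg (fun h => h1 (e1.1 h)), if_pos (e2.2 h2)]
      · rw [if_pos (e3.2 ⟨h1, h2⟩), if_neg (fun h => h1 (e1.1 h)), if_neg (fun h => h2 (e2.1 h))]
  have hprod : ∑ s : ZMod (d * d'), Φ s * Mn s = W * (F1 κ d d' n * F2 κ d d' n) := by
    have h1 : ∀ s : ZMod (d * d'), Φ s * Mn s = W *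
        ((if (n : ZMod d) + ((g : ℕ) : ZMod d) * c1 s = 0 then 0 else κ d (c1 s) (2 * (n : ZMod d))) *
        (if (n : ZMod d') + ((g : ℕ) : ZMod d') * c2 s = 0 then 0 else
          κ d' (c2 s) (2 * (n : ZMod d') - (d : ZMod d') * c2 s))) := by
      intro s
      rw [hMn2, hΦ]
      simp only
      split_ifs <;> ring
    rw [Finset.sum_congr rfl fun s _ => h1 s, ← Finset.mul_sum]
    congr 1
    unfold F1 F2
    rw [Finset.sum_mul_sum, ← Finset.sum_product']
    refine Fintype.sum_equiv (ZMod.chineseRemainder hcop).toEquiv _ _ fun s => ?_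
    have e1 : ((ZMod.chineseRemainder hcop).toEquiv s).1 = c1 s := by
      have h : ((RingHom.fst (ZMod d) (ZMod d')).comp (ZMod.chineseRemainder hcop).toRingHom) = c1 :=
        RingHom.ext_zmod _ _
      exact DFunLike.congr_fun h s
    have e2 : ((ZMod.chineseRemainder hcop).toEquiv s).2 = c2 s := by
      have h : ((RingHom.snd (ZMod d) (ZMod d')).comp (ZMod.chineseRemainder hcop).toRingHom) = c2 :=
        RingHom.ext_zmod _ _
      exact DFunLike.congr_fun h s
    rw [e1, e2]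
  have htot : ((2 * g * (d * d')).totient : ℝ) = ((2 * g).totient : ℝ) * (((d : ℝ) - 1) * ((d' : ℝ) - 1)) := by
    have h1 : (2 * g).Coprime d := by
      rw [h2g]
      exact (Nat.coprime_sub_self_left hdd.le).2 hcop.symm
    have h2 : (2 * g).Coprime d' := by
      rw [h2g]
      have h3 : (d' - d).Coprime d' ↔ d.Coprime d' := by
        have h4 : d' - (d' - d) = d := by omega
        rw [Nat.coprime_comm]
        rw [← Nat.coprime_self_sub_right (Nat.sub_le d' d), h4, Nat.coprime_comm]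
      exact h3.2 hcop
    rw [Nat.totient_mul (h1.mul_right h2), Nat.totient_mul hcop, Nat.totient_prime hd, Nat.totient_prime hd']
    push_cast [Nat.cast_sub hd.one_le, Nat.cast_sub hd'.one_le]
    ring
  have hd1 : (0 : ℝ) < (d : ℝ) - 1 := by
    have : (1 : ℝ) < d := by exact_mod_cast hd.one_lt
    linarith
  have hd1' : (0 : ℝ) < (d' : ℝ) - 1 := by
    have : (1 : ℝ) < d' := by exact_mod_cast hd'.one_lt
    linarith
  have htg : (0 : ℝ) < ((2 * g).totient : ℝ) := by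
    exact_mod_cast Nat.totient_pos.2 (by omega)
  have huvR : (0 : ℝ) ≤ (v : ℝ) - u := by
    have : (u : ℝ) ≤ v := by exact_mod_cast huv
    linarith
  have hW0 : 0 ≤ W := by
    rw [hW]
    positivity
  have hW1 : W ≤ (g : ℝ) * (3 * N / d + 1) / ((2 * g).totient : ℝ) / (((d : ℝ) - 1) * ((d' : ℝ) - 1)) := by
    rw [hW, htot, div_div]
    refine div_le_div_of_nonneg_right ?_ (by positivity)
    exact mul_le_mul_of_nonneg_left hlen (by positivity)
  have hfin : |INN κ th N d d' n| ≤ |∑ s : ZMod (d * d'), Φ s * Mn s| + d * d' * η := by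
    have h1 := abs_add_le (∑ s : ZMod (d * d'), Φ s * Mn s) (INN κ th N d d' n - ∑ s : ZMod (d * d'), Φ s * Mn s)
    rw [add_sub_cancel] at h1
    linarith
  refine hfin.trans ?_
  rw [hprod, abs_mul, abs_of_nonneg hW0]
  have h5 := mul_le_mul_of_nonneg_right hW1 (abs_nonneg (F1 κ d d' n * F2 κ d d' n))
  linarith

end Pool.Agent.LibKC40
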