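import Pool.Agent.LibKC40.G2b

/-!
Row G3 (MEDIUM). The two cases in which the classes cancel.

PLAN. (1) `∑_t κ d t y = 0` for all `y`: exactly one `t` has `n + g t = 0` (`g = (d'-d)/2` is a unit modulo `d`, since `d ∤ d'`), so `|F1| ≤ 1`;
`|F2| ≤ d'`. (2) `κ d A q = k d q` with `k d' 0 = 0`, `∑_y k d' y = 0`: `2 (n + g t) = 2n - d t` in `ZMod d'`, so the `if` may be dropped (`k d' 0 = 0`) and
`F2 = ∑_t k d' (2n - d t) = ∑_y k d' y = 0` (`d` is a unit modulo `d'`). (3) `g ≤ φ(2g) (1 + log₂ g)`: `m/φ(m) = ∏_{p ∣ m} p/(p-1) ≤ ω(m) + 1`.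
-/

set_option autoImplicit false

namespace Pool.Agent.LibKC40

open Finset

private theorem g3_two_g (d d' : ℕ) (hd4 : d % 4 = 3) (hd4' : d' % 4 = 3) (hdd : d < d') :
    2 * ((d' - d) / 2) = d' - d := by
  omega

private theorem g3_unit (d d' : ℕ) (hd : d.Prime) (hd' : d'.Prime)
    (hd4 : d % 4 = 3) (hd4' : d' % 4 = 3) (hdd : d < d') :
    (((d' - d) / 2 : ℕ) : ZMod d) ≠ 0 := by
  intro h
  rw [ZMod.natCast_eq_zero_iff] at h
  have h1 : d ∣ d' - d := by
    rw [← g3_two_g d d' hd4 hd4' hdd]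
    exact Dvd.dvd.mul_left h 2
  have h2 : d ∣ d' := by
    have := (Nat.dvd_sub_iff_left hdd.le (dvd_refl d)).mp h1
    exact this
  have h3 := (Nat.prime_dvd_prime_iff_eq hd hd').mp h2
  omega

theorem F1_le (κ : (d : ℕ) → ZMod d → ZMod d → ℝ) (d d' n : ℕ) [NeZero d] (hd : d.Prime) (hd' : d'.Prime)
    (hd4 : d % 4 = 3) (hd4' : d' % 4 = 3) (hdd : d < d') (hκ : ∀ A q, |κ d A q| ≤ 1) (h0 : ∀ q, ∑ A : ZMod d, κ d A q = 0) :
    |F1 κ d d' n| ≤ 1 := by
  classical
  have : Fact d.Prime := ⟨hd⟩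
  have hg := g3_unit d d' hd hd' hd4 hd4' hdd
  set g : ZMod d := (((d' - d) / 2 : ℕ) : ZMod d) with hgdef
  set t0 : ZMod d := -(n : ZMod d) / g with ht0
  have hiff : ∀ t : ZMod d, ((n : ZMod d) + g * t = 0 ↔ t = t0) := by
    intro t
    rw [ht0, eq_div_iff hg]
    constructor
    · intro h
      linear_combination h
    · intro h
      linear_combination h
  have h1 : F1 κ d d' n = ∑ t : ZMod d, κ d t (2 * (n : ZMod d)) -
      ∑ t : ZMod d, (if t = t0 then κ d t (2 * (n : ZMod d)) else 0) := by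
    unfold F1
    rw [← Finset.sum_sub_distrib]
    refine Finset.sum_congr rfl fun t _ => ?_
    by_cases ht : t = t0
    · rw [if_pos ((hiff t).mpr ht), if_pos ht]; ring
    · rw [if_neg (fun h => ht ((hiff t).mp h)), if_neg ht]; ring
  rw [h1, h0, Finset.sum_ite_eq' Finset.univ t0, if_pos (Finset.mem_univ _), zero_sub, abs_neg]
  exact hκ _ _

theorem F2_le (κ : (d : ℕ) → ZMod d → ZMod d → ℝ) (d d' n : ℕ) [NeZero d'] (hκ : ∀ A q, |κ d' A q| ≤ 1) :
    |F2 κ d d' n| ≤ d' := by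
  classical
  unfold F2
  refine (Finset.abs_sum_le_sum_abs _ _).trans ?_
  calc ∑ t : ZMod d', |if (n : ZMod d') + (((d' - d) / 2 : ℕ) : ZMod d') * t = 0 then (0 : ℝ) else
        κ d' t (2 * (n : ZMod d') - (d : ZMod d') * t)| ≤ ∑ _t : ZMod d', (1 : ℝ) := by
        refine Finset.sum_le_sum fun t _ => ?_
        split_ifs
        · simp
        · exact hκ _ _
    _ = d' := by
        simp [ZMod.card]

theorem F2_zero (k : (d : ℕ) → ZMod d → ℝ) (d d' n : ℕ) [NeZero d'] (hd : d.Prime) (hd' : d'.Prime)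
    (hd4 : d % 4 = 3) (hd4' : d' % 4 = 3) (hdd : d < d') (h0 : k d' 0 = 0) (hs : ∑ q : ZMod d', k d' q = 0) :
    F2 (fun d _ q => k d q) d d' n = 0 := by
  classical
  have : Fact d'.Prime := ⟨hd'⟩
  have hdu : (d : ZMod d') ≠ 0 := by
    intro h
    rw [ZMod.natCast_eq_zero_iff] at h
    have := Nat.le_of_dvd hd.pos h
    omega
  have h2g : (2 : ZMod d') * (((d' - d) / 2 : ℕ) : ZMod d') = -(d : ZMod d') := by
    have h1 : (2 : ZMod d') * (((d' - d) / 2 : ℕ) : ZMod d') = ((2 * ((d' - d) / 2) : ℕ) : ZMod d') := by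
      push_cast; ring
    rw [h1, g3_two_g d d' hd4 hd4' hdd, Nat.cast_sub hdd.le, ZMod.natCast_self, zero_sub]
  have h1 : F2 (fun d _ q => k d q) d d' n = ∑ t : ZMod d', k d' (2 * (n : ZMod d') - (d : ZMod d') * t) := by
    unfold F2
    refine Finset.sum_congr rfl fun t _ => ?_
    by_cases ht : (n : ZMod d') + (((d' - d) / 2 : ℕ) : ZMod d') * t = 0
    · rw [if_pos ht]
      have h2 : 2 * (n : ZMod d') - (d : ZMod d') * t = 0 := by
        linear_combination 2 * ht - t * h2g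
      rw [h2, h0]
    · rw [if_neg ht]
  rw [h1, ← hs]
  refine Fintype.sum_bijective (fun t : ZMod d' => 2 * (n : ZMod d') - (d : ZMod d') * t) ?_ _ _ (fun _ => rfl)
  constructor
  · intro a b hab
    have h2 : (d : ZMod d') * a = (d : ZMod d') * b := by
      have : 2 * (n : ZMod d') - (d : ZMod d') * a = 2 * (n : ZMod d') - (d : ZMod d') * b := hab
      linear_combination -this
    exact mul_left_cancel₀ hdu h2
  · intro y
    refine ⟨(2 * (n : ZMod d') - y) / d, ?_⟩
    show 2 * (n : ZMod d') - (d : ZMod d') * ((2 * (n : ZMod d') - y) / d) = y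
    rw [mul_div_cancel₀ _ hdu]
    ring

private theorem g3_prod (s : Finset ℕ) (hs : ∀ p ∈ s, 2 ≤ p) :
    ∏ p ∈ s, p ≤ (s.card + 1) * ∏ p ∈ s, (p - 1) := by
  induction s using Finset.induction_on_max with
  | empty => simp
  | insert a t hat ih =>
    have hnot : a ∉ t := fun h => lt_irrefl _ (hat a h)
    have iht := ih (fun p hp => hs p (Finset.mem_insert_of_mem hp))
    have ha2 : 2 ≤ a := hs a (Finset.mem_insert_self _ _)
    have hcard : t.card + 2 ≤ a := by
      have h1 : t ⊆ Finset.Ico 2 a := by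
        intro p hp
        rw [Finset.mem_Ico]
        exact ⟨hs p (Finset.mem_insert_of_mem hp), hat p hp⟩
      have h2 := Finset.card_le_card h1
      rw [Nat.card_Ico] at h2
      omega
    rw [Finset.prod_insert hnot, Finset.prod_insert hnot, Finset.card_insert_of_notMem hnot]
    obtain ⟨b, rfl⟩ : ∃ b, a = b + 1 := ⟨a - 1, by omega⟩
    have h3 : (b + 1) * (t.card + 1) ≤ (t.card + 1 + 1) * b := by nlinarith
    calc (b + 1) * ∏ p ∈ t, p ≤ (b + 1) * ((t.card + 1) * ∏ p ∈ t, (p - 1)) := Nat.mul_le_mul_left _ iht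
      _ = ((b + 1) * (t.card + 1)) * ∏ p ∈ t, (p - 1) := by ring
      _ ≤ ((t.card + 1 + 1) * b) * ∏ p ∈ t, (p - 1) := Nat.mul_le_mul_right _ h3
      _ = (t.card + 1 + 1) * ((b + 1 - 1) * ∏ p ∈ t, (p - 1)) := by
          rw [Nat.add_sub_cancel]; ring

theorem totient_ge (g : ℕ) (hg : 0 < g) : (g : ℝ) ≤ ((2 * g).totient : ℝ) * (1 + Nat.log 2 g) := by
  set m := 2 * g with hm
  have hm0 : m ≠ 0 := by omega
  have hprod := g3_prod m.primeFactors (fun p hp => (Nat.prime_of_mem_primeFactors hp).two_le)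
  have htot := Nat.totient_mul_prod_primeFactors m
  have hP : 0 < ∏ p ∈ m.primeFactors, (p - 1) :=
    Finset.prod_pos fun p hp => by
      have := (Nat.prime_of_mem_primeFactors hp).two_le
      omega
  have h1 : m ≤ m.totient * (m.primeFactors.card + 1) := by
    have h2 : m * ∏ p ∈ m.primeFactors, (p - 1) ≤
        (m.totient * (m.primeFactors.card + 1)) * ∏ p ∈ m.primeFactors, (p - 1) := by
      rw [← htot]
      calc m.totient * ∏ p ∈ m.primeFactors, p ≤
          m.totient * ((m.primeFactors.card + 1) * ∏ p ∈ m.primeFactors, (p - 1)) :=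
            Nat.mul_le_mul_left _ hprod
        _ = _ := by ring
    exact Nat.le_of_mul_le_mul_right h2 hP
  have h3 : 2 ^ m.primeFactors.card ≤ m := by
    calc 2 ^ m.primeFactors.card = ∏ _p ∈ m.primeFactors, 2 := by rw [Finset.prod_const]
      _ ≤ ∏ p ∈ m.primeFactors, p :=
          Finset.prod_le_prod' fun p hp => (Nat.prime_of_mem_primeFactors hp).two_le
      _ ≤ m := Nat.le_of_dvd (by omega) (Nat.prod_primeFactors_dvd m)
  have h4 : m.primeFactors.card ≤ Nat.log 2 g + 1 := by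
    have h5 := Nat.le_log_of_pow_le (by norm_num : 1 < 2) h3
    have h6 : Nat.log 2 m = Nat.log 2 g + 1 := by
      rw [hm, mul_comm]
      exact Nat.log_mul_base (by norm_num) hg.ne'
    omega
  have h7 : 2 * g ≤ m.totient * (2 * (1 + Nat.log 2 g)) := by
    calc 2 * g ≤ m.totient * (m.primeFactors.card + 1) := h1
      _ ≤ m.totient * (2 * (1 + Nat.log 2 g)) := Nat.mul_le_mul_left _ (by omega)
  have h8 : ((2 * g : ℕ) : ℝ) ≤ ((m.totient * (2 * (1 + Nat.log 2 g)) : ℕ) : ℝ) := by exact_mod_cast h7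
  push_cast at h8
  linarith

end Pool.Agent.LibKC40
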