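import Pool.Agent.LibSW40.D1
import Pool.Agent.LibSW40.B6
import Pool.Agent.LibKC40.Defs

/-!
# LibKC40: definitions of the analytic part

`z = (A, q)` in the box `(N, 4N]²`, `A` odd, `q ≡ A + 2 mod 4`; `nn d A q = (d A + q)/2` (odd for `d ≡ 3 mod 4`).
-/

set_option autoImplicit false

namespace Pool.Agent.LibKC40

open Finset Pool.Agent.LibSW40

/-- the box -/
def Box (N : ℕ) : Finset (ℕ × ℕ) :=
  ((Ioc N (4 * N)) ×ˢ (Ioc N (4 * N))).filter fun z => z.1 % 2 = 1 ∧ z.2 % 4 = (z.1 + 2) % 4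

/-- `(d A + q)/2` -/
def nn (d A q : ℕ) : ℕ := (d * A + q) / 2

/-- `log` on the primes -/
noncomputable def th (n : ℕ) : ℝ := if n.Prime then Real.log n else 0

open scoped Classical in
/-- the model: normalized indicator of the numbers without prime factor `≤ w` -/
noncomputable def lamw (w n : ℕ) : ℝ := if ∀ p ∈ PrA w, ¬ p ∣ n then Ww w else 0

/-- the odd `A` in `(N, 4N]` for which `q = 2n - d A` is in `(N, 4N]` -/
def JJ (N d n : ℕ) : Finset ℕ :=
  (Ioc N (4 * N)).filter fun A => A % 2 = 1 ∧ d * A + N < 2 * n ∧ 2 * n ≤ d * A + 4 * N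

/-- the inner sum, for `d < d'`, `g = (d' - d)/2` -/
noncomputable def INN (κ : (d : ℕ) → ZMod d → ZMod d → ℝ) (f : ℕ → ℝ) (N d d' n : ℕ) : ℝ :=
  ∑ A ∈ JJ N d n, κ d (A : ZMod d) (2 * (n : ZMod d)) *
    κ d' (A : ZMod d') (2 * (n : ZMod d') - (d : ZMod d') * A) * f (n + (d' - d) / 2 * A)

/-- the scale of `d`: `x = B log log N`, `e^x = (log N)^B` -/
noncomputable def xx (B N : ℕ) : ℝ := B * Real.log (Real.log N)

/-- `w = (log N)^20` -/
noncomputable def ww (N : ℕ) : ℕ := ⌊Real.log N ^ 20⌋₊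

/-- the weights -/
noncomputable def wd (B N d : ℕ) : ℝ := LibPL63.wp (xx B N) d

/-- the set of the `d` -/
noncomputable def DD (B N : ℕ) : Finset ℕ := dR (xx B N)

end Pool.Agent.LibKC40
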