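import Pool.Agent.LibKC40.GDefs

/-!
Row H0 (SHORT/MEDIUM). The parameters.

PLAN. `x = xx B N → ∞`, `e^x = (log N)^B`, `e^(x/2) < d ≤ e^(2x)`; `wp_mass`; `2 x e^(-x) = 2 B log log N (log N)^(-B) ≤ (log N)^(-(B-1))`.
`(w : ℝ) ≤ (log N)^20`, `w ≥ (log N)^19`; `Ww w ≤ C log w ≤ log N` (`Ww_bounds`).
-/

set_option autoImplicit false

namespace Pool.Agent.LibKC40

open Finset Filter Pool.Agent.LibSW40

private theorem h0_log_top : Tendsto (fun N : ℕ => Real.log (N : ℝ)) atTop atTop :=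
  Real.tendsto_log_atTop.comp tendsto_natCast_atTop_atTop

private theorem h0_loglog_top : Tendsto (fun N : ℕ => Real.log (Real.log (N : ℝ))) atTop atTop :=
  Real.tendsto_log_atTop.comp h0_log_top

private theorem h0_loglog_le (c : ℝ) (hc : 0 < c) :
    ∀ᶠ N : ℕ in atTop, c * Real.log (Real.log (N : ℝ)) ≤ Real.log (N : ℝ) := by
  have h1 := Real.isLittleO_log_id_atTop.bound (show (0 : ℝ) < 1 / c by positivity)
  have h2 := h0_log_top.eventually h1
  have h3 := h0_log_top.eventually_ge_atTop 1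
  filter_upwards [h2, h3] with N h4 h5
  simp only [id, Real.norm_eq_abs] at h4
  rw [abs_of_nonneg (Real.log_nonneg h5), abs_of_nonneg (by linarith : (0 : ℝ) ≤ Real.log N)] at h4
  have h6 : c * Real.log (Real.log (N : ℝ)) ≤ c * (1 / c * Real.log (N : ℝ)) :=
    mul_le_mul_of_nonneg_left h4 hc.le
  have h7 : c * (1 / c * Real.log (N : ℝ)) = Real.log (N : ℝ) := by
    field_simp
  linarith

private theorem h0_exp {B N : ℕ} (h : 0 < Real.log (N : ℝ)) (k : ℕ) :
    Real.exp (k * xx B N) = Real.log (N : ℝ) ^ (k * B) := by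
  unfold xx
  rw [← Real.exp_log (pow_pos h (k * B)), Real.log_pow]
  congr 1
  push_cast
  ring

theorem params (B : ℕ) (hB : 2 ≤ B) : ∀ᶠ N : ℕ in atTop,
    (∀ d ∈ DD B N, d.Prime ∧ d % 4 = 3 ∧ (d : ℝ) ≤ Real.log N ^ (2 * B) ∧ Real.log N ^ B < (d : ℝ) ^ 2) ∧
    (∀ d, 0 ≤ wd B N d ∧ wd B N d ≤ (Real.log N ^ (B - 1))⁻¹) ∧ ∑ d ∈ DD B N, wd B N d ≤ 2 ∧
    (∀ d, wd B N d ≠ 0 → d.Prime) := by
  have hBp : (0 : ℝ) < B := by exact_mod_cast (by omega : 0 < B)
  have hx : Tendsto (fun N : ℕ => xx B N) atTop atTop := by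
    unfold xx
    exact h0_loglog_top.const_mul_atTop hBp
  have h1 := hx.eventually wp_mass
  have h2 := h0_loglog_le (2 * B) (by positivity)
  have h3 := h0_log_top.eventually_gt_atTop 1
  filter_upwards [h1, h2, h3] with N h1 h2 h3
  have hl : 0 < Real.log (N : ℝ) := by linarith
  have he1 : Real.exp (xx B N) = Real.log (N : ℝ) ^ B := by
    have := h0_exp (B := B) hl 1
    simpa using this
  have he2 : Real.exp (2 * xx B N) = Real.log (N : ℝ) ^ (2 * B) := by
    have := h0_exp (B := B) hl 2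
    simpa using this
  refine ⟨?_, ?_, h1.1, ?_⟩
  · intro d hd
    unfold DD dR at hd
    rw [mem_filter, mem_Icc] at hd
    obtain ⟨⟨_, h5⟩, h6, h7, h8⟩ := hd
    refine ⟨h6, h7, ?_, ?_⟩
    · rw [← he2]
      exact (Nat.le_floor_iff (Real.exp_pos _).le).1 h5
    · have h9 : Real.exp (xx B N) = Real.exp (xx B N / 2) ^ 2 := by
        rw [← Real.exp_nat_mul]
        congr 1
        push_cast
        ring
      rw [← he1, h9]
      exact pow_lt_pow_left₀ h8 (Real.exp_pos _).le (by norm_num)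
  · intro d
    unfold wd
    refine ⟨LibPL63.wp_nonneg _ _, (h1.2 d).trans ?_⟩
    rw [Real.exp_neg, he1]
    have h10 : Real.log (N : ℝ) ^ B = Real.log (N : ℝ) ^ (B - 1) * Real.log (N : ℝ) := by
      rw [← pow_succ]
      congr 1
      omega
    rw [h10]
    unfold xx
    have h11 : 0 < Real.log (N : ℝ) ^ (B - 1) := by positivity
    rw [mul_inv, ← mul_assoc, mul_right_comm]
    have h12 : 2 * (B * Real.log (Real.log (N : ℝ))) * (Real.log (N : ℝ))⁻¹ ≤ 1 := by
      rw [← div_eq_mul_inv, div_le_one hl]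
      linarith
    have h13 : (0 : ℝ) ≤ (Real.log (N : ℝ) ^ (B - 1))⁻¹ := by positivity
    calc 2 * (B * Real.log (Real.log (N : ℝ))) * (Real.log (N : ℝ))⁻¹ * (Real.log (N : ℝ) ^ (B - 1))⁻¹
        ≤ 1 * (Real.log (N : ℝ) ^ (B - 1))⁻¹ := mul_le_mul_of_nonneg_right h12 h13
      _ = _ := one_mul _
  · intro d hd
    by_contra hp
    apply hd
    unfold wd
    rw [LibPL63.wp_eq, if_neg hp]

theorem ww_params : ∀ᶠ N : ℕ in atTop, 2 ≤ ww N ∧ (ww N : ℝ) ≤ Real.log N ^ 20 ∧ Real.log N ^ 19 ≤ (ww N : ℝ) ∧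
    1 ≤ Ww (ww N) ∧ Ww (ww N) ≤ Real.log N := by
  obtain ⟨C, hC, hW⟩ := Ww_bounds
  have h2 := h0_loglog_le (20 * C) (by positivity)
  have h3 := h0_log_top.eventually_ge_atTop 4
  filter_upwards [h2, h3] with N h2 h3
  have hl : 0 < Real.log (N : ℝ) := by linarith
  have h4 : (ww N : ℝ) ≤ Real.log (N : ℝ) ^ 20 := Nat.floor_le (by positivity)
  have h5 : Real.log (N : ℝ) ^ 20 - 1 < (ww N : ℝ) := by
    have := Nat.lt_floor_add_one (Real.log (N : ℝ) ^ 20)
    unfold ww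
    linarith
  have h6 : Real.log (N : ℝ) ^ 19 ≤ (ww N : ℝ) := by
    have h7 : (1 : ℝ) ≤ Real.log (N : ℝ) ^ 19 := one_le_pow₀ (by linarith)
    have h8 : Real.log (N : ℝ) ^ 20 = Real.log (N : ℝ) ^ 19 * Real.log (N : ℝ) := pow_succ _ _
    nlinarith
  have h9 : (4 : ℝ) ≤ (ww N : ℝ) := by
    have h10 : Real.log (N : ℝ) ≤ Real.log (N : ℝ) ^ 19 :=
      le_self_pow₀ (by linarith) (by norm_num)
    linarith
  have h11 : 4 ≤ ww N := by exact_mod_cast h9
  obtain ⟨h12, h13⟩ := hW (ww N) (by omega)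
  refine ⟨by omega, h4, h6, ?_, ?_⟩
  · refine le_trans ?_ h12
    rw [Real.le_log_iff_exp_le (by linarith)]
    have := Real.exp_one_lt_d9
    linarith
  · refine h13.trans ?_
    have h14 : Real.log (ww N : ℝ) ≤ 20 * Real.log (Real.log (N : ℝ)) := by
      calc Real.log (ww N : ℝ) ≤ Real.log (Real.log (N : ℝ) ^ 20) :=
            Real.log_le_log (by linarith) h4
        _ = 20 * Real.log (Real.log (N : ℝ)) := by
            rw [Real.log_pow]
            norm_num
    calc C * Real.log (ww N : ℝ) ≤ C * (20 * Real.log (Real.log (N : ℝ))) :=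
          mul_le_mul_of_nonneg_left h14 hC.le
      _ = 20 * C * Real.log (Real.log (N : ℝ)) := by ring
      _ ≤ _ := h2

end Pool.Agent.LibKC40
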