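import Pool.Agent.LibKC40.GDefs

/-!
Row M3 (SHORT/MEDIUM). Trivial facts on `JJ`, `INN`, `lamw`.

PLAN. (1) `JJ N d n` nonempty: some `A > N` with `2n > dA + N`. (2) `A ∈ JJ`: `(2n - 4N)/d ≤ A < (2n - N)/d`. (3) `INN`: at most `#JJ` terms. (4) `lamw w n ≠ 0`
and `gcd(n, g) > 1`: some prime `p ∣ g`, `p ∣ n`, `p > w`; for each of the at most `log₂ g` primes `p ∣ g`, `p > w` there are at most `M/p ≤ M/w` multiples of `p`
in `[1, M]`.
-/

set_option autoImplicit false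

namespace Pool.Agent.LibKC40

open Finset Pool.Agent.LibSW40

theorem JJ_empty (N d n : ℕ) (h : 2 * n ≤ d * N) : JJ N d n = ∅ := by
  unfold JJ
  rw [Finset.filter_eq_empty_iff]
  rintro A hA ⟨_, h2, _⟩
  rw [Finset.mem_Ioc] at hA
  have h3 : d * N ≤ d * A := Nat.mul_le_mul_left d hA.1.le
  omega

theorem JJ_card (N d n : ℕ) (hd : 0 < d) : (#(JJ N d n) : ℝ) ≤ 3 * N / d + 1 := by
  rcases Finset.eq_empty_or_nonempty (JJ N d n) with h | h
  · rw [h, Finset.card_empty]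
    push_cast
    positivity
  · have h1 : JJ N d n ⊆ Finset.Icc ((JJ N d n).min' h) ((JJ N d n).min' h + 3 * N / d) := by
      intro A hA
      rw [Finset.mem_Icc]
      have h2 := Finset.min'_le _ A hA
      refine ⟨h2, ?_⟩
      have h3 := (Finset.mem_filter.1 hA).2.2.1
      have h4 := (Finset.mem_filter.1 (Finset.min'_mem _ h)).2.2.2
      set A0 := (JJ N d n).min' h
      obtain ⟨k, hk⟩ := Nat.exists_eq_add_of_le h2
      rw [hk] at h3 ⊢
      have h5 : k ≤ 3 * N / d := by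
        rw [Nat.le_div_iff_mul_le hd]
        rw [Nat.mul_add] at h3
        have h6 : k * d = d * k := Nat.mul_comm _ _
        omega
      omega
    have h2 := Finset.card_le_card h1
    rw [Nat.card_Icc] at h2
    rw [Nat.add_assoc, Nat.add_sub_cancel_left] at h2
    have h3 : #(JJ N d n) ≤ 3 * N / d + 1 := h2
    have h4 : ((3 * N / d : ℕ) : ℝ) ≤ 3 * N / d := by
      refine Nat.cast_div_le.trans ?_
      push_cast
      exact le_rfl
    calc (#(JJ N d n) : ℝ) ≤ ((3 * N / d + 1 : ℕ) : ℝ) := by exact_mod_cast h3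
      _ = ((3 * N / d : ℕ) : ℝ) + 1 := by push_cast; ring
      _ ≤ _ := by linarith

theorem INN_le (κ : (d : ℕ) → ZMod d → ZMod d → ℝ) (f : ℕ → ℝ) (N d d' n : ℕ) (L : ℝ)
    (hκ : (∀ A q, |κ d A q| ≤ 1) ∧ ∀ A q, |κ d' A q| ≤ 1)
    (hf : ∀ m, m ≤ n + (d' - d) / 2 * (4 * N) → |f m| ≤ L) (hd : 0 < d) (hL : 0 ≤ L) :
    |INN κ f N d d' n| ≤ (3 * N / d + 1) * L := by
  unfold INN
  refine (Finset.abs_sum_le_sum_abs _ _).trans ?_
  have h1 : ∀ A ∈ JJ N d n, |κ d (A : ZMod d) (2 * (n : ZMod d)) *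
      κ d' (A : ZMod d') (2 * (n : ZMod d') - (d : ZMod d') * A) *
        f (n + (d' - d) / 2 * A)| ≤ L := by
    intro A hA
    have hA4 : A ≤ 4 * N := (Finset.mem_Ioc.1 (Finset.mem_filter.1 hA).1).2
    rw [abs_mul, abs_mul]
    have h2 := hκ.1 (A : ZMod d) (2 * (n : ZMod d))
    have h3 := hκ.2 (A : ZMod d') (2 * (n : ZMod d') - (d : ZMod d') * A)
    have h4 := hf (n + (d' - d) / 2 * A) (by
      have := Nat.mul_le_mul_left ((d' - d) / 2) hA4
      omega)
    have h5 := mul_le_mul h2 h3 (abs_nonneg _) zero_le_one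
    rw [one_mul] at h5
    have h6 := mul_le_mul h5 h4 (abs_nonneg _) zero_le_one
    rwa [one_mul] at h6
  refine (Finset.sum_le_sum h1).trans ?_
  rw [Finset.sum_const, nsmul_eq_mul]
  exact mul_le_mul_of_nonneg_right (JJ_card N d n hd) hL

private theorem m3_log (g : ℕ) (hg : 0 < g) : #g.primeFactors ≤ Nat.log 2 g := by
  have h1 : 2 ^ #g.primeFactors ≤ ∏ p ∈ g.primeFactors, p :=
    Finset.pow_card_le_prod _ _ _ fun p hp => (Nat.prime_of_mem_primeFactors hp).two_le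
  have h2 := Nat.le_of_dvd hg (Nat.prod_primeFactors_dvd g)
  exact Nat.le_log_of_pow_le (by norm_num) (h1.trans h2)

theorem bad_card (w g M : ℕ) (hw : 0 < w) (hg : 0 < g) :
    (#((Icc 1 M).filter fun n => lamw w n ≠ 0 ∧ ¬ n.Coprime g) : ℝ) ≤ Nat.log 2 g * ((M : ℝ) / w) := by
  classical
  have hsub : ((Icc 1 M).filter fun n => lamw w n ≠ 0 ∧ ¬ n.Coprime g) ⊆
      (g.primeFactors.filter fun p => w < p).biUnion
        fun p => (Ioc 0 M).filter fun n => p ∣ n := by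
    intro n hn
    rw [Finset.mem_filter, Finset.mem_Icc] at hn
    obtain ⟨⟨hn1, hnM⟩, hlam, hcop⟩ := hn
    obtain ⟨p, hp, hpn, hpg⟩ := Nat.Prime.not_coprime_iff_dvd.1 hcop
    rw [Finset.mem_biUnion]
    refine ⟨p, ?_, ?_⟩
    · rw [Finset.mem_filter, Nat.mem_primeFactors]
      refine ⟨⟨hp, hpg, hg.ne'⟩, ?_⟩
      by_contra hpw
      apply hlam
      unfold lamw
      rw [if_neg]
      intro hall
      refine hall p ?_ hpn
      unfold PrA
      rw [Finset.mem_filter, Finset.mem_Icc]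
      exact ⟨⟨hp.one_le, by omega⟩, hp⟩
    · rw [Finset.mem_filter, Finset.mem_Ioc]
      exact ⟨⟨by omega, hnM⟩, hpn⟩
  have h1 : #((Icc 1 M).filter fun n => lamw w n ≠ 0 ∧ ¬ n.Coprime g) ≤
      ∑ p ∈ g.primeFactors.filter fun p => w < p, M / p := by
    refine (Finset.card_le_card hsub).trans (Finset.card_biUnion_le.trans ?_)
    refine Finset.sum_le_sum fun p _ => ?_
    rw [Nat.Ioc_filter_dvd_card_eq_div]
  have hMw : 0 ≤ (M : ℝ) / w := by positivity
  have h2 : ((∑ p ∈ g.primeFactors.filter fun p => w < p, M / p : ℕ) : ℝ) ≤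
      #(g.primeFactors.filter fun p => w < p) * ((M : ℝ) / w) := by
    push_cast
    rw [← nsmul_eq_mul]
    refine Finset.sum_le_card_nsmul _ _ _ fun p hp => ?_
    have h3 : w < p := (Finset.mem_filter.1 hp).2
    have h4 : (w : ℝ) ≤ p := by exact_mod_cast h3.le
    have h5 : (0 : ℝ) < w := by exact_mod_cast hw
    exact Nat.cast_div_le.trans (div_le_div_of_nonneg_left (Nat.cast_nonneg M) h5 h4)
  have h3 : #(g.primeFactors.filter fun p => w < p) ≤ Nat.log 2 g :=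
    (Finset.card_le_card (Finset.filter_subset _ _)).trans (m3_log g hg)
  calc (#((Icc 1 M).filter fun n => lamw w n ≠ 0 ∧ ¬ n.Coprime g) : ℝ)
      ≤ ((∑ p ∈ g.primeFactors.filter fun p => w < p, M / p : ℕ) : ℝ) := by exact_mod_cast h1
    _ ≤ _ := h2
    _ ≤ Nat.log 2 g * ((M : ℝ) / w) :=
      mul_le_mul_of_nonneg_right (by exact_mod_cast h3) hMw

theorem lamw_bounds (w n : ℕ) : 0 ≤ lamw w n ∧ lamw w n ≤ Ww w := by
  have h : 0 ≤ Ww w := by
    unfold Ww
    refine Finset.prod_nonneg fun p hp => ?_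
    unfold PrA at hp
    have h1 : (1 : ℝ) ≤ p := by exact_mod_cast (Finset.mem_filter.1 hp).2.one_le
    exact div_nonneg (by linarith) (by linarith)
  unfold lamw
  split_ifs
  · exact ⟨h, le_rfl⟩
  · exact ⟨le_rfl, h⟩

theorem th_bounds (n : ℕ) : 0 ≤ th n ∧ th n ≤ Real.log n := by
  have h : 0 ≤ Real.log n := Real.log_natCast_nonneg n
  unfold th
  split_ifs
  · exact ⟨h, le_rfl⟩
  · exact ⟨le_rfl, h⟩

end Pool.Agent.LibKC40
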