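import Pool.Agent.LibKC40.G1
import Pool.Agent.LibKC40.G3
import Pool.Agent.LibKC40.M3
import Pool.Agent.LibKC40.H0

/-!
Row H1 (MEDIUM). First variance: classes cancel in `A`.

PLAN. `var_le` with `w = wd B N`, `D = DD B N`, `f = th`, `L = 2 log N`. `K = 8 B`; `SWb_holds K`: `Q0 = ⌊(log N)^K⌋`, `X = ⌊N (log N)^K⌋`, `η = N (log N)^(-K)`.
For `d < d'` and `n` odd `< 4 d N`: `th n ≠ 0` only for `n` prime; `n ≤ dN/2`: `JJ` empty; else `n > dN/2 > (log N)^(6B) ≥ 2 g d d'`: `inn_main`, `F1_le`, `F2_le`,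
`totient_ge`: `|INN| ≤ (1 + log₂ g)(3N/d + 1) d' /((d-1)(d'-1)) + d d' η ≤ 32 N log N / d² + ..`. Sum over `n`: `≤ 4 d N · 2 log N · |INN| ≤ C N² (log N)² / d + ..`,
`d > (log N)^(B/2) ≥ (log N)^30`. Diagonal: `9 N² 4 (log N)² · (log N)^(-(B-1)) · 2`.
-/

set_option autoImplicit false

namespace Pool.Agent.LibKC40

open Finset Filter Pool.Agent.LibSW40

private theorem h1_log_top : Tendsto (fun N : ℕ => Real.log (N : ℝ)) atTop atTop :=
  Real.tendsto_log_atTop.comp tendsto_natCast_atTop_atTop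

private theorem h1_loglog_le (c : ℝ) (hc : 0 < c) :
    ∀ᶠ N : ℕ in atTop, c * Real.log (Real.log (N : ℝ)) ≤ Real.log (N : ℝ) := by
  have h1 := Real.isLittleO_log_id_atTop.bound (show (0 : ℝ) < 1 / c by positivity)
  have h2 := h1_log_top.eventually h1
  have h3 := h1_log_top.eventually_ge_atTop 1
  filter_upwards [h2, h3] with N h4 h5
  simp only [id, Real.norm_eq_abs] at h4
  rw [abs_of_nonneg (Real.log_nonneg h5), abs_of_nonneg (by linarith : (0 : ℝ) ≤ Real.log N)] at h4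
  have h6 : c * Real.log (Real.log (N : ℝ)) ≤ c * (1 / c * Real.log (N : ℝ)) :=
    mul_le_mul_of_nonneg_left h4 hc.le
  have h7 : c * (1 / c * Real.log (N : ℝ)) = Real.log (N : ℝ) := by
    field_simp
  linarith

/-- powers of the logarithm are small -/
private theorem h1_pow_le (k : ℕ) : ∀ᶠ N : ℕ in atTop, Real.log (N : ℝ) ^ k ≤ (N : ℝ) / 2 := by
  have h1 : (fun x : ℝ => Real.log x ^ k) =o[atTop] (fun x : ℝ => x) := by
    have := isLittleO_log_rpow_rpow_atTop (k : ℝ) (show (0 : ℝ) < 1 by norm_num)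
    simpa using this
  have h2 := h1.bound (show (0 : ℝ) < 1 / 2 by norm_num)
  have h3 := tendsto_natCast_atTop_atTop (R := ℝ) |>.eventually h2
  filter_upwards [h3, eventually_ge_atTop 1] with N h4 h5
  have h6 : (1 : ℝ) ≤ N := by exact_mod_cast h5
  rw [Real.norm_eq_abs, Real.norm_eq_abs, abs_of_nonneg (by positivity : (0 : ℝ) ≤ (N : ℝ)),
    abs_of_nonneg (pow_nonneg (Real.log_nonneg h6) k)] at h4
  linarith

theorem var1 (B : ℕ) (hB : 60 ≤ B) : ∀ᶠ N : ℕ in atTop, ∀ κ : (d : ℕ) → ZMod d → ZMod d → ℝ,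
    (∀ d ∈ DD B N, ∀ A q, |κ d A q| ≤ 1) →
    (∀ (d : ℕ) [NeZero d], d ∈ DD B N → ∀ q, ∑ A : ZMod d, κ d A q = 0) →
    ∑ z ∈ Box N, (∑ d ∈ DD B N, wd B N d * (κ d (z.1 : ZMod d) (z.2 : ZMod d) * th (nn d z.1 z.2))) ^ 2 ≤
      (N : ℝ) ^ 2 * (Real.log N ^ 10)⁻¹ := by
  have hB0 : 0 < B := by omega
  filter_upwards [params B (by omega), SWb_holds (8 * B), h1_pow_le (6 * B + 1),
    h1_log_top.eventually_ge_atTop 1000, eventually_ge_atTop 2,
    h1_loglog_le (8 * B) (by positivity)] with N hpar hSW hpow hl hN2 hll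
  intro κ hκ hκ0
  obtain ⟨hP1, hP2, hP3, -⟩ := hpar
  set ℓ : ℝ := Real.log (N : ℝ) with hℓ
  have hl0 : 0 < ℓ := by linarith
  have hl1 : 1 ≤ ℓ := by linarith
  have hNR : (0 : ℝ) < N := by
    have : (2 : ℝ) ≤ N := by exact_mod_cast hN2
    linarith
  have hmono : ∀ {i j : ℕ}, i ≤ j → ℓ ^ i ≤ ℓ ^ j := fun h => pow_le_pow_right₀ hl1 h
  have hpos : ∀ i : ℕ, 0 < ℓ ^ i := fun i => pow_pos hl0 i
  -- facts on the moduli
  have hd1 : ∀ d ∈ DD B N, (d : ℝ) ≤ ℓ ^ (2 * B) := fun d hd => (hP1 d hd).2.2.1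
  have hd30 : ∀ d ∈ DD B N, ℓ ^ 30 ≤ (d : ℝ) := by
    intro d hd
    have h1 := (hP1 d hd).2.2.2
    have h2 : (ℓ ^ 30) ^ 2 ≤ (d : ℝ) ^ 2 := by
      rw [← pow_mul]
      exact (hmono (by omega)).trans h1.le
    exact le_of_sq_le_sq h2 (by positivity)
  have hd2 : ∀ d ∈ DD B N, (2 : ℝ) ≤ d := by
    intro d hd
    exact_mod_cast (hP1 d hd).1.two_le
  have hdN : ∀ d ∈ DD B N, (d : ℝ) ≤ N := by
    intro d hd
    have h1 := hd1 d hd
    have h2 : ℓ ^ (2 * B) ≤ ℓ ^ (6 * B + 1) := hmono (by omega)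
    linarith
  have hlogn : ∀ d ∈ DD B N, ∀ n : ℕ, n ≤ 4 * d * N → |th n| ≤ 2 * ℓ := by
    intro d hd n hn
    obtain ⟨h1, h2⟩ := th_bounds n
    rw [abs_of_nonneg h1]
    refine h2.trans ?_
    rcases Nat.eq_zero_or_pos n with h0 | h0
    · rw [h0]
      simp only [Nat.cast_zero, Real.log_zero]
      linarith
    have hn' : (n : ℝ) ≤ 4 * d * N := by exact_mod_cast hn
    have h3 : (n : ℝ) ≤ (N : ℝ) ^ 2 := by
      have h4 : 4 * (d : ℝ) ≤ N := by
        have h5 := hd1 d hd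
        have h6 : 2 * (4 * ℓ ^ (2 * B)) ≤ 2 * ((N : ℝ) / 2) := by
          have h7 : 4 * ℓ ^ (2 * B) ≤ ℓ * ℓ ^ (2 * B) :=
            mul_le_mul_of_nonneg_right (by linarith) (hpos _).le
          have h8 : ℓ * ℓ ^ (2 * B) ≤ ℓ ^ (6 * B + 1) := by
            rw [← pow_succ']
            exact hmono (by omega)
          linarith
        linarith [hpos (2 * B)]
      calc (n : ℝ) ≤ 4 * d * N := hn'
        _ ≤ N * N := by gcongr
        _ = _ := by ring
    have hn0 : (0 : ℝ) < n := by exact_mod_cast h0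
    calc Real.log n ≤ Real.log ((N : ℝ) ^ 2) := Real.log_le_log hn0 h3
      _ = 2 * ℓ := by
          rw [Real.log_pow]
          push_cast
          rfl
  set E : ℝ := (N : ℝ) ^ 2 * (ℓ ^ 11)⁻¹ with hE
  have hE0 : 0 ≤ E := by positivity
  have hoff : ∀ d ∈ DD B N, ∀ d' ∈ DD B N, d < d' →
      ∑ n ∈ (range (4 * d * N)).filter (fun n => n % 2 = 1), |th n| * |INN κ th N d d' n| ≤ E := by
    intro d hd d' hd' hdd
    have hdp := (hP1 d hd).1
    have hdp' := (hP1 d' hd').1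
    have hd4 := (hP1 d hd).2.1
    have hd4' := (hP1 d' hd').2.1
    haveI : NeZero d := ⟨hdp.ne_zero⟩
    haveI : NeZero d' := ⟨hdp'.ne_zero⟩
    obtain ⟨g, hg⟩ : ∃ g, g = (d' - d) / 2 := ⟨_, rfl⟩
    have hg0 : 0 < g := by omega
    have hgd : 2 * g ≤ d' := by omega
    have hdR := hd2 d hd
    have hdR' := hd2 d' hd'
    have hdl := hd1 d hd
    have hdl' := hd1 d' hd'
    have hdR0 : (0 : ℝ) < d := by linarith
    have hdR0' : (0 : ℝ) < d' := by linarith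
    -- size of the modulus
    have hmod : ((2 * g * (d * d') : ℕ) : ℝ) ≤ ℓ ^ (6 * B) := by
      have h1 : ((2 * g : ℕ) : ℝ) ≤ d' := by exact_mod_cast hgd
      push_cast at h1 ⊢
      calc 2 * (g : ℝ) * (d * d') ≤ d' * (d * d') := by gcongr
        _ ≤ ℓ ^ (2 * B) * (ℓ ^ (2 * B) * ℓ ^ (2 * B)) := by gcongr
        _ = ℓ ^ (6 * B) := by
            rw [← pow_add, ← pow_add]
            congr 1
            ring
    set η : ℝ := (N : ℝ) * (ℓ ^ (8 * B))⁻¹ with hη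
    have hη0 : 0 ≤ η := by positivity
    set W : ℝ := 16 * N * ℓ / (d : ℝ) ^ 2 + d * d' * η with hW
    have hW0 : 0 ≤ W := by positivity
    have hterm : ∀ n ∈ (range (4 * d * N)).filter (fun n => n % 2 = 1),
        |th n| * |INN κ th N d d' n| ≤ 2 * ℓ * W := by
      intro n hn
      rw [mem_filter, mem_range] at hn
      by_cases hnp : n.Prime
      swap
      · have : th n = 0 := by
          unfold th
          rw [if_neg hnp]
        rw [this, abs_zero, zero_mul]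
        positivity
      rcases le_or_gt (2 * n) (d * N) with hc | hc
      · have : INN κ th N d d' n = 0 := by
          unfold INN
          rw [JJ_empty N d n hc, sum_empty]
        rw [this, abs_zero, mul_zero]
        positivity
      refine mul_le_mul (hlogn d hd n hn.1.le) ?_ (abs_nonneg _) (by positivity)
      have hQ : 2 * ((d' - d) / 2) * (d * d') ≤ ⌊ℓ ^ (8 * B)⌋₊ := by
        rw [← hg]
        apply Nat.le_floor
        exact hmod.trans (hmono (by omega))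
      have hQn : 2 * ((d' - d) / 2) * (d * d') < n := by
        rw [← hg]
        have h1 : ((d * N : ℕ) : ℝ) < ((2 * n : ℕ) : ℝ) := by exact_mod_cast hc
        push_cast at h1
        have h2 : (N : ℝ) < n := by nlinarith
        have h3 : ((2 * g * (d * d') : ℕ) : ℝ) < (n : ℝ) := by
          have h4 : ℓ ^ (6 * B) ≤ ℓ ^ (6 * B + 1) := hmono (by omega)
          linarith
        exact_mod_cast h3
      have hX : n + (d' - d) / 2 * (4 * N) ≤ ⌊(N : ℝ) * ℓ ^ (8 * B)⌋₊ := by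
        rw [← hg]
        apply Nat.le_floor
        push_cast
        have h1 : (n : ℝ) ≤ 4 * d * N := by exact_mod_cast hn.1.le
        have h2 : 2 * (g : ℝ) ≤ d' := by exact_mod_cast hgd
        have h3 : (6 : ℝ) * ℓ ^ (2 * B) ≤ ℓ ^ (8 * B) := by
          calc (6 : ℝ) * ℓ ^ (2 * B) ≤ ℓ * ℓ ^ (2 * B) :=
                mul_le_mul_of_nonneg_right (by linarith) (hpos _).le
            _ = ℓ ^ (2 * B + 1) := by rw [pow_succ']
            _ ≤ ℓ ^ (8 * B) := hmono (by omega)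
        calc (n : ℝ) + g * (4 * N) ≤ 4 * d * N + 2 * d' * N := by nlinarith
          _ ≤ 4 * ℓ ^ (2 * B) * N + 2 * ℓ ^ (2 * B) * N := by gcongr
          _ = (N : ℝ) * (6 * ℓ ^ (2 * B)) := by ring
          _ ≤ (N : ℝ) * ℓ ^ (8 * B) := by gcongr
      have hm := inn_main hSW hη0 κ N d d' n ⟨hκ d hd, hκ d' hd'⟩ hdp hdp' hd4 hd4' hdd hnp hQ hQn hX
      rw [← hg] at hm
      have hF1 := F1_le κ d d' n hdp hdp' hd4 hd4' hdd (hκ d hd) (hκ0 d hd)
      have hF2 := F2_le κ d d' n (hκ d' hd')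
      have hF : |F1 κ d d' n * F2 κ d d' n| ≤ d' := by
        rw [abs_mul]
        calc |F1 κ d d' n| * |F2 κ d d' n| ≤ 1 * d' := mul_le_mul hF1 hF2 (abs_nonneg _) zero_le_one
          _ = _ := one_mul _
      have htot := totient_ge g hg0
      have htp : (0 : ℝ) < ((2 * g).totient : ℝ) := by
        exact_mod_cast Nat.totient_pos.2 (by omega)
      have hglog : (1 : ℝ) + Nat.log 2 g ≤ ℓ := by
        have h1 : (2 : ℝ) ^ Nat.log 2 g ≤ (g : ℝ) := by
          exact_mod_cast Nat.pow_log_le_self 2 hg0.ne'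
        have h3 : 2 * (g : ℝ) ≤ d' := by exact_mod_cast hgd
        have hg00 : (0 : ℝ) < g := by exact_mod_cast hg0
        have h5 : (2 : ℝ) ^ Nat.log 2 g ≤ ℓ ^ (2 * B) := by
          linarith
        have h7 : (Nat.log 2 g : ℝ) * Real.log 2 ≤ ((2 * B : ℕ) : ℝ) * Real.log ℓ := by
          have h8 : Real.log ((2 : ℝ) ^ Nat.log 2 g) ≤ Real.log (ℓ ^ (2 * B)) :=
            Real.log_le_log (by positivity) h5
          rwa [Real.log_pow, Real.log_pow] at h8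
        have h9 : (1 : ℝ) / 2 ≤ Real.log 2 := by
          have := Real.log_two_gt_d9
          linarith
        have h10 : (Nat.log 2 g : ℝ) * (1 / 2) ≤ (Nat.log 2 g : ℝ) * Real.log 2 :=
          mul_le_mul_of_nonneg_left h9 (by positivity)
        push_cast at h7
        linarith
      have hcoef : (g : ℝ) * (3 * N / d + 1) / ((2 * g).totient : ℝ) / (((d : ℝ) - 1) * ((d' : ℝ) - 1)) *
          |F1 κ d d' n * F2 κ d d' n| ≤ 16 * N * ℓ / (d : ℝ) ^ 2 := by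
        have h1 : (g : ℝ) / ((2 * g).totient : ℝ) ≤ ℓ := by
          rw [div_le_iff₀ htp]
          nlinarith
        have h2 : 3 * (N : ℝ) / d + 1 ≤ 4 * N / d := by
          rw [div_add_one hdR0.ne']
          gcongr
          linarith [hdN d hd]
        have h3 : (d : ℝ) / 2 ≤ d - 1 := by linarith
        have h4 : (d' : ℝ) / 2 ≤ d' - 1 := by linarith
        have h5 : (g : ℝ) * (3 * N / d + 1) / ((2 * g).totient : ℝ) / (((d : ℝ) - 1) * ((d' : ℝ) - 1)) *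
            |F1 κ d d' n * F2 κ d d' n| = ((g : ℝ) / ((2 * g).totient : ℝ)) * (3 * N / d + 1) *
            (1 / (((d : ℝ) - 1) * ((d' : ℝ) - 1))) * |F1 κ d d' n * F2 κ d d' n| := by ring
        rw [h5]
        have h6 : 1 / (((d : ℝ) - 1) * ((d' : ℝ) - 1)) ≤ 1 / ((d / 2) * (d' / 2)) := by
          apply one_div_le_one_div_of_le (by positivity)
          exact mul_le_mul h3 h4 (by positivity) (by linarith)
        have h7 : (0 : ℝ) ≤ 1 / (((d : ℝ) - 1) * ((d' : ℝ) - 1)) := by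
          apply one_div_nonneg.2
          exact mul_nonneg (by linarith) (by linarith)
        have h8 : (0 : ℝ) ≤ 3 * (N : ℝ) / d + 1 := by positivity
        calc ((g : ℝ) / ((2 * g).totient : ℝ)) * (3 * N / d + 1) *
            (1 / (((d : ℝ) - 1) * ((d' : ℝ) - 1))) * |F1 κ d d' n * F2 κ d d' n|
            ≤ ℓ * (4 * N / d) * (1 / ((d / 2) * (d' / 2))) * d' :=
              mul_le_mul (mul_le_mul (mul_le_mul h1 h2 h8 (by positivity)) h6 h7 (by positivity)) hF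
                (abs_nonneg _) (by positivity)
          _ = 16 * N * ℓ / (d : ℝ) ^ 2 := by
              field_simp
              ring
      linarith
    have hcount : (#((range (4 * d * N)).filter (fun n => n % 2 = 1)) : ℝ) ≤ 4 * d * N := by
      have h1 : #((range (4 * d * N)).filter (fun n => n % 2 = 1)) ≤ 4 * d * N :=
        (card_filter_le _ _).trans (card_range _).le
      exact_mod_cast h1
    have hsum : ∑ n ∈ (range (4 * d * N)).filter (fun n => n % 2 = 1), |th n| * |INN κ th N d d' n| ≤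
        4 * d * N * (2 * ℓ * W) := by
      calc _ ≤ ∑ n ∈ (range (4 * d * N)).filter (fun n => n % 2 = 1), 2 * ℓ * W := sum_le_sum hterm
        _ = (#((range (4 * d * N)).filter (fun n => n % 2 = 1)) : ℝ) * (2 * ℓ * W) := by
            rw [sum_const, nsmul_eq_mul]
        _ ≤ _ := mul_le_mul_of_nonneg_right hcount (by positivity)
    refine hsum.trans ?_
    have e1 : 4 * d * N * (2 * ℓ * W) = 128 * N ^ 2 * ℓ ^ 2 / d +
        8 * (d * d * d') * ℓ * N * η := by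
      rw [hW]
      field_simp
      ring
    rw [e1]
    have b1 : 128 * (N : ℝ) ^ 2 * ℓ ^ 2 / d ≤ (N : ℝ) ^ 2 * (ℓ ^ 11)⁻¹ / 2 := by
      have h1 := hd30 d hd
      have h2 : 128 * (N : ℝ) ^ 2 * ℓ ^ 2 / d ≤ 128 * (N : ℝ) ^ 2 * ℓ ^ 2 / ℓ ^ 30 := by
        gcongr
      refine h2.trans ?_
      rw [div_le_iff₀ (hpos 30)]
      have h3 : (N : ℝ) ^ 2 * (ℓ ^ 11)⁻¹ / 2 * ℓ ^ 30 = (N : ℝ) ^ 2 * (ℓ ^ 19 / 2) := by
        have : ℓ ^ 30 = ℓ ^ 11 * ℓ ^ 19 := by rw [← pow_add]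
        rw [this]
        field_simp
      rw [h3]
      have h4 : 128 * ℓ ^ 2 ≤ ℓ ^ 19 / 2 := by
        have h5 : 256 * ℓ ^ 2 ≤ ℓ * ℓ ^ 2 := mul_le_mul_of_nonneg_right (by linarith) (hpos _).le
        have h6 : ℓ * ℓ ^ 2 ≤ ℓ ^ 19 := by
          rw [← pow_succ']
          exact hmono (by omega)
        linarith
      nlinarith [sq_nonneg (N : ℝ)]
    have b2 : 8 * ((d : ℝ) * d * d') * ℓ * N * η ≤ (N : ℝ) ^ 2 * (ℓ ^ 11)⁻¹ / 2 := by
      have h1 : (d : ℝ) * d * d' ≤ ℓ ^ (6 * B) := by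
        calc (d : ℝ) * d * d' ≤ ℓ ^ (2 * B) * ℓ ^ (2 * B) * ℓ ^ (2 * B) := by gcongr
          _ = ℓ ^ (6 * B) := by
            rw [← pow_add, ← pow_add]
            congr 1
            ring
      have h2 : 8 * ((d : ℝ) * d * d') * ℓ * N * η ≤ 8 * ℓ ^ (6 * B) * ℓ * N * η := by gcongr
      refine h2.trans ?_
      have h3 : 8 * ℓ ^ (6 * B) * ℓ * N * η = (N : ℝ) ^ 2 * (8 * ℓ ^ (6 * B + 1) * (ℓ ^ (8 * B))⁻¹) := by
        rw [hη, pow_succ]
        ring
      rw [h3, mul_div_assoc]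
      apply mul_le_mul_of_nonneg_left _ (by positivity)
      rw [← div_eq_mul_inv, div_le_iff₀ (hpos _)]
      have h4 : (ℓ ^ 11)⁻¹ / 2 * ℓ ^ (8 * B) = ℓ ^ (8 * B - 11) / 2 := by
        have : ℓ ^ (8 * B) = ℓ ^ 11 * ℓ ^ (8 * B - 11) := by
          rw [← pow_add]
          congr 1
          omega
        rw [this]
        field_simp
      rw [h4]
      have h5 : 16 * ℓ ^ (6 * B + 1) ≤ ℓ * ℓ ^ (6 * B + 1) :=
        mul_le_mul_of_nonneg_right (by linarith) (hpos _).le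
      have h6 : ℓ * ℓ ^ (6 * B + 1) ≤ ℓ ^ (8 * B - 11) := by
        rw [← pow_succ']
        exact hmono (by omega)
      linarith
    rw [hE]
    linarith
  have hvar := var_le N (DD B N) (fun d hd => (hP1 d hd).2.1) (wd B N) (fun d => (hP2 d).1) κ hκ th
    (2 * ℓ) E hE0 (fun d hd n hn => hlogn d hd n hn) hoff
  refine hvar.trans ?_
  have hw2 : ∑ d ∈ DD B N, wd B N d ^ 2 ≤ (ℓ ^ (B - 1))⁻¹ * 2 := by
    calc ∑ d ∈ DD B N, wd B N d ^ 2 ≤ ∑ d ∈ DD B N, (ℓ ^ (B - 1))⁻¹ * wd B N d := by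
          apply sum_le_sum
          intro d _
          rw [sq]
          exact mul_le_mul_of_nonneg_right (hP2 d).2 (hP2 d).1
      _ = (ℓ ^ (B - 1))⁻¹ * ∑ d ∈ DD B N, wd B N d := by rw [mul_sum]
      _ ≤ _ := mul_le_mul_of_nonneg_left hP3 (by positivity)
  have hw0 : 0 ≤ ∑ d ∈ DD B N, wd B N d := sum_nonneg fun d _ => (hP2 d).1
  have hA : 9 * (N : ℝ) ^ 2 * (2 * ℓ) ^ 2 * ∑ d ∈ DD B N, wd B N d ^ 2 ≤
      (N : ℝ) ^ 2 * (ℓ ^ 10)⁻¹ / 2 := by
    have h1 : (ℓ ^ (B - 1))⁻¹ ≤ (ℓ ^ 59)⁻¹ := inv_anti₀ (hpos _) (hmono (by omega))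
    have h2 : 9 * (N : ℝ) ^ 2 * (2 * ℓ) ^ 2 * ∑ d ∈ DD B N, wd B N d ^ 2 ≤
        9 * (N : ℝ) ^ 2 * (2 * ℓ) ^ 2 * ((ℓ ^ 59)⁻¹ * 2) := by
      gcongr
      exact hw2.trans (by gcongr)
    refine h2.trans ?_
    have h3 : 9 * (N : ℝ) ^ 2 * (2 * ℓ) ^ 2 * ((ℓ ^ 59)⁻¹ * 2) = (N : ℝ) ^ 2 * (72 * ℓ ^ 2 * (ℓ ^ 59)⁻¹) := by
      ring
    rw [h3, mul_div_assoc]
    apply mul_le_mul_of_nonneg_left _ (by positivity)
    rw [← div_eq_mul_inv, div_le_iff₀ (hpos _)]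
    have h4 : (ℓ ^ 10)⁻¹ / 2 * ℓ ^ 59 = ℓ ^ 49 / 2 := by
      have : ℓ ^ 59 = ℓ ^ 10 * ℓ ^ 49 := by rw [← pow_add]
      rw [this]
      field_simp
    rw [h4]
    have h5 : 144 * ℓ ^ 2 ≤ ℓ * ℓ ^ 2 := mul_le_mul_of_nonneg_right (by linarith) (hpos _).le
    have h6 : ℓ * ℓ ^ 2 ≤ ℓ ^ 49 := by
      rw [← pow_succ']
      exact hmono (by omega)
    linarith
  have hBb : E * (∑ d ∈ DD B N, wd B N d) ^ 2 ≤ (N : ℝ) ^ 2 * (ℓ ^ 10)⁻¹ / 2 := by
    have h1 : (∑ d ∈ DD B N, wd B N d) ^ 2 ≤ 2 ^ 2 := pow_le_pow_left₀ hw0 hP3 2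
    have h2 : E * (∑ d ∈ DD B N, wd B N d) ^ 2 ≤ E * 2 ^ 2 := mul_le_mul_of_nonneg_left h1 hE0
    refine h2.trans ?_
    rw [hE]
    have h3 : (ℓ ^ 10)⁻¹ = ℓ * (ℓ ^ 11)⁻¹ := by
      have : ℓ ^ 11 = ℓ ^ 10 * ℓ := pow_succ _ _
      rw [this]
      field_simp
    rw [h3]
    have h4 : 0 ≤ (N : ℝ) ^ 2 * (ℓ ^ 11)⁻¹ := by positivity
    nlinarith
  linarith

end Pool.Agent.LibKC40
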