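import Pool.Agent.LibKC40.G1
import Pool.Agent.LibKC40.G3
import Pool.Agent.LibKC40.M3
import Pool.Agent.LibKC40.H0

/-!
Row H2 (MEDIUM). Second variance: classes cancel in `q`. As row H1 with `κ d A q = k d q`, `F2_zero` instead of `F1_le`, `F2_le`
(so `|INN| ≤ d d' η`).
-/

set_option autoImplicit false

namespace Pool.Agent.LibKC40

open Finset Filter Pool.Agent.LibSW40

private theorem h2_small (B : ℕ) : ∀ᶠ N : ℕ in atTop, 4 * Real.log (N : ℝ) ^ (4 * B) ≤ N := by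
  have h := (Real.isLittleO_pow_log_id_atTop (n := 4 * B)).bound (show (0 : ℝ) < 1 / 4 by norm_num)
  filter_upwards [tendsto_natCast_atTop_atTop.eventually h,
    tendsto_natCast_atTop_atTop.eventually (eventually_ge_atTop (1 : ℝ))] with N hN h1
  have h0 : 0 ≤ Real.log (N : ℝ) ^ (4 * B) := pow_nonneg (Real.log_nonneg h1) _
  rw [Real.norm_of_nonneg h0, id, Real.norm_of_nonneg (by linarith)] at hN
  linarith

/-- the inner sums -/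
private theorem h2_inn (B : ℕ) {N : ℕ} (hℓ : 100 ≤ Real.log (N : ℝ))
    (hN : 4 * Real.log (N : ℝ) ^ (4 * B) ≤ N) (hB : 60 ≤ B)
    (hSW : SWb ⌊Real.log N ^ (8 * B)⌋₊ ⌊(N : ℝ) * Real.log N ^ (8 * B)⌋₊ (N * (Real.log N ^ (8 * B))⁻¹))
    (k : (d : ℕ) → ZMod d → ℝ) (d d' n : ℕ) (hd : d.Prime) (hd' : d'.Prime) (hd4 : d % 4 = 3)
    (hd4' : d' % 4 = 3) (hdd : d < d') (hdl : (d : ℝ) ≤ Real.log N ^ (2 * B))
    (hdl' : (d' : ℝ) ≤ Real.log N ^ (2 * B)) (hk : ∀ q, |k d q| ≤ 1) (hk' : ∀ q, |k d' q| ≤ 1)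
    [NeZero d'] (h0 : k d' 0 = 0) (hs : ∑ q : ZMod d', k d' q = 0) (hn : n < 4 * d * N) (hnp : n.Prime) :
    |INN (fun d _ q => k d q) th N d d' n| ≤ N * (Real.log N ^ (4 * B))⁻¹ := by
  set ℓ := Real.log (N : ℝ) with hℓdef
  have hℓ0 : 0 < ℓ := by linarith
  have hℓ1 : 1 ≤ ℓ := by linarith
  have hη : 0 ≤ (N : ℝ) * (ℓ ^ (8 * B))⁻¹ := by positivity
  by_cases hJ : 2 * n ≤ d * N
  · have : INN (fun d _ q => k d q) th N d d' n = 0 := by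
      unfold INN
      rw [JJ_empty N d n hJ, sum_empty]
    rw [this, abs_zero]
    positivity
  push Not at hJ
  have : NeZero d := ⟨hd.ne_zero⟩
  have hg : 2 * ((d' - d) / 2) ≤ d' := by omega
  have hd0 : (0 : ℝ) ≤ (d : ℝ) := Nat.cast_nonneg _
  have hd0' : (0 : ℝ) ≤ (d' : ℝ) := Nat.cast_nonneg _
  have hQ1 : 2 * ((d' - d) / 2) * (d * d') ≤ d' * (d * d') := Nat.mul_le_mul_right _ hg
  have hQ : 2 * ((d' - d) / 2) * (d * d') ≤ ⌊ℓ ^ (8 * B)⌋₊ := by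
    refine hQ1.trans (Nat.le_floor ?_)
    push_cast
    calc (d' : ℝ) * (d * d') ≤ ℓ ^ (2 * B) * (ℓ ^ (2 * B) * ℓ ^ (2 * B)) := by gcongr
      _ = ℓ ^ (6 * B) := by rw [← pow_add, ← pow_add]; congr 1; ring
      _ ≤ ℓ ^ (8 * B) := pow_le_pow_right₀ hℓ1 (by omega)
  have h2d : 2 * (d' * d') ≤ N := by
    have : (2 : ℝ) * (d' * d') ≤ N := by
      calc (2 : ℝ) * (d' * d') ≤ 2 * (ℓ ^ (2 * B) * ℓ ^ (2 * B)) := by gcongr
        _ = 2 * ℓ ^ (4 * B) := by rw [← pow_add]; congr 2; ring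
        _ ≤ N := by
          have : 0 ≤ ℓ ^ (4 * B) := by positivity
          linarith
    exact_mod_cast this
  have hQn : 2 * ((d' - d) / 2) * (d * d') < n := by
    refine lt_of_le_of_lt hQ1 ?_
    have h1 : d * (2 * (d' * d')) ≤ d * N := Nat.mul_le_mul_left _ h2d
    have h2 : d * (2 * (d' * d')) = 2 * (d' * (d * d')) := by ring
    omega
  have hX : n + (d' - d) / 2 * (4 * N) ≤ ⌊(N : ℝ) * ℓ ^ (8 * B)⌋₊ := by
    have h1 : n + (d' - d) / 2 * (4 * N) ≤ 4 * d * N + 2 * (d' * N) := by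
      have : (d' - d) / 2 * (4 * N) = 2 * ((d' - d) / 2) * (2 * N) := by ring
      rw [this]
      have h3 : 2 * ((d' - d) / 2) * (2 * N) ≤ d' * (2 * N) := Nat.mul_le_mul_right _ hg
      have h4 : d' * (2 * N) = 2 * (d' * N) := by ring
      omega
    refine h1.trans (Nat.le_floor ?_)
    push_cast
    calc (4 : ℝ) * d * N + 2 * (d' * N) ≤ 4 * ℓ ^ (2 * B) * N + 2 * (ℓ ^ (2 * B) * N) := by gcongr
      _ = N * (6 * ℓ ^ (2 * B)) := by ring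
      _ ≤ N * (ℓ * ℓ ^ (2 * B)) := by gcongr; linarith
      _ = N * ℓ ^ (2 * B + 1) := by rw [pow_succ]; ring
      _ ≤ N * ℓ ^ (8 * B) := by
        gcongr
        omega
  have key := inn_main hSW hη (fun d _ q => k d q) N d d' n
    ⟨fun A q => hk q, fun A q => hk' q⟩ hd hd' hd4 hd4' hdd hnp hQ hQn hX
  rw [F2_zero k d d' n hd hd' hd4 hd4' hdd h0 hs, mul_zero, abs_zero, mul_zero, zero_add] at key
  refine key.trans ?_
  calc (d : ℝ) * d' * (N * (ℓ ^ (8 * B))⁻¹) ≤ ℓ ^ (2 * B) * ℓ ^ (2 * B) * (N * (ℓ ^ (8 * B))⁻¹) := by gcongr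
    _ = N * (ℓ ^ (4 * B))⁻¹ := by
      have h1 : ℓ ^ (8 * B) = ℓ ^ (4 * B) * ℓ ^ (4 * B) := by rw [← pow_add]; congr 1; ring
      have h2 : ℓ ^ (2 * B) * ℓ ^ (2 * B) = ℓ ^ (4 * B) := by rw [← pow_add]; congr 1; ring
      have h3 : ℓ ^ (4 * B) ≠ 0 := by positivity
      rw [h1, h2]
      field_simp

theorem var2 (B : ℕ) (hB : 60 ≤ B) : ∀ᶠ N : ℕ in atTop, ∀ k : (d : ℕ) → ZMod d → ℝ,
    (∀ d ∈ DD B N, ∀ q, |k d q| ≤ 1) →
    (∀ (d : ℕ) [NeZero d], d ∈ DD B N → k d 0 = 0 ∧ ∑ q : ZMod d, k d q = 0) →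
    ∑ z ∈ Box N, (∑ d ∈ DD B N, wd B N d * (k d (z.2 : ZMod d) * th (nn d z.1 z.2))) ^ 2 ≤
      (N : ℝ) ^ 2 * (Real.log N ^ 10)⁻¹ := by
  have hlog : Tendsto (fun N : ℕ => Real.log (N : ℝ)) atTop atTop :=
    Real.tendsto_log_atTop.comp tendsto_natCast_atTop_atTop
  filter_upwards [params B (by omega), SWb_holds (8 * B), hlog.eventually_ge_atTop 100, h2_small B]
    with N hp hSW hℓ hN k hk hk0
  obtain ⟨hD, hw, hws, -⟩ := hp
  set ℓ := Real.log (N : ℝ) with hℓdef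
  have hℓ0 : 0 < ℓ := by linarith
  have hℓ1 : 1 ≤ ℓ := by linarith
  have hN0 : (0 : ℝ) ≤ (N : ℝ) := Nat.cast_nonneg _
  have h2B : 1 ≤ ℓ ^ (2 * B) := one_le_pow₀ hℓ1
  have hlogn : ∀ d ∈ DD B N, ∀ n, n ≤ 4 * d * N → |th n| ≤ 2 * ℓ := by
    intro d hd n hn
    obtain ⟨t0, t1⟩ := th_bounds n
    rw [abs_of_nonneg t0]
    refine t1.trans ?_
    rcases Nat.eq_zero_or_pos n with h | h
    · subst h
      simp only [Nat.cast_zero, Real.log_zero]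
      linarith
    have hn' : (n : ℝ) ≤ (N : ℝ) * N := by
      calc (n : ℝ) ≤ ((4 * d * N : ℕ) : ℝ) := by exact_mod_cast hn
        _ = 4 * d * N := by push_cast; ring
        _ ≤ 4 * ℓ ^ (2 * B) * N := by gcongr; exact (hD d hd).2.2.1
        _ ≤ 4 * ℓ ^ (4 * B) * N := by
          gcongr
          norm_num
        _ ≤ N * N := by gcongr
    have hNpos : (0 : ℝ) < N := by
      have : 0 < ℓ ^ (4 * B) := by positivity
      linarith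
    calc Real.log n ≤ Real.log ((N : ℝ) * N) := Real.log_le_log (by exact_mod_cast h) hn'
      _ = 2 * ℓ := by rw [Real.log_mul hNpos.ne' hNpos.ne']; ring
  have hE : ∀ d ∈ DD B N, ∀ d' ∈ DD B N, d < d' →
      ∑ n ∈ (range (4 * d * N)).filter (fun n => n % 2 = 1), |th n| * |INN (fun d _ q => k d q) th N d d' n| ≤
        8 * (N : ℝ) ^ 2 * ℓ * (ℓ ^ (2 * B))⁻¹ := by
    intro d hd d' hd' hdd
    obtain ⟨hp1, h41, hl1, -⟩ := hD d hd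
    obtain ⟨hp2, h42, hl2, -⟩ := hD d' hd'
    have : NeZero d' := ⟨hp2.ne_zero⟩
    have hterm : ∀ n ∈ (range (4 * d * N)).filter (fun n => n % 2 = 1),
        |th n| * |INN (fun d _ q => k d q) th N d d' n| ≤ 2 * ℓ * (N * (ℓ ^ (4 * B))⁻¹) := by
      intro n hn
      rw [mem_filter, mem_range] at hn
      by_cases hnp : n.Prime
      · have h1 := h2_inn B hℓ hN hB hSW k d d' n hp1 hp2 h41 h42 hdd hl1 hl2 (hk d hd) (hk d' hd')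
          (hk0 d' hd').1 (hk0 d' hd').2 hn.1 hnp
        have h2 := hlogn d hd n hn.1.le
        exact mul_le_mul h2 h1 (abs_nonneg _) (by positivity)
      · have : th n = 0 := by unfold th; rw [if_neg hnp]
        rw [this, abs_zero, zero_mul]
        positivity
    calc _ ≤ ∑ n ∈ (range (4 * d * N)).filter (fun n => n % 2 = 1), 2 * ℓ * (N * (ℓ ^ (4 * B))⁻¹) :=
          sum_le_sum hterm
      _ = (#((range (4 * d * N)).filter (fun n => n % 2 = 1)) : ℝ) * (2 * ℓ * (N * (ℓ ^ (4 * B))⁻¹)) := by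
          rw [sum_const, nsmul_eq_mul]
      _ ≤ ((4 * d * N : ℕ) : ℝ) * (2 * ℓ * (N * (ℓ ^ (4 * B))⁻¹)) := by
          gcongr
          calc _ ≤ #(range (4 * d * N)) := card_filter_le _ _
            _ = 4 * d * N := card_range _
      _ = 4 * d * N * (2 * ℓ * (N * (ℓ ^ (4 * B))⁻¹)) := by push_cast; ring
      _ ≤ 4 * ℓ ^ (2 * B) * N * (2 * ℓ * (N * (ℓ ^ (4 * B))⁻¹)) := by gcongr
      _ = 8 * (N : ℝ) ^ 2 * ℓ * (ℓ ^ (2 * B))⁻¹ := by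
          have h1 : ℓ ^ (4 * B) = ℓ ^ (2 * B) * ℓ ^ (2 * B) := by rw [← pow_add]; congr 1; ring
          have h3 : ℓ ^ (2 * B) ≠ 0 := by positivity
          rw [h1]
          field_simp
          ring
  have hvar := var_le N (DD B N) (fun d hd => (hD d hd).2.1) (wd B N) (fun d => (hw d).1)
    (fun d _ q => k d q) (fun d hd A q => hk d hd q) th (2 * ℓ)
    (8 * (N : ℝ) ^ 2 * ℓ * (ℓ ^ (2 * B))⁻¹) (by positivity) hlogn hE
  refine hvar.trans ?_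
  have hw2 : ∑ d ∈ DD B N, wd B N d ^ 2 ≤ 2 * (ℓ ^ (B - 1))⁻¹ := by
    calc ∑ d ∈ DD B N, wd B N d ^ 2 ≤ ∑ d ∈ DD B N, (ℓ ^ (B - 1))⁻¹ * wd B N d := by
          refine sum_le_sum fun d _ => ?_
          rw [pow_two]
          exact mul_le_mul_of_nonneg_right (hw d).2 (hw d).1
      _ = (ℓ ^ (B - 1))⁻¹ * ∑ d ∈ DD B N, wd B N d := by rw [mul_sum]
      _ ≤ (ℓ ^ (B - 1))⁻¹ * 2 := by gcongr
      _ = _ := mul_comm _ _
  have hws0 : 0 ≤ ∑ d ∈ DD B N, wd B N d := sum_nonneg fun d _ => (hw d).1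
  have hws2 : (∑ d ∈ DD B N, wd B N d) ^ 2 ≤ 4 := by nlinarith
  have e1 : (ℓ ^ (B - 1))⁻¹ ≤ (ℓ ^ 59)⁻¹ := by
    gcongr
    omega
  have e2 : (ℓ ^ (2 * B))⁻¹ ≤ (ℓ ^ 59)⁻¹ := by
    gcongr
    omega
  have e3 : ℓ ^ 2 * (ℓ ^ 59)⁻¹ ≤ (1 / 176) * (ℓ ^ 10)⁻¹ := by
    rw [show ℓ ^ 59 = ℓ ^ 2 * (ℓ ^ 10 * ℓ ^ 47) by ring]
    have h47 : 176 ≤ ℓ ^ 47 := by
      calc (176 : ℝ) ≤ 100 ^ 47 := by norm_num
        _ ≤ ℓ ^ 47 := by gcongr
    have h10 : 0 < ℓ ^ 10 := by positivity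
    rw [mul_inv, ← mul_assoc, mul_inv_cancel₀ (by positivity), one_mul, mul_inv, mul_comm (1 / 176 : ℝ)]
    gcongr
    rw [inv_le_comm₀ (by positivity) (by positivity)]
    norm_num
    exact h47
  have hpos : 0 < (ℓ ^ 59)⁻¹ := by positivity
  calc 9 * (N : ℝ) ^ 2 * (2 * ℓ) ^ 2 * ∑ d ∈ DD B N, wd B N d ^ 2 +
        8 * (N : ℝ) ^ 2 * ℓ * (ℓ ^ (2 * B))⁻¹ * (∑ d ∈ DD B N, wd B N d) ^ 2
      ≤ 9 * (N : ℝ) ^ 2 * (2 * ℓ) ^ 2 * (2 * (ℓ ^ 59)⁻¹) + 8 * (N : ℝ) ^ 2 * ℓ * (ℓ ^ 59)⁻¹ * 4 := by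
        gcongr
        exact hw2.trans (by linarith)
    _ ≤ 9 * (N : ℝ) ^ 2 * (2 * ℓ) ^ 2 * (2 * (ℓ ^ 59)⁻¹) + 8 * (N : ℝ) ^ 2 * ℓ ^ 2 * (ℓ ^ 59)⁻¹ * 4 := by
        gcongr
        exact le_self_pow₀ hℓ1 (by norm_num)
    _ = (N : ℝ) ^ 2 * (104 * (ℓ ^ 2 * (ℓ ^ 59)⁻¹)) := by ring
    _ ≤ (N : ℝ) ^ 2 * (104 * ((1 / 176) * (ℓ ^ 10)⁻¹)) := by gcongr
    _ ≤ (N : ℝ) ^ 2 * (ℓ ^ 10)⁻¹ := by
        have : 0 < (ℓ ^ 10)⁻¹ := by positivity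
        gcongr
        linarith

end Pool.Agent.LibKC40
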