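import Pool.Agent.LibKC40.M1
import Pool.Agent.LibKC40.G2a
import Pool.Agent.LibKC40.G3

/-!
Row M2 (MEDIUM). The inner sum for `f = th - lamw w`, `n` prime to `g = (d'-d)/2`.

PLAN. `JJ N d n` = odd `A` of an interval `(u,v]`, `v - u ≤ 3N/d + 1` (as in G2b). `∑ th(n + gA)`: `class_sum` with `m = 1`, `r = 1`
(`gcd(n + g, 2g) = 1`: `n` odd, `g` even, prime to `g`): `g (v-u)/φ(2g) + O(η)`. `∑ lamw (n + gA) = Ww w · #{..}`: `model_count`:
`Ww w ((v-u)/2 ∏_{p ∈ PrO w, p ∤ g} (1 - 1/p) + O(..))`. Identity `(Ww w / 2) ∏_{p ∈ PrO w, p ∤ g} (1 - 1/p) = ∏_{p ∈ PrO w, p ∣ g} p/(p-1)` and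
`g/φ(2g) = ∏_{p ∣ g, p odd} p/(p-1)` (`g` even). So the difference of the main terms is `(v-u) (g/φ(2g)) (1 - ∏_{p ∣ g, p > w} (1 - 1/p))`,
`≤ (v-u) (1 + log₂ g) (log₂ g / w)` (`totient_ge`; at most `log₂ g` prime factors, each `1/p ≤ 1/w`).
-/

set_option autoImplicit false

namespace Pool.Agent.LibKC40

open Finset Filter Pool.Agent.LibSW40

private theorem m2_one_sub (T : Finset ℕ) (f : ℕ → ℝ) (h0 : ∀ p ∈ T, 0 ≤ f p) (h1 : ∀ p ∈ T, f p ≤ 1) :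
    1 - ∑ p ∈ T, f p ≤ ∏ p ∈ T, (1 - f p) ∧ ∏ p ∈ T, (1 - f p) ≤ 1 ∧ 0 ≤ ∏ p ∈ T, (1 - f p) := by
  classical
  induction T using Finset.induction_on with
  | empty => simp
  | insert a T ha ih =>
    have h2 := ih (fun p hp => h0 p (mem_insert_of_mem hp)) (fun p hp => h1 p (mem_insert_of_mem hp))
    have h3 := h0 a (mem_insert_self _ _)
    have h4 := h1 a (mem_insert_self _ _)
    rw [sum_insert ha, prod_insert ha]
    obtain ⟨h5, h6, h7⟩ := h2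
    refine ⟨?_, ?_, ?_⟩
    · nlinarith [mul_nonneg h3 (sub_nonneg.2 h6)]
    · nlinarith [mul_nonneg h3 h7]
    · exact mul_nonneg (by linarith) h7

private theorem m2_eta {Q0 X : ℕ} {η : ℝ} (h : SWb Q0 X η) (hQ : 1 ≤ Q0) : 0 ≤ η := by
  have h1 := h 1 0 0 0 le_rfl hQ (Nat.coprime_one_right _) le_rfl (Nat.zero_le _)
  exact (abs_nonneg _).trans h1

/-- `JJ` is the set of the odd numbers of an interval -/
private theorem m2_JJ (N d n : ℕ) (hd : 0 < d) (hne : (JJ N d n).Nonempty) : ∃ u v : ℕ, u ≤ v ∧ v ≤ 4 * N ∧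
    ((v : ℝ) - u) ≤ 3 * N / d + 1 ∧ JJ N d n = (Ioc u v).filter (fun A => A % 2 = 1) := by
  obtain ⟨A0, hA0⟩ := hne
  unfold JJ at hA0
  rw [mem_filter, mem_Ioc] at hA0
  obtain ⟨⟨a1, a2⟩, a3, a4, a5⟩ := hA0
  have hN : N < 2 * n := by omega
  set v : ℕ := min (4 * N) ((2 * n - N - 1) / d) with hv
  set u : ℕ := max N ((2 * n - 4 * N + d - 1) / d - 1) with hu
  have hmem : ∀ A : ℕ, (A ∈ Ioc N (4 * N) ∧ d * A + N < 2 * n ∧ 2 * n ≤ d * A + 4 * N) ↔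
      A ∈ Ioc u v := by
    intro A
    rw [mem_Ioc, mem_Ioc, hv, hu, max_lt_iff, le_min_iff, Nat.le_div_iff_mul_le hd]
    constructor
    · rintro ⟨⟨b1, b2⟩, b3, b4⟩
      refine ⟨⟨b1, ?_⟩, b2, ?_⟩
      · have b5 : (2 * n - 4 * N + d - 1) / d ≤ A := by
          rw [Nat.div_le_iff_le_mul_add_pred hd]
          omega
        omega
      · rw [mul_comm A d]
        omega
    · rintro ⟨⟨b1, b2⟩, b3, b4⟩
      rw [mul_comm A d] at b4
      refine ⟨⟨b1, b3⟩, by omega, ?_⟩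
      have b5 : (2 * n - 4 * N + d - 1) / d ≤ A := by omega
      rw [Nat.div_le_iff_le_mul_add_pred hd] at b5
      omega
  have hA0' : A0 ∈ Ioc u v := (hmem A0).1 ⟨mem_Ioc.2 ⟨a1, a2⟩, a4, a5⟩
  rw [mem_Ioc] at hA0'
  refine ⟨u, v, by omega, min_le_left _ _, ?_, ?_⟩
  · have hd' : (0 : ℝ) < d := by exact_mod_cast hd
    have h1 : (v : ℝ) * d ≤ 2 * n - N - 1 := by
      have h2 : v * d ≤ 2 * n - N - 1 := (Nat.le_div_iff_mul_le hd).1 (min_le_right _ _)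
      have h3 : v * d + N + 1 ≤ 2 * n := by omega
      have h4 : ((v * d + N + 1 : ℕ) : ℝ) ≤ ((2 * n : ℕ) : ℝ) := by exact_mod_cast h3
      push_cast at h4
      linarith
    have h2 : (2 * (n : ℝ) - 4 * N) ≤ ((u : ℝ) + 1) * d := by
      have h3 : (2 * n - 4 * N + d - 1) / d ≤ u + 1 := by omega
      rw [Nat.div_le_iff_le_mul_add_pred hd] at h3
      have h4 : 2 * n ≤ d * (u + 1) + 4 * N := by omega
      have h5 : ((2 * n : ℕ) : ℝ) ≤ ((d * (u + 1) + 4 * N : ℕ) : ℝ) := by exact_mod_cast h4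
      push_cast at h5
      linarith
    have h3 : ((v : ℝ) - u) * d ≤ 3 * N + d := by nlinarith
    have h4 : 3 * (N : ℝ) / d + 1 = (3 * N + d) / d := by field_simp
    rw [h4, le_div_iff₀ hd']
    exact h3
  · unfold JJ
    ext A
    rw [mem_filter, mem_filter, ← hmem A]
    tauto

private theorem m2_PrA_eq (w : ℕ) (hw : 2 ≤ w) : PrA w = insert 2 (PrO w) := by
  ext p
  unfold PrA PrO
  rw [mem_filter, mem_insert, mem_filter, mem_Icc, mem_Icc]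
  constructor
  · rintro ⟨⟨h1, h2⟩, h3⟩
    by_cases h4 : p = 2
    · exact Or.inl h4
    · have := h3.two_le
      exact Or.inr ⟨⟨by omega, h2⟩, h3⟩
  · rintro (rfl | ⟨⟨h1, h2⟩, h3⟩)
    · exact ⟨⟨by norm_num, hw⟩, Nat.prime_two⟩
    · exact ⟨⟨by omega, h2⟩, h3⟩

private theorem m2_PrO {w p : ℕ} (h : p ∈ PrO w) : p.Prime ∧ 3 ≤ p ∧ p ≤ w := by
  unfold PrO at h
  rw [mem_filter, mem_Icc] at h
  exact ⟨h.2, h.1.1, h.1.2⟩

/-- `(W/2) ∏_{p ≤ w, p ∤ g} (1 - 1/p) = ∏_{p ≤ w, p ∣ g} p/(p-1)` -/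
private theorem m2_prod (w g : ℕ) (hw : 2 ≤ w) :
    Ww w / 2 * ∏ p ∈ (PrO w).filter (fun p => ¬ p ∣ g), (1 - 1 / (p : ℝ)) =
      ∏ p ∈ (PrO w).filter (fun p => p ∣ g), (p : ℝ) / ((p : ℝ) - 1) := by
  unfold Ww
  rw [m2_PrA_eq w hw, prod_insert (by unfold PrO; simp)]
  have h1 : ∏ p ∈ PrO w, (p : ℝ) / ((p : ℝ) - 1) =
      (∏ p ∈ (PrO w).filter (fun p => p ∣ g), (p : ℝ) / ((p : ℝ) - 1)) *
        ∏ p ∈ (PrO w).filter (fun p => ¬ p ∣ g), (p : ℝ) / ((p : ℝ) - 1) :=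
    (prod_filter_mul_prod_filter_not _ _ _).symm
  rw [h1]
  have h2 : (∏ p ∈ (PrO w).filter (fun p => ¬ p ∣ g), (p : ℝ) / ((p : ℝ) - 1)) *
      ∏ p ∈ (PrO w).filter (fun p => ¬ p ∣ g), (1 - 1 / (p : ℝ)) = 1 := by
    rw [← prod_mul_distrib]
    apply prod_eq_one
    intro p hp
    have hp1 := (m2_PrO (mem_filter.1 hp).1).2.1
    have hp2 : (3 : ℝ) ≤ p := by exact_mod_cast hp1
    have hp3 : (p : ℝ) - 1 ≠ 0 := by linarith
    have hp4 : (p : ℝ) ≠ 0 := by linarith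
    field_simp
  push_cast
  calc (2 : ℝ) / (2 - 1) * ((∏ p ∈ (PrO w).filter (fun p => p ∣ g), (p : ℝ) / ((p : ℝ) - 1)) *
        ∏ p ∈ (PrO w).filter (fun p => ¬ p ∣ g), (p : ℝ) / ((p : ℝ) - 1)) / 2 *
        ∏ p ∈ (PrO w).filter (fun p => ¬ p ∣ g), (1 - 1 / (p : ℝ))
      = (∏ p ∈ (PrO w).filter (fun p => p ∣ g), (p : ℝ) / ((p : ℝ) - 1)) *
        ((∏ p ∈ (PrO w).filter (fun p => ¬ p ∣ g), (p : ℝ) / ((p : ℝ) - 1)) *
        ∏ p ∈ (PrO w).filter (fun p => ¬ p ∣ g), (1 - 1 / (p : ℝ))) := by ring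
    _ = _ := by rw [h2, mul_one]

private theorem m2_totient (g : ℕ) (hg : 0 < g) :
    ((g.totient : ℕ) : ℝ) = g * ∏ p ∈ g.primeFactors, (1 - 1 / (p : ℝ)) := by
  have h := Nat.totient_eq_mul_prod_factors g
  have h2 : ((g.totient : ℚ) : ℝ) = ((g * ∏ p ∈ g.primeFactors, (1 - (p : ℚ)⁻¹) : ℚ) : ℝ) := by
    rw [h]
  push_cast at h2
  rw [h2]
  congr 1
  apply prod_congr rfl
  intro p _
  rw [one_div]

/-- the difference of the main terms -/
private theorem m2_diff (w g : ℕ) (hw : 2 ≤ w) (hg : 0 < g) (hg2 : g % 2 = 0) :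
    |(g : ℝ) / ((2 * g).totient : ℝ) -
      Ww w / 2 * ∏ p ∈ (PrO w).filter (fun p => ¬ p ∣ g), (1 - 1 / (p : ℝ))| ≤
      (1 + Nat.log 2 g) * (Nat.log 2 g / w) := by
  rw [m2_prod w g hw]
  have hwR : (0 : ℝ) < w := by exact_mod_cast (by omega : 0 < w)
  have hgR : (0 : ℝ) < g := by exact_mod_cast hg
  set S : Finset ℕ := (PrO w).filter (fun p => p ∣ g) with hS
  set T : Finset ℕ := g.primeFactors.filter (fun p => w < p) with hT
  have hpf : g.primeFactors = insert 2 (S ∪ T) := by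
    ext p
    rw [mem_insert, mem_union, hS, hT, mem_filter, mem_filter, Nat.mem_primeFactors]
    unfold PrO
    rw [mem_filter, mem_Icc]
    constructor
    · rintro ⟨h1, h2, h3⟩
      by_cases h4 : p = 2
      · exact Or.inl h4
      · have := h1.two_le
        rcases le_or_gt p w with h5 | h5
        · exact Or.inr (Or.inl ⟨⟨⟨by omega, h5⟩, h1⟩, h2⟩)
        · exact Or.inr (Or.inr ⟨⟨h1, h2, h3⟩, h5⟩)
    · rintro (rfl | ⟨⟨⟨h1, h2⟩, h3⟩, h4⟩ | ⟨h1, h2⟩)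
      · exact ⟨Nat.prime_two, Nat.dvd_of_mod_eq_zero hg2, hg.ne'⟩
      · exact ⟨h3, h4, hg.ne'⟩
      · exact h1
  have hST : Disjoint S T := by
    rw [Finset.disjoint_left]
    intro p hp hp'
    have h1 := (m2_PrO (mem_filter.1 hp).1).2.2
    have h2 := (mem_filter.1 hp').2
    omega
  have h2n : (2 : ℕ) ∉ S ∪ T := by
    rw [mem_union]
    rintro (h | h)
    · have := (m2_PrO (mem_filter.1 h).1).2.1
      omega
    · have := (mem_filter.1 h).2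
      omega
  have hTp : ∀ p ∈ T, p.Prime ∧ w < p := by
    intro p hp
    rw [hT, mem_filter] at hp
    exact ⟨Nat.prime_of_mem_primeFactors hp.1, hp.2⟩
  have htot2 : ((2 * g).totient : ℝ) = 2 * (g.totient : ℝ) := by
    have : (2 * g).totient = 2 * g.totient :=
      Nat.totient_mul_of_prime_of_dvd Nat.prime_two (Nat.dvd_of_mod_eq_zero hg2)
    rw [this]
    push_cast
    ring
  have htot : (g.totient : ℝ) = g * (1 / 2 * ((∏ p ∈ S, (1 - 1 / (p : ℝ))) * ∏ p ∈ T, (1 - 1 / (p : ℝ)))) := by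
    rw [m2_totient g hg, hpf, prod_insert h2n, prod_union hST]
    norm_num
  have hSpos : 0 < ∏ p ∈ S, (1 - 1 / (p : ℝ)) := by
    apply prod_pos
    intro p hp
    have h1 := (m2_PrO (mem_filter.1 hp).1).2.1
    have h2 : (3 : ℝ) ≤ p := by exact_mod_cast h1
    have h3 : 1 / (p : ℝ) < 1 := by
      rw [div_lt_one (by linarith)]
      linarith
    linarith
  have hTle : ∀ p ∈ T, 1 / (p : ℝ) ≤ 1 / w := by
    intro p hp
    have h1 : (w : ℝ) ≤ p := by exact_mod_cast (hTp p hp).2.le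
    exact one_div_le_one_div_of_le hwR h1
  have hTf : ∀ p ∈ T, 0 < 1 - 1 / (p : ℝ) ∧ 1 - 1 / (p : ℝ) ≤ 1 := by
    intro p hp
    have h1 : (2 : ℝ) ≤ p := by exact_mod_cast (hTp p hp).1.two_le
    have h3 : 1 / (p : ℝ) < 1 := by
      rw [div_lt_one (by linarith)]
      linarith
    have h4 : 0 ≤ 1 / (p : ℝ) := by positivity
    exact ⟨by linarith, by linarith⟩
  have hTpos : 0 < ∏ p ∈ T, (1 - 1 / (p : ℝ)) := prod_pos fun p hp => (hTf p hp).1
  -- number of large prime factors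
  have hcard : (#T : ℝ) ≤ Nat.log 2 g := by
    have h1 : 2 ^ #T ≤ g := by
      calc 2 ^ #T = ∏ p ∈ T, 2 := by rw [prod_const]
        _ ≤ ∏ p ∈ T, p := prod_le_prod' fun p hp => (hTp p hp).1.two_le
        _ ≤ ∏ p ∈ g.primeFactors, p := by
            apply prod_le_prod_of_subset_of_one_le' (filter_subset _ _)
            intro p hp _
            exact (Nat.prime_of_mem_primeFactors hp).one_le
        _ ≤ g := Nat.le_of_dvd hg (Nat.prod_primeFactors_dvd g)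
    have h2 : #T ≤ Nat.log 2 g := Nat.le_log_of_pow_le (by norm_num) h1
    exact_mod_cast h2
  have hlow : 1 - (#T : ℝ) * (1 / w) ≤ ∏ p ∈ T, (1 - 1 / (p : ℝ)) := by
    have h1 : 1 - ∑ p ∈ T, 1 / (p : ℝ) ≤ ∏ p ∈ T, (1 - 1 / (p : ℝ)) :=
      (m2_one_sub T (fun p => 1 / (p : ℝ)) (fun p _ => by positivity)
        (fun p hp => by linarith [(hTf p hp).1])).1
    have h2 : ∑ p ∈ T, 1 / (p : ℝ) ≤ (#T : ℝ) * (1 / w) := by
      calc ∑ p ∈ T, 1 / (p : ℝ) ≤ ∑ p ∈ T, (1 / (w : ℝ)) := sum_le_sum hTle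
        _ = _ := by rw [sum_const, nsmul_eq_mul]
    linarith
  have hP1 : ∏ p ∈ S, (p : ℝ) / ((p : ℝ) - 1) = (∏ p ∈ S, (1 - 1 / (p : ℝ)))⁻¹ := by
    rw [← prod_inv_distrib]
    apply prod_congr rfl
    intro p hp
    have h1 := (m2_PrO (mem_filter.1 hp).1).2.1
    have h2 : (3 : ℝ) ≤ p := by exact_mod_cast h1
    have hp3 : (p : ℝ) - 1 ≠ 0 := by linarith
    have hp4 : (p : ℝ) ≠ 0 := by linarith
    rw [one_sub_div hp4, inv_div]
  set PS : ℝ := ∏ p ∈ S, (1 - 1 / (p : ℝ)) with hPS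
  set PT : ℝ := ∏ p ∈ T, (1 - 1 / (p : ℝ)) with hPT
  have hG : (g : ℝ) / ((2 * g).totient : ℝ) = (PS * PT)⁻¹ := by
    rw [htot2, htot]
    have := hSpos.ne'
    have := hTpos.ne'
    field_simp
  have hGle : (PS * PT)⁻¹ ≤ 1 + Nat.log 2 g := by
    rw [← hG]
    have h1 := totient_ge g hg
    have h2 : (0 : ℝ) < ((2 * g).totient : ℝ) := by
      exact_mod_cast Nat.totient_pos.2 (by omega)
    rw [div_le_iff₀ h2, mul_comm]
    exact h1
  rw [hG, hP1]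
  have h3 : (PS * PT)⁻¹ - PS⁻¹ = (PS * PT)⁻¹ * (1 - PT) := by
    have := hSpos.ne'
    have := hTpos.ne'
    field_simp
  have hPT1 : PT ≤ 1 := prod_le_one (fun p hp => (hTf p hp).1.le) (fun p hp => (hTf p hp).2)
  have hinv : 0 < (PS * PT)⁻¹ := by positivity
  rw [h3, abs_of_nonneg (mul_nonneg hinv.le (by linarith))]
  have h4 : 1 - PT ≤ Nat.log 2 g / w := by
    have h5 : (#T : ℝ) * (1 / w) ≤ Nat.log 2 g / w := by
      rw [mul_one_div]
      gcongr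
    linarith
  exact mul_le_mul hGle h4 (by linarith) (by positivity)

theorem inn_good (K1 K : ℕ) : ∀ᶠ N : ℕ in atTop, ∀ w : ℕ, 2 ≤ w → (w : ℝ) ≤ Real.log N ^ K1 →
    ∀ (Q0 X : ℕ) (η : ℝ), SWb Q0 X η → ∀ d d' n : ℕ, 0 < d → d % 4 = 3 → d' % 4 = 3 → d < d' → d' - d ≤ Q0 →
      d' - d < n → n % 2 = 1 → n.Coprime ((d' - d) / 2) → n + (d' - d) / 2 * (4 * N) ≤ X →
      |INN (fun _ _ _ => 1) (fun m => th m - lamw w m) N d d' n| ≤
        (3 * N / d + 1) * ((1 + Nat.log 2 d') ^ 2 / w + Ww w * (Real.log N ^ K)⁻¹) +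
          Ww w * Real.sqrt N + η := by
  classical
  filter_upwards [model_count K1 K] with N hN
  intro w hw hwN Q0 X η hSW d d' n hd hd4 hd4' hdd hQ hdn hn hcop hX
  have hdR : (0 : ℝ) < d := by exact_mod_cast hd
  have hwR : (0 : ℝ) < w := by exact_mod_cast (by omega : 0 < w)
  have hη : 0 ≤ η := m2_eta hSW (by omega)
  obtain ⟨C, _, hWb⟩ := Ww_bounds
  have hWw : 0 ≤ Ww w := (Real.log_nonneg (by exact_mod_cast (by omega : 1 ≤ w))).trans (hWb w hw).1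
  have hlogK : 0 ≤ (Real.log N ^ K)⁻¹ := by
    have : 0 ≤ Real.log (N : ℝ) := Real.log_natCast_nonneg N
    positivity
  rcases (JJ N d n).eq_empty_or_nonempty with hJ | hJ
  · unfold INN
    rw [hJ, sum_empty, abs_zero]
    positivity
  obtain ⟨u, v, huv, hv4, hlen, hJe⟩ := m2_JJ N d n hd hJ
  obtain ⟨g, hg⟩ : ∃ g, g = (d' - d) / 2 := ⟨_, rfl⟩
  have hg0 : 0 < g := by omega
  have hg2 : g % 2 = 0 := by omega
  have hgd : 2 * g = d' - d := by omega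
  have hgd' : g ≤ d' := by omega
  have huvR : (0 : ℝ) ≤ (v : ℝ) - u := by
    have : (u : ℝ) ≤ v := by exact_mod_cast huv
    linarith
  rw [← hg] at hcop hX
  -- the primes
  have hS1 := class_sum hSW g 1 n 1 u v hg0 rfl rfl (by omega) (by omega) huv
    (le_trans (by gcongr) hX)
  have hcop2 : (n + g * 1).Coprime (2 * g * 1) := by
    rw [mul_one, mul_one]
    have h1 : (n + g).Coprime g := by
      rw [Nat.coprime_add_self_left]
      exact hcop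
    have h2 : (n + g).Coprime 2 := by
      rw [Nat.coprime_two_right, Nat.odd_iff]
      omega
    exact Nat.Coprime.mul_right h2 h1
  rw [if_pos hcop2] at hS1
  have hfil : (Ioc u v).filter (fun A => A % 2 = 1 ∧ A ≡ 1 [MOD 1]) =
      (Ioc u v).filter (fun A => A % 2 = 1) := by
    apply filter_congr
    intro A _
    exact ⟨fun h => h.1, fun h => ⟨h, Nat.modEq_one⟩⟩
  rw [hfil, mul_one] at hS1
  -- the model
  have hS2 := hN w hw hwN g n u v hg2 hg0 hn ?_ huv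
  swap
  · rintro p hp ⟨h1, h2⟩
    have h3 : p.Prime := by
      unfold PrA at hp
      exact (mem_filter.1 hp).2
    have h4 : p ∣ Nat.gcd n g := Nat.dvd_gcd h1 h2
    rw [Nat.Coprime] at hcop
    rw [hcop] at h4
    exact h3.one_lt.ne' (Nat.dvd_one.1 h4)
  have hlam : ∑ A ∈ (Ioc u v).filter (fun A => A % 2 = 1), lamw w (n + g * A) =
      Ww w * (#((Ioc u v).filter fun A => A % 2 = 1 ∧ ∀ p ∈ PrA w, ¬ p ∣ n + g * A) : ℝ) := by
    unfold lamw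
    rw [← sum_filter, filter_filter, sum_const, nsmul_eq_mul, mul_comm]
  have hINN : INN (fun _ _ _ => 1) (fun m => th m - lamw w m) N d d' n =
      (∑ A ∈ (Ioc u v).filter (fun A => A % 2 = 1), th (n + g * A)) -
        ∑ A ∈ (Ioc u v).filter (fun A => A % 2 = 1), lamw w (n + g * A) := by
    unfold INN
    rw [hJe, ← sum_sub_distrib, hg]
    apply sum_congr rfl
    intro A _
    ring
  rw [hINN, hlam]
  set S1 : ℝ := ∑ A ∈ (Ioc u v).filter (fun A => A % 2 = 1), th (n + g * A) with hS1d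
  set c2 : ℝ := (#((Ioc u v).filter fun A => A % 2 = 1 ∧ ∀ p ∈ PrA w, ¬ p ∣ n + g * A) : ℝ) with hc2
  set Pn : ℝ := ∏ p ∈ (PrO w).filter (fun p => ¬ p ∣ g), (1 - 1 / (p : ℝ)) with hPn
  have hD := m2_diff w g hw hg0 hg2
  rw [← hPn] at hD
  have hlogle : (Nat.log 2 g : ℝ) ≤ Nat.log 2 d' := by
    exact_mod_cast Nat.log_mono_right hgd'
  have hD2 : (1 + (Nat.log 2 g : ℝ)) * (Nat.log 2 g / w) ≤ (1 + Nat.log 2 d') ^ 2 / w := by
    have h0 : (0 : ℝ) ≤ Nat.log 2 g := by positivity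
    rw [← mul_div_assoc, sq]
    gcongr
    linarith
  have e1 : S1 - Ww w * c2 = (S1 - (g : ℝ) * ((v : ℝ) - u) / ((2 * g).totient : ℝ)) +
      ((v : ℝ) - u) * ((g : ℝ) / ((2 * g).totient : ℝ) - Ww w / 2 * Pn) -
      Ww w * (c2 - ((v : ℝ) - u) / 2 * Pn) := by
    ring
  rw [e1]
  have b1 : |((v : ℝ) - u) * ((g : ℝ) / ((2 * g).totient : ℝ) - Ww w / 2 * Pn)| ≤
      (3 * N / d + 1) * ((1 + Nat.log 2 d') ^ 2 / w) := by
    rw [abs_mul, abs_of_nonneg huvR]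
    exact mul_le_mul hlen (hD.trans hD2) (abs_nonneg _) (by positivity)
  have b2 : |Ww w * (c2 - ((v : ℝ) - u) / 2 * Pn)| ≤
      Ww w * ((3 * N / d + 1) * (Real.log N ^ K)⁻¹ + Real.sqrt N) := by
    rw [abs_mul, abs_of_nonneg hWw]
    refine mul_le_mul_of_nonneg_left (hS2.trans ?_) hWw
    gcongr
  have b3 := abs_sub (S1 - (g : ℝ) * ((v : ℝ) - u) / ((2 * g).totient : ℝ) +
      ((v : ℝ) - u) * ((g : ℝ) / ((2 * g).totient : ℝ) - Ww w / 2 * Pn))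
      (Ww w * (c2 - ((v : ℝ) - u) / 2 * Pn))
  have b4 := abs_add_le (S1 - (g : ℝ) * ((v : ℝ) - u) / ((2 * g).totient : ℝ))
      (((v : ℝ) - u) * ((g : ℝ) / ((2 * g).totient : ℝ) - Ww w / 2 * Pn))
  calc _ ≤ η + (3 * N / d + 1) * ((1 + Nat.log 2 d') ^ 2 / w) +
        Ww w * ((3 * N / d + 1) * (Real.log N ^ K)⁻¹ + Real.sqrt N) := by linarith
    _ = _ := by ring

end Pool.Agent.LibKC40
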