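import Pool.Agent.LibKC40.G1
import Pool.Agent.LibKC40.M2
import Pool.Agent.LibKC40.M3
import Pool.Agent.LibKC40.H0

/-!
Row H3 (MEDIUM). Third variance: `th` against the model `lamw`, `w = ww N`.

PLAN. `var_le` with the weights `w d = wd B N d * δ d`, `κ = 1`, `f = th - lamw w`, `L = 3 log N` (`th ≤ log(4dN) ≤ 2 log N`, `lamw ≤ Ww ≤ log N`).
`K = 8B`. For `d < d'`, `g = (d'-d)/2`, `n` odd `< 4dN`, `n > dN/2` (else `INN = 0`). If `gcd(n,g) = 1`: `inn_good 20 K`: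
`|INN| ≤ (3N/d + 1)((1 + log₂ d')²/w + log N (log N)^(-K)) + log N √N + η`, `w ≥ (log N)^19`; sum over `n` `≤ 4dN · 3 log N · |INN| ≤ N² (log N)^(-15)`. If
`gcd(n,g) > 1`: `th n = 0` (`n > g`; a prime `n` would divide `g`), so `lamw w n ≠ 0`: `bad_card` (`≤ log₂ g · 4dN/w` such `n`), `INN_le` (`≤ (3N/d + 1) 3 log N`):
`≤ 3 log N · log₂ g (4dN/w)(3N/d + 1) 3 log N ≤ N² (log N)^(-15)`. Diagonal as in H1.
-/

set_option autoImplicit false

namespace Pool.Agent.LibKC40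

open Finset Filter Pool.Agent.LibSW40

private theorem h3_core {B : ℕ} (hB : 60 ≤ B) {l s D w g : ℝ} (hl : 1000 ≤ l) (hD : 0 < D)
    (hDl : D ≤ l ^ (2 * B)) (hs : l ^ (8 * B + 3) ≤ s) (hw : l ^ 19 ≤ w) (hg : g ≤ l) :
    4 * D * s ^ 2 * (2 * l * (8 * s ^ 2 / D * (l ^ 17)⁻¹ + l * s + s ^ 2 * (l ^ (8 * B))⁻¹)) +
      g * (4 * D * s ^ 2 / w) * (l * (4 * s ^ 2 / D * (2 * l))) ≤ (s ^ 2) ^ 2 * (l ^ 15)⁻¹ := by
  have hl0 : 0 < l := by linarith
  have hl1 : 1 ≤ l := by linarith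
  have hs0 : 0 < s := lt_of_lt_of_le (by positivity) hs
  have hw0 : 0 < w := lt_of_lt_of_le (by positivity) hw
  have t1 : 4 * D * s ^ 2 * (2 * l * (8 * s ^ 2 / D * (l ^ 17)⁻¹)) =
      64 * ((s ^ 2) ^ 2 * (l ^ 16)⁻¹) := by
    field_simp
    ring
  have t2 : 4 * D * s ^ 2 * (2 * l * (l * s)) ≤ (s ^ 2) ^ 2 * (l ^ 16)⁻¹ := by
    have h1 : D * l ^ 18 * 8 ≤ s := by
      calc D * l ^ 18 * 8 ≤ l ^ (2 * B) * l ^ 18 * l := by
            refine mul_le_mul (mul_le_mul_of_nonneg_right hDl (by positivity)) (by linarith)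
              (by norm_num) (by positivity)
        _ = l ^ (2 * B + 19) := by ring
        _ ≤ l ^ (8 * B + 3) := pow_le_pow_right₀ hl1 (by omega)
        _ ≤ s := hs
    have h2 : 4 * D * s ^ 2 * (2 * l * (l * s)) = D * l ^ 18 * 8 * (s ^ 3 * (l ^ 16)⁻¹) := by
      field_simp
      ring
    rw [h2]
    calc D * l ^ 18 * 8 * (s ^ 3 * (l ^ 16)⁻¹) ≤ s * (s ^ 3 * (l ^ 16)⁻¹) :=
          mul_le_mul_of_nonneg_right h1 (by positivity)
      _ = (s ^ 2) ^ 2 * (l ^ 16)⁻¹ := by ring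
  have t3 : 4 * D * s ^ 2 * (2 * l * (s ^ 2 * (l ^ (8 * B))⁻¹)) ≤ (s ^ 2) ^ 2 * (l ^ 16)⁻¹ := by
    have h1 : D * l ^ 17 * 8 ≤ l ^ (8 * B) := by
      calc D * l ^ 17 * 8 ≤ l ^ (2 * B) * l ^ 17 * l := by
            refine mul_le_mul (mul_le_mul_of_nonneg_right hDl (by positivity)) (by linarith)
              (by norm_num) (by positivity)
        _ = l ^ (2 * B + 18) := by ring
        _ ≤ l ^ (8 * B) := pow_le_pow_right₀ hl1 (by omega)
    have h2 : 4 * D * s ^ 2 * (2 * l * (s ^ 2 * (l ^ (8 * B))⁻¹)) =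
        D * l ^ 17 * 8 * ((s ^ 2) ^ 2 * (l ^ 16)⁻¹ * (l ^ (8 * B))⁻¹) := by
      have : l ^ 17 * (l ^ 16)⁻¹ = l := by field_simp
      calc 4 * D * s ^ 2 * (2 * l * (s ^ 2 * (l ^ (8 * B))⁻¹)) =
            D * l * 8 * ((s ^ 2) ^ 2 * (l ^ (8 * B))⁻¹) := by ring
        _ = D * (l ^ 17 * (l ^ 16)⁻¹) * 8 * ((s ^ 2) ^ 2 * (l ^ (8 * B))⁻¹) := by rw [this]
        _ = _ := by ring
    rw [h2]
    calc D * l ^ 17 * 8 * ((s ^ 2) ^ 2 * (l ^ 16)⁻¹ * (l ^ (8 * B))⁻¹) ≤
          l ^ (8 * B) * ((s ^ 2) ^ 2 * (l ^ 16)⁻¹ * (l ^ (8 * B))⁻¹) :=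
          mul_le_mul_of_nonneg_right h1 (by positivity)
      _ = (s ^ 2) ^ 2 * (l ^ 16)⁻¹ * (l ^ (8 * B) * (l ^ (8 * B))⁻¹) := by ring
      _ = (s ^ 2) ^ 2 * (l ^ 16)⁻¹ := by rw [mul_inv_cancel₀ (by positivity), mul_one]
  have t4 : g * (4 * D * s ^ 2 / w) * (l * (4 * s ^ 2 / D * (2 * l))) ≤
      32 * ((s ^ 2) ^ 2 * (l ^ 16)⁻¹) := by
    have h1 : 4 * D * s ^ 2 / w ≤ 4 * D * s ^ 2 / l ^ 19 :=
      div_le_div_of_nonneg_left (by positivity) (by positivity) hw
    calc g * (4 * D * s ^ 2 / w) * (l * (4 * s ^ 2 / D * (2 * l))) ≤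
          l * (4 * D * s ^ 2 / l ^ 19) * (l * (4 * s ^ 2 / D * (2 * l))) := by
          refine mul_le_mul_of_nonneg_right ?_ (by positivity)
          exact mul_le_mul hg h1 (by positivity) hl0.le
      _ = 32 * ((s ^ 2) ^ 2 * (l ^ 16)⁻¹) := by
          field_simp
          ring
  have t5 : 98 * ((s ^ 2) ^ 2 * (l ^ 16)⁻¹) ≤ (s ^ 2) ^ 2 * (l ^ 15)⁻¹ := by
    have h1 : (l ^ 15)⁻¹ = l * (l ^ 16)⁻¹ := by field_simp
    rw [h1]
    have h2 : 0 ≤ (s ^ 2) ^ 2 * (l ^ 16)⁻¹ := by positivity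
    nlinarith
  have e : 4 * D * s ^ 2 * (2 * l * (8 * s ^ 2 / D * (l ^ 17)⁻¹ + l * s + s ^ 2 * (l ^ (8 * B))⁻¹)) =
      4 * D * s ^ 2 * (2 * l * (8 * s ^ 2 / D * (l ^ 17)⁻¹)) + 4 * D * s ^ 2 * (2 * l * (l * s)) +
      4 * D * s ^ 2 * (2 * l * (s ^ 2 * (l ^ (8 * B))⁻¹)) := by ring
  rw [e]
  linarith

private theorem h3_fin {B : ℕ} (hB : 60 ≤ B) {l M : ℝ} (hl : 1000 ≤ l) (hM : 0 ≤ M) :
    9 * M * (2 * l) ^ 2 * (2 * (l ^ (B - 1))⁻¹) + M * (l ^ 15)⁻¹ * 2 ^ 2 ≤ M * (l ^ 10)⁻¹ := by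
  have hl0 : 0 < l := by linarith
  have hl1 : 1 ≤ l := by linarith
  have h1 : (l ^ (B - 1))⁻¹ ≤ (l ^ 17)⁻¹ :=
    inv_anti₀ (by positivity) (pow_le_pow_right₀ hl1 (by omega))
  have h2 : 9 * M * (2 * l) ^ 2 * (2 * (l ^ (B - 1))⁻¹) ≤ 9 * M * (2 * l) ^ 2 * (2 * (l ^ 17)⁻¹) :=
    mul_le_mul_of_nonneg_left (by linarith) (by positivity)
  have h3 : 9 * M * (2 * l) ^ 2 * (2 * (l ^ 17)⁻¹) = 72 * (M * (l ^ 15)⁻¹) := by
    field_simp
    ring
  have h4 : (l ^ 10)⁻¹ = l ^ 5 * (l ^ 15)⁻¹ := by field_simp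
  have h5 : 1000 ≤ l ^ 5 := hl.trans (le_self_pow₀ hl1 (by norm_num))
  have h6 : 0 ≤ M * (l ^ 15)⁻¹ := by positivity
  rw [h4]
  nlinarith

theorem var3 (B : ℕ) (hB : 60 ≤ B) : ∀ᶠ N : ℕ in atTop, ∀ δ : ℕ → ℝ, (∀ d ∈ DD B N, 0 ≤ δ d ∧ δ d ≤ 1) →
    ∑ z ∈ Box N, (∑ d ∈ DD B N, wd B N d * (δ d * (th (nn d z.1 z.2) - lamw (ww N) (nn d z.1 z.2)))) ^ 2 ≤
      (N : ℝ) ^ 2 * (Real.log N ^ 10)⁻¹ := by
  have hlog : Tendsto (fun N : ℕ => Real.log N) atTop atTop :=
    Real.tendsto_log_atTop.comp tendsto_natCast_atTop_atTop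
  have hpow : ∀ᶠ N : ℕ in atTop, Real.log N ^ (2 * (8 * B + 3)) ≤ N := by
    have h := (Real.isLittleO_pow_log_id_atTop (n := 2 * (8 * B + 3))).bound one_pos
    have h' := (tendsto_natCast_atTop_atTop (R := ℝ)).eventually h
    filter_upwards [h', hlog.eventually_ge_atTop 0] with N hN hl
    rw [one_mul, Real.norm_of_nonneg (pow_nonneg hl _), id_eq,
      Real.norm_of_nonneg (Nat.cast_nonneg N)] at hN
    exact hN
  filter_upwards [params B (by omega), ww_params, SWb_holds (8 * B), inn_good 20 (8 * B),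
    hlog.eventually_ge_atTop 1000, hpow] with N hpar hww hSW hinn hl hpw
  intro δ hδ
  set l : ℝ := Real.log N with hl_def
  obtain ⟨hDD, hwd, hsum, -⟩ := hpar
  obtain ⟨hw2, hw20, hw19, hW1, hWl⟩ := hww
  have hl0 : 0 < l := by linarith
  have hl1 : 1 ≤ l := by linarith
  have hN0 : (0 : ℝ) < N := lt_of_lt_of_le (by positivity) hpw
  have hN0' : 0 < N := by exact_mod_cast hN0
  set s : ℝ := √(N : ℝ) with hs_def
  have hs0 : 0 < s := Real.sqrt_pos.2 hN0
  have hsN : s ^ 2 = N := Real.sq_sqrt hN0.le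
  have hs : l ^ (8 * B + 3) ≤ s := by
    apply Real.le_sqrt_of_sq_le
    rw [← pow_mul, mul_comm]
    exact hpw
  have hs1 : 1 ≤ s := (one_le_pow₀ hl1).trans hs
  have hsN' : s ≤ N := by
    rw [← hsN]
    nlinarith
  have hlB : ∀ m : ℕ, m ≤ 8 * B + 3 → l ^ m ≤ s := fun m hm =>
    (pow_le_pow_right₀ hl1 hm).trans hs
  -- size of `f`
  have hlogm : ∀ m : ℕ, (m : ℝ) ≤ (N : ℝ) ^ 2 → Real.log m ≤ 2 * l := by
    intro m hm
    rcases Nat.eq_zero_or_pos m with h0 | h0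
    · rw [h0, Nat.cast_zero, Real.log_zero]
      linarith
    · have h1 : (0 : ℝ) < m := by exact_mod_cast h0
      have h2 := Real.log_le_log h1 hm
      rw [Real.log_pow] at h2
      exact_mod_cast h2
  have hfm : ∀ m : ℕ, (m : ℝ) ≤ (N : ℝ) ^ 2 → |th m - lamw (ww N) m| ≤ 2 * l := by
    intro m hm
    have h1 := th_bounds m
    have h2 := lamw_bounds (ww N) m
    have h3 := hlogm m hm
    rw [abs_le]
    constructor <;> linarith
  have hd8 : ∀ d ∈ DD B N, 8 * (d : ℝ) ≤ s := by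
    intro d hd
    have h1 := (hDD d hd).2.2.1
    calc 8 * (d : ℝ) ≤ l * l ^ (2 * B) := mul_le_mul (by linarith) h1 (Nat.cast_nonneg d) hl0.le
      _ = l ^ (2 * B + 1) := by ring
      _ ≤ s := hlB _ (by omega)
  have h4dN : ∀ d ∈ DD B N, 4 * (d : ℝ) * N ≤ (N : ℝ) ^ 2 := by
    intro d hd
    have h1 := hd8 d hd
    have h2 : (0 : ℝ) ≤ d := Nat.cast_nonneg d
    have h3 : 4 * (d : ℝ) ≤ N := by linarith
    rw [sq]
    exact mul_le_mul_of_nonneg_right h3 hN0.le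
  have hE : ∀ d ∈ DD B N, ∀ d' ∈ DD B N, d < d' →
      ∑ n ∈ (range (4 * d * N)).filter (fun n => n % 2 = 1), |th n - lamw (ww N) n| *
        |INN (fun _ _ _ => 1) (fun m => th m - lamw (ww N) m) N d d' n| ≤
          (N : ℝ) ^ 2 * (l ^ 15)⁻¹ := by
    intro d hd d' hd' hdd
    obtain ⟨hdp, hd4, hdl, -⟩ := hDD d hd
    obtain ⟨hdp', hd4', hdl', -⟩ := hDD d' hd'
    set g : ℕ := (d' - d) / 2 with hg_def
    have hg : 0 < g := by omega
    have hgd : g ≤ d' := by omega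
    have hd0 : (0 : ℝ) < d := by exact_mod_cast hdp.pos
    have hd0' : (0 : ℝ) < d' := by exact_mod_cast hdp'.pos
    have hd1 : (1 : ℝ) ≤ d := by exact_mod_cast hdp.one_lt.le
    have h8 := hd8 d hd
    have h8' := hd8 d' hd'
    have hNd' : 4 * d' ≤ N := by
      have : 4 * (d' : ℝ) ≤ N := by linarith
      exact_mod_cast this
    -- `log₂ d'`
    have hlg : 1 + (Nat.log 2 d' : ℝ) ≤ l := by
      have h1 : ((2 : ℕ) : ℝ) ^ (Nat.log 2 d') ≤ (d' : ℝ) := by
        exact_mod_cast Nat.pow_log_le_self 2 hdp'.pos.ne'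
      have h2 := Real.log_le_log (by positivity) (h1.trans (show (d' : ℝ) ≤ s by linarith))
      rw [Real.log_pow, hs_def, Real.log_sqrt hN0.le] at h2
      have h3 := Real.log_two_gt_d9
      have h4 : (0 : ℝ) ≤ Nat.log 2 d' := Nat.cast_nonneg _
      have h5 : (Nat.log 2 d' : ℝ) * 0.69 ≤ (Nat.log 2 d' : ℝ) * Real.log ((2 : ℕ) : ℝ) := by
        refine mul_le_mul_of_nonneg_left ?_ h4
        push_cast
        linarith
      linarith
    have hlgg : (Nat.log 2 g : ℝ) ≤ l := by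
      have h1 : (Nat.log 2 g : ℝ) ≤ Nat.log 2 d' := by
        exact_mod_cast Nat.log_mono_right hgd
      linarith
    have h3N : 3 * (N : ℝ) / d + 1 ≤ 4 * N / d := by
      have h1 : (1 : ℝ) ≤ N / d := by
        rw [le_div_iff₀ hd0]
        linarith
      have h2 : 4 * (N : ℝ) / d = 3 * N / d + N / d := by ring
      rw [h2]
      linarith
    have hX : ∀ n : ℕ, n < 4 * d * N → (n : ℝ) + (g : ℝ) * (4 * N) ≤ s * N := by
      intro n hn
      have h1 : (n : ℝ) ≤ 4 * d * N := by exact_mod_cast hn.le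
      have h2 : (g : ℝ) ≤ d' := by exact_mod_cast hgd
      have h3 : (g : ℝ) * (4 * N) ≤ d' * (4 * N) := mul_le_mul_of_nonneg_right h2 (by positivity)
      have h4 : 4 * (d : ℝ) * N ≤ s / 2 * N := mul_le_mul_of_nonneg_right (by linarith) hN0.le
      have h5 : (d' : ℝ) * (4 * N) ≤ s / 2 * N := by
        calc (d' : ℝ) * (4 * N) = 4 * d' * N := by ring
          _ ≤ s / 2 * N := mul_le_mul_of_nonneg_right (by linarith) hN0.le
      linarith
    set G : ℝ := 8 * N / d * (l ^ 17)⁻¹ + l * s + N * (l ^ (8 * B))⁻¹ with hG_def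
    have hG0 : 0 ≤ G := by positivity
    -- the coprime case
    have hgood : ∀ n : ℕ, n < 4 * d * N → n % 2 = 1 → d * N < 2 * n → n.Coprime g →
        |INN (fun _ _ _ => 1) (fun m => th m - lamw (ww N) m) N d d' n| ≤ G := by
      intro n hn hodd hn2 hc
      have hNn : N < 2 * n := lt_of_le_of_lt (Nat.le_mul_of_pos_left N hdp.pos) hn2
      have hQ : d' - d ≤ ⌊l ^ (8 * B)⌋₊ := by
        apply Nat.le_floor
        have h1 : ((d' - d : ℕ) : ℝ) ≤ d' := by exact_mod_cast Nat.sub_le d' d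
        have h2 : l ^ (2 * B) ≤ l ^ (8 * B) := pow_le_pow_right₀ hl1 (by omega)
        linarith
      have hXn : n + (d' - d) / 2 * (4 * N) ≤ ⌊(N : ℝ) * l ^ (8 * B)⌋₊ := by
        apply Nat.le_floor
        have h1 : (n : ℝ) + (g : ℝ) * (4 * N) ≤ (N : ℝ) * l ^ (8 * B) := by
          have h1 : (n : ℝ) ≤ 4 * d * N := by exact_mod_cast hn.le
          have h2 : (g : ℝ) ≤ d' := by exact_mod_cast hgd
          have h3 : (g : ℝ) * (4 * N) ≤ d' * (4 * N) :=
            mul_le_mul_of_nonneg_right h2 (by positivity)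
          have h4 : 8 * l ^ (2 * B) ≤ l ^ (8 * B) := by
            calc 8 * l ^ (2 * B) ≤ l * l ^ (2 * B) :=
                  mul_le_mul_of_nonneg_right (by linarith) (by positivity)
              _ = l ^ (2 * B + 1) := by ring
              _ ≤ l ^ (8 * B) := pow_le_pow_right₀ hl1 (by omega)
          calc (n : ℝ) + (g : ℝ) * (4 * N) ≤ (4 * d + 4 * d') * N := by linarith
            _ ≤ (8 * l ^ (2 * B)) * N := mul_le_mul_of_nonneg_right (by linarith) hN0.le
            _ ≤ l ^ (8 * B) * N := mul_le_mul_of_nonneg_right h4 hN0.le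
            _ = (N : ℝ) * l ^ (8 * B) := mul_comm _ _
        rw [hg_def] at h1
        exact_mod_cast h1
      have h1 := hinn (ww N) hw2 hw20 _ _ _ hSW d d' n hdp.pos hd4 hd4' hdd hQ (by omega) hodd hc hXn
      have h2 : (1 + (Nat.log 2 d' : ℝ)) ^ 2 / (ww N : ℝ) ≤ (l ^ 17)⁻¹ := by
        have h3 : (1 + (Nat.log 2 d' : ℝ)) ^ 2 ≤ l ^ 2 :=
          pow_le_pow_left₀ (by positivity) hlg 2
        calc (1 + (Nat.log 2 d' : ℝ)) ^ 2 / (ww N : ℝ) ≤ l ^ 2 / l ^ 19 :=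
              div_le_div₀ (by positivity) h3 (by positivity) hw19
          _ = (l ^ 17)⁻¹ := by field_simp
      have h3 : Ww (ww N) * (l ^ (8 * B))⁻¹ ≤ (l ^ 17)⁻¹ := by
        have h4 : (l ^ (8 * B))⁻¹ ≤ (l ^ 18)⁻¹ :=
          inv_anti₀ (by positivity) (pow_le_pow_right₀ hl1 (by omega))
        calc Ww (ww N) * (l ^ (8 * B))⁻¹ ≤ l * (l ^ 18)⁻¹ :=
              mul_le_mul hWl h4 (by positivity) hl0.le
          _ = (l ^ 17)⁻¹ := by field_simp
      have h4 : Ww (ww N) * √(N : ℝ) ≤ l * s := mul_le_mul_of_nonneg_right hWl hs0.le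
      have h5 : (3 * (N : ℝ) / d + 1) * ((1 + (Nat.log 2 d' : ℝ)) ^ 2 / (ww N : ℝ) +
          Ww (ww N) * (l ^ (8 * B))⁻¹) ≤ 4 * N / d * (2 * (l ^ 17)⁻¹) := by
        refine mul_le_mul h3N (by linarith) ?_ (by positivity)
        have : 0 ≤ Ww (ww N) := by linarith
        positivity
      have h6 : 4 * (N : ℝ) / d * (2 * (l ^ 17)⁻¹) = 8 * N / d * (l ^ 17)⁻¹ := by ring
      rw [hG_def]
      linarith
    -- pointwise
    have hpt : ∀ n ∈ (range (4 * d * N)).filter (fun n => n % 2 = 1),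
        |th n - lamw (ww N) n| * |INN (fun _ _ _ => 1) (fun m => th m - lamw (ww N) m) N d d' n| ≤
          2 * l * G + if n ∈ Icc 1 (4 * d * N) ∧ lamw (ww N) n ≠ 0 ∧ ¬ n.Coprime g then
            l * (4 * N / d * (2 * l)) else 0 := by
      intro n hn
      rw [mem_filter, mem_range] at hn
      obtain ⟨hnM, hodd⟩ := hn
      have hite : (0 : ℝ) ≤ if n ∈ Icc 1 (4 * d * N) ∧ lamw (ww N) n ≠ 0 ∧ ¬ n.Coprime g then
            l * (4 * N / d * (2 * l)) else 0 := by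
        split_ifs
        · positivity
        · exact le_rfl
      have hnN : (n : ℝ) ≤ (N : ℝ) ^ 2 := by
        have h1 : (n : ℝ) ≤ 4 * d * N := by exact_mod_cast hnM.le
        exact h1.trans (h4dN d hd)
      have hfn := hfm n hnN
      by_cases h2 : 2 * n ≤ d * N
      · have h0 : INN (fun _ _ _ => 1) (fun m => th m - lamw (ww N) m) N d d' n = 0 := by
          unfold INN
          rw [JJ_empty N d n h2, sum_empty]
        rw [h0, abs_zero, mul_zero]
        positivity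
      · push Not at h2
        by_cases hc : n.Coprime g
        · have h3 := mul_le_mul hfn (hgood n hnM hodd h2 hc) (abs_nonneg _) (by positivity)
          linarith
        · have hNn : N < 2 * n := lt_of_le_of_lt (Nat.le_mul_of_pos_left N hdp.pos) h2
          have hth : th n = 0 := by
            unfold th
            rw [if_neg]
            intro hp
            apply hc
            rw [hp.coprime_iff_not_dvd]
            intro hdvd
            have := Nat.le_of_dvd hg hdvd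
            omega
          by_cases hlam : lamw (ww N) n = 0
          · rw [hth, hlam, sub_zero, abs_zero, zero_mul]
            positivity
          · have hb := lamw_bounds (ww N) n
            have h3 : |th n - lamw (ww N) n| ≤ l := by
              rw [hth, zero_sub, abs_neg, abs_of_nonneg hb.1]
              linarith
            have h4 : |INN (fun _ _ _ => 1) (fun m => th m - lamw (ww N) m) N d d' n| ≤
                4 * N / d * (2 * l) := by
              have h5 := INN_le (fun _ _ _ => 1) (fun m => th m - lamw (ww N) m) N d d' n (2 * l)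
                ⟨fun _ _ => by simp, fun _ _ => by simp⟩ (fun m hm => by
                  apply hfm
                  have h6 : (m : ℝ) ≤ (n : ℝ) + (g : ℝ) * (4 * N) := by
                    rw [hg_def]
                    exact_mod_cast hm
                  have h7 := hX n hnM
                  have h8 : s * (N : ℝ) ≤ (N : ℝ) ^ 2 := by
                    rw [sq]
                    exact mul_le_mul_of_nonneg_right hsN' hN0.le
                  linarith) hdp.pos (by positivity)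
              exact h5.trans (mul_le_mul_of_nonneg_right h3N (by positivity))
            rw [if_pos ⟨mem_Icc.2 ⟨by omega, hnM.le⟩, hlam, hc⟩]
            have h5 := mul_le_mul h3 h4 (abs_nonneg _) hl0.le
            have h6 : 0 ≤ 2 * l * G := by positivity
            linarith
    refine (sum_le_sum hpt).trans ?_
    rw [sum_add_distrib, sum_const, nsmul_eq_mul, ← sum_filter, sum_const, nsmul_eq_mul]
    have hc1 : ((#((range (4 * d * N)).filter (fun n => n % 2 = 1)) : ℕ) : ℝ) ≤ 4 * d * N := by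
      have h1 : #((range (4 * d * N)).filter (fun n => n % 2 = 1)) ≤ 4 * d * N :=
        (card_filter_le _ _).trans (card_range _).le
      exact_mod_cast h1
    have hc2 : ((#(((range (4 * d * N)).filter (fun n => n % 2 = 1)).filter
        (fun n => n ∈ Icc 1 (4 * d * N) ∧ lamw (ww N) n ≠ 0 ∧ ¬ n.Coprime g)) : ℕ) : ℝ) ≤
          Nat.log 2 g * (4 * d * N / (ww N : ℝ)) := by
      have h1 := bad_card (ww N) g (4 * d * N) (by omega) hg
      have h2 : (((range (4 * d * N)).filter (fun n => n % 2 = 1)).filter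
          (fun n => n ∈ Icc 1 (4 * d * N) ∧ lamw (ww N) n ≠ 0 ∧ ¬ n.Coprime g)) ⊆
            (Icc 1 (4 * d * N)).filter fun n => lamw (ww N) n ≠ 0 ∧ ¬ n.Coprime g := by
        intro n hn
        rw [mem_filter] at hn
        exact mem_filter.2 ⟨hn.2.1, hn.2.2⟩
      have h3 : ((#(((range (4 * d * N)).filter (fun n => n % 2 = 1)).filter
        (fun n => n ∈ Icc 1 (4 * d * N) ∧ lamw (ww N) n ≠ 0 ∧ ¬ n.Coprime g)) : ℕ) : ℝ) ≤ _ :=
        Nat.cast_le.2 (card_le_card h2)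
      refine h3.trans (h1.trans_eq ?_)
      push_cast
      ring
    have hcore := h3_core hB hl hd0 hdl hs hw19 hlgg
    rw [hsN] at hcore
    have hA : ((#((range (4 * d * N)).filter (fun n => n % 2 = 1)) : ℕ) : ℝ) * (2 * l * G) ≤
        4 * d * N * (2 * l * G) := mul_le_mul_of_nonneg_right hc1 (by positivity)
    have hB' := mul_le_mul_of_nonneg_right hc2
      (show (0 : ℝ) ≤ l * (4 * N / d * (2 * l)) by positivity)
    linarith
  have hfin := var_le N (DD B N) (fun d hd => (hDD d hd).2.1)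
    (fun d => if d ∈ DD B N then wd B N d * δ d else 0) (fun d => by
      show (0 : ℝ) ≤ if d ∈ DD B N then wd B N d * δ d else 0
      split_ifs with h
      · exact mul_nonneg (hwd d).1 (hδ d h).1
      · exact le_rfl) (fun _ _ _ => 1) (fun _ _ _ _ => by simp)
    (fun m => th m - lamw (ww N) m) (2 * l) ((N : ℝ) ^ 2 * (l ^ 15)⁻¹) (by positivity)
    (fun d hd n hn => by
      apply hfm
      have h1 : (n : ℝ) ≤ 4 * d * N := by exact_mod_cast hn
      exact h1.trans (h4dN d hd)) hE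
  have hL : ∑ z ∈ Box N, (∑ d ∈ DD B N, wd B N d *
      (δ d * (th (nn d z.1 z.2) - lamw (ww N) (nn d z.1 z.2)))) ^ 2 =
      ∑ z ∈ Box N, (∑ d ∈ DD B N, (if d ∈ DD B N then wd B N d * δ d else 0) *
        (1 * (th (nn d z.1 z.2) - lamw (ww N) (nn d z.1 z.2)))) ^ 2 := by
    refine sum_congr rfl fun z _ => ?_
    congr 1
    refine sum_congr rfl fun d hd => ?_
    rw [if_pos hd]
    ring
  rw [hL]
  refine hfin.trans ?_
  have hw1 : ∑ d ∈ DD B N, (if d ∈ DD B N then wd B N d * δ d else 0) ≤ 2 := by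
    refine (sum_le_sum fun d hd => ?_).trans hsum
    rw [if_pos hd]
    exact mul_le_of_le_one_right (hwd d).1 (hδ d hd).2
  have hw0 : 0 ≤ ∑ d ∈ DD B N, (if d ∈ DD B N then wd B N d * δ d else 0) := by
    refine sum_nonneg fun d hd => ?_
    rw [if_pos hd]
    exact mul_nonneg (hwd d).1 (hδ d hd).1
  have hwsq : ∑ d ∈ DD B N, (if d ∈ DD B N then wd B N d * δ d else 0) ^ 2 ≤
      2 * (l ^ (B - 1))⁻¹ := by
    calc ∑ d ∈ DD B N, (if d ∈ DD B N then wd B N d * δ d else 0) ^ 2 ≤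
          ∑ d ∈ DD B N, (if d ∈ DD B N then wd B N d * δ d else 0) * (l ^ (B - 1))⁻¹ := by
          refine sum_le_sum fun d hd => ?_
          rw [if_pos hd, sq]
          refine mul_le_mul_of_nonneg_left ?_ (mul_nonneg (hwd d).1 (hδ d hd).1)
          exact (mul_le_of_le_one_right (hwd d).1 (hδ d hd).2).trans (hwd d).2
      _ = (∑ d ∈ DD B N, (if d ∈ DD B N then wd B N d * δ d else 0)) * (l ^ (B - 1))⁻¹ := by
          rw [sum_mul]
      _ ≤ 2 * (l ^ (B - 1))⁻¹ := mul_le_mul_of_nonneg_right hw1 (by positivity)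
  have hF := h3_fin hB hl (show (0 : ℝ) ≤ (N : ℝ) ^ 2 by positivity)
  have hA := mul_le_mul_of_nonneg_left hwsq
    (show (0 : ℝ) ≤ 9 * (N : ℝ) ^ 2 * (2 * l) ^ 2 by positivity)
  have hC := mul_le_mul_of_nonneg_left (pow_le_pow_left₀ hw0 hw1 2)
    (show (0 : ℝ) ≤ (N : ℝ) ^ 2 * (l ^ 15)⁻¹ by positivity)
  linarith

end Pool.Agent.LibKC40
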