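import Pool.Agent.LibKC40.H0

/-!
Row H4 (SHORT/MEDIUM). The model sum is bounded below for every admissible pair.

PLAN. `dsieve`: constants `b, c`; `B₀ = 20 b + 60`; `x = xx B N`, `(ww N)^b ≤ (log N)^(20 b) ≤ e^x`. For `d ∈ DD B N`: `2 · nn d A q = d A + q`, `nn` odd (parities), so
`lamw (ww N) (nn d A q) = Ww (ww N)` iff no `p ∈ PrO (ww N)` divides `d A + q`. `Ww w ≥ log w`.
-/

set_option autoImplicit false

namespace Pool.Agent.LibKC40

open Finset Filter Pool.Agent.LibSW40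

private theorem h4_par (d A q : ℕ) (hd : d % 4 = 3) (hA : A % 2 = 1) (hq : q % 4 = (A + 2) % 4) :
    2 * nn d A q = d * A + q ∧ nn d A q % 2 = 1 := by
  have h1 : (d * A + q) % 4 = 2 := by
    have hA4 : A % 4 = 1 ∨ A % 4 = 3 := by omega
    rcases hA4 with h | h
    · have hq' : q % 4 = 3 := by omega
      rw [Nat.add_mod, Nat.mul_mod, hd, h, hq']
    · have hq' : q % 4 = 1 := by omega
      rw [Nat.add_mod, Nat.mul_mod, hd, h, hq']
  unfold nn
  constructor <;> omega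

private theorem h4_ind (w d A q : ℕ) (hd : d % 4 = 3) (hA : A % 2 = 1) (hq : q % 4 = (A + 2) % 4)
    (h : ∀ p ∈ PrO w, ¬ p ∣ d * A + q) : ∀ p ∈ PrA w, ¬ p ∣ nn d A q := by
  intro p hp hdv
  obtain ⟨h2, hodd⟩ := h4_par d A q hd hA hq
  unfold PrA at hp
  rw [mem_filter, mem_Icc] at hp
  obtain ⟨⟨h1, hw⟩, hpp⟩ := hp
  rcases Nat.lt_or_ge p 3 with hlt | hge
  · have : p = 2 := by have := hpp.two_le; omega
    subst this
    omega
  · refine h p ?_ ?_
    · unfold PrO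
      rw [mem_filter, mem_Icc]
      exact ⟨⟨hge, hw⟩, hpp⟩
    · rw [← h2]
      exact hdv.mul_left 2

private theorem h4_loglog : Tendsto (fun N : ℕ => Real.log (Real.log (N : ℝ))) atTop atTop :=
  Real.tendsto_log_atTop.comp (Real.tendsto_log_atTop.comp tendsto_natCast_atTop_atTop)

open scoped Classical in
theorem model_low : ∃ (B₀ : ℕ) (c : ℝ), 60 ≤ B₀ ∧ 0 < c ∧ ∀ B : ℕ, B₀ ≤ B → ∀ᶠ N : ℕ in atTop, ∀ A q : ℕ,
    A % 2 = 1 → q % 4 = (A + 2) % 4 → (∀ p ∈ PrA (ww N), ¬ p ∣ A ∧ ¬ p ∣ q) →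
      c ≤ ∑ d ∈ DD B N, wd B N d * lamw (ww N) (nn d A q) := by
  obtain ⟨b, c, hc, hev⟩ := dsieve
  obtain ⟨C, hC, hW⟩ := Ww_bounds
  refine ⟨20 * b + 60, c, by omega, hc, ?_⟩
  intro B hB
  have hB2 : 2 ≤ B := by omega
  have hBpos : (0 : ℝ) < (B : ℝ) := by exact_mod_cast (by omega : 0 < B)
  have hxx : Tendsto (fun N : ℕ => xx B N) atTop atTop := by
    unfold xx
    exact h4_loglog.const_mul_atTop hBpos
  have hlog : ∀ᶠ N : ℕ in atTop, (1 : ℝ) ≤ Real.log (N : ℝ) :=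
    (Real.tendsto_log_atTop.comp tendsto_natCast_atTop_atTop).eventually_ge_atTop 1
  filter_upwards [hxx.eventually hev, params B hB2, ww_params, hlog] with N h1 h2 h3 h4
  intro A q hA hq hAq
  obtain ⟨hw2, hwU, hwL, hW1, hW2⟩ := h3
  obtain ⟨hd1, hd2, hd3, hd4⟩ := h2
  set L : ℝ := Real.log (N : ℝ) with hL
  have hLpos : 0 < L := by linarith
  have hexp : Real.exp (xx B N) = L ^ B := by
    unfold xx
    rw [← hL, mul_comm, ← Real.rpow_natCast L B, Real.rpow_def_of_pos hLpos]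
  have hpow : ((ww N : ℕ) : ℝ) ^ b ≤ Real.exp (xx B N) := by
    rw [hexp]
    calc ((ww N : ℕ) : ℝ) ^ b ≤ (L ^ 20) ^ b := by
          exact pow_le_pow_left₀ (Nat.cast_nonneg _) hwU b
      _ = L ^ (20 * b) := by rw [← pow_mul]
      _ ≤ L ^ B := pow_le_pow_right₀ h4 (by omega)
  have hPO : ∀ p ∈ PrO (ww N), ¬ p ∣ A ∧ ¬ p ∣ q := by
    intro p hp
    apply hAq
    unfold PrO at hp
    unfold PrA
    rw [mem_filter, mem_Icc] at hp ⊢
    exact ⟨⟨by omega, hp.1.2⟩, hp.2⟩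
  have hs := h1 (ww N) hw2 hpow A q hPO
  have hlogw : 0 < Real.log ((ww N : ℕ) : ℝ) := by
    apply Real.log_pos
    exact_mod_cast (by omega : 1 < ww N)
  have hWlog : Real.log ((ww N : ℕ) : ℝ) ≤ Ww (ww N) := (hW (ww N) hw2).1
  have hWpos : 0 ≤ Ww (ww N) := by linarith
  calc c = (c / Real.log ((ww N : ℕ) : ℝ)) * Real.log ((ww N : ℕ) : ℝ) := by
        field_simp
    _ ≤ (c / Real.log ((ww N : ℕ) : ℝ)) * Ww (ww N) :=
        mul_le_mul_of_nonneg_left hWlog (by positivity)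
    _ ≤ (∑ d ∈ dR (xx B N), LibPL63.wp (xx B N) d * (if ∀ p ∈ PrO (ww N), ¬ p ∣ d * A + q then 1 else 0))
          * Ww (ww N) := mul_le_mul_of_nonneg_right (by convert hs using 6) hWpos
    _ ≤ ∑ d ∈ DD B N, wd B N d * lamw (ww N) (nn d A q) := by
        rw [sum_mul]
        unfold DD
        apply sum_le_sum
        intro d hd
        have hdD : d ∈ DD B N := hd
        obtain ⟨-, hd4', -, -⟩ := hd1 d hdD
        have hwd := (hd2 d).1
        unfold wd at hwd ⊢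
        rw [mul_assoc]
        apply mul_le_mul_of_nonneg_left _ hwd
        unfold lamw
        by_cases hi : ∀ p ∈ PrO (ww N), ¬ p ∣ d * A + q
        · rw [if_pos hi, if_pos (h4_ind (ww N) d A q hd4' hA hq hi)]
          linarith
        · rw [if_neg hi]
          split_ifs <;> linarith

end Pool.Agent.LibKC40
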