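import Pool.Agent.LibKC40.E5

/-!
Row H5a (SHORT/MEDIUM). Decomposition of the local condition.

PLAN. For `q ≠ 0` let `del d q = #{A : NegP a A q}/(d-2) ∈ [0,1]` (`NegP` forces `A ≠ 0, A ≠ q`: at most `d - 2` values), `del d 0 = 0`;
`δ d = #(NegS a)/((d-1)(d-2))`; `κ₁ d A q = 1_{NegP} - del d q · 1_{A ≠ 0, q ≠ 0, q ≠ A}`, `k₂ d q = if q = 0 then 0 else del d q - δ d`. `δ ≥ 1/9` by `negS_ge`.
(`a ≢ 0` modulo `d` for `d > |a|`.) Define everything by `if h : d.Prime then .. else 0` with a local `Fact`.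
-/

set_option autoImplicit false

namespace Pool.Agent.LibKC40

open Finset

open scoped Classical in
private theorem h5a_one {d : ℕ} [Fact d.Prime] (α : ZMod d) (hd : 3 ≤ d)
    (h9 : (d : ℝ) ^ 2 / 9 ≤ #(NegS α)) :
    ∃ (κ : ZMod d → ZMod d → ℝ) (k : ZMod d → ℝ) (δ : ℝ), (∀ A q, |κ A q| ≤ 1) ∧
      (∀ q, ∑ A : ZMod d, κ A q = 0) ∧ (∀ q, |k q| ≤ 1) ∧ k 0 = 0 ∧ ∑ q : ZMod d, k q = 0 ∧
      1 / 9 ≤ δ ∧ δ ≤ 1 ∧ ∀ A q : ZMod d, A ≠ 0 → q ≠ 0 → q ≠ A →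
        (if NegP α A q then (1 : ℝ) else 0) = κ A q + k q + δ := by
  obtain ⟨g, hg⟩ : ∃ g : ZMod d → ZMod d → ℝ, g = fun A q =>
    if A ≠ 0 ∧ q ≠ 0 ∧ q ≠ A then 1 else 0 := ⟨_, rfl⟩
  obtain ⟨N, hN⟩ : ∃ N : ZMod d → ZMod d → ℝ, N = fun A q =>
    if NegP α A q then 1 else 0 := ⟨_, rfl⟩
  obtain ⟨c, hc⟩ : ∃ c : ZMod d → ℝ, c = fun q => ∑ A : ZMod d, N A q := ⟨_, rfl⟩
  have hN0 : ∀ A q, 0 ≤ N A q := fun A q => by
    rw [hN]
    dsimp only
    split_ifs <;> norm_num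
  have hN1 : ∀ A q, N A q ≤ 1 := fun A q => by
    rw [hN]
    dsimp only
    split_ifs <;> norm_num
  have hNg : ∀ A q, N A q ≤ g A q := fun A q => by
    rw [hN, hg]
    dsimp only
    by_cases h : NegP α A q
    · rw [if_pos h, if_pos ⟨h.1, h.2.1, h.2.2.1⟩]
    · rw [if_neg h]
      split_ifs <;> norm_num
  have hg01 : ∀ A q, g A q = 0 ∨ g A q = 1 := fun A q => by
    rw [hg]
    dsimp only
    split_ifs
    · exact Or.inr rfl
    · exact Or.inl rfl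
  have hd3 : (3 : ℝ) ≤ d := by exact_mod_cast hd
  have hgs : ∀ q, q ≠ 0 → ∑ A : ZMod d, g A q = d - 2 := by
    intro q hq
    rw [hg]
    simp only
    rw [Finset.sum_boole]
    have e1 : (univ.filter fun A : ZMod d => A ≠ 0 ∧ q ≠ 0 ∧ q ≠ A) = (univ.erase 0).erase q := by
      ext A
      simp only [mem_filter, mem_univ, true_and, mem_erase, and_true]
      constructor
      · rintro ⟨h1, -, h3⟩
        exact ⟨Ne.symm h3, h1⟩
      · rintro ⟨h1, h2⟩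
        exact ⟨h2, hq, Ne.symm h1⟩
    rw [e1, card_erase_of_mem (mem_erase.2 ⟨hq, mem_univ q⟩), card_erase_of_mem (mem_univ 0),
      card_univ, ZMod.card]
    have e2 : ((d - 1 - 1 : ℕ) : ℝ) = (d : ℝ) - 2 := by
      rw [show d - 1 - 1 = d - 2 by omega, Nat.cast_sub (by omega)]
      norm_num
    exact e2
  have hg0 : ∀ A, g A 0 = 0 := fun A => by
    rw [hg]
    simp
  have hNz : ∀ A, N A 0 = 0 := fun A => le_antisymm ((hNg A 0).trans (hg0 A).le) (hN0 A 0)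
  have hc0 : c 0 = 0 := by
    rw [hc]
    exact Finset.sum_eq_zero fun A _ => hNz A
  have hcn : ∀ q, 0 ≤ c q := fun q => by
    rw [hc]
    exact Finset.sum_nonneg fun A _ => hN0 A q
  have hcd : ∀ q, c q ≤ d - 2 := by
    intro q
    by_cases hq : q = 0
    · rw [hq, hc0]
      linarith
    · rw [← hgs q hq, hc]
      exact Finset.sum_le_sum fun A _ => hNg A q
  have hD : 0 < (d : ℝ) - 2 := by linarith
  have hS : ((#(NegS α) : ℕ) : ℝ) = ∑ q : ZMod d, c q := by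
    rw [hc, Finset.sum_comm, ← Fintype.sum_prod_type' N, hN, NegS, ← Finset.sum_boole]
  have hcs : ∑ q : ZMod d, c q ≤ (d - 1) * (d - 2) := by
    have e1 : ∀ q : ZMod d, c q ≤ (d - 2) - if q = 0 then ((d : ℝ) - 2) else 0 := by
      intro q
      by_cases hq : q = 0
      · rw [if_pos hq, hq, hc0, sub_self]
      · rw [if_neg hq, sub_zero]
        exact hcd q
    refine (Finset.sum_le_sum fun q _ => e1 q).trans (le_of_eq ?_)
    rw [Finset.sum_sub_distrib, Finset.sum_ite_eq' univ (0 : ZMod d), if_pos (mem_univ _),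
      Finset.sum_const, card_univ, ZMod.card, nsmul_eq_mul]
    ring
  obtain ⟨δ, hδ⟩ : ∃ δ : ℝ, δ = (∑ q : ZMod d, c q) / ((d - 1) * (d - 2)) := ⟨_, rfl⟩
  have hD1 : 0 < (d : ℝ) - 1 := by linarith
  have hDD : 0 < ((d : ℝ) - 1) * (d - 2) := by positivity
  have hδ1 : δ ≤ 1 := by
    rw [hδ, div_le_one hDD]
    exact hcs
  have hδ9 : 1 / 9 ≤ δ := by
    rw [hδ, le_div_iff₀ hDD, ← hS]
    nlinarith
  have hdel0 : ∀ q, 0 ≤ c q / (d - 2) := fun q => div_nonneg (hcn q) hD.le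
  have hdel1 : ∀ q, c q / (d - 2) ≤ 1 := fun q => by
    rw [div_le_one hD]
    exact hcd q
  refine ⟨fun A q => N A q - c q / (d - 2) * g A q,
    fun q => if q = 0 then 0 else c q / (d - 2) - δ, δ, ?_, ?_, ?_, ?_, ?_, hδ9, hδ1, ?_⟩
  · intro A q
    have h1 := hN0 A q
    have h2 := hN1 A q
    have h3 := hNg A q
    have h4 := hdel0 q
    have h5 := hdel1 q
    dsimp only
    rw [abs_le]
    rcases hg01 A q with h6 | h6
    · rw [h6] at h3 ⊢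
      constructor <;> linarith
    · rw [h6]
      constructor <;> linarith
  · intro q
    dsimp only
    rw [Finset.sum_sub_distrib, ← Finset.mul_sum]
    by_cases hq : q = 0
    · rw [hq]
      rw [Finset.sum_eq_zero fun A _ => hNz A, Finset.sum_eq_zero fun A _ => hg0 A]
      ring
    · rw [hgs q hq, div_mul_cancel₀ _ hD.ne', hc]
      simp
  · intro q
    dsimp only
    split_ifs with hq
    · norm_num
    · rw [abs_le]
      have h4 := hdel0 q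
      have h5 := hdel1 q
      constructor <;> linarith
  · simp
  · have e1 : ∀ q : ZMod d, (if q = 0 then (0 : ℝ) else c q / (d - 2) - δ) =
        c q / (d - 2) - (δ - if q = 0 then δ else 0) := by
      intro q
      by_cases hq : q = 0
      · rw [if_pos hq, if_pos hq, hq, hc0]
        ring
      · rw [if_neg hq, if_neg hq]
        ring
    rw [Finset.sum_congr rfl fun q _ => e1 q, Finset.sum_sub_distrib, Finset.sum_sub_distrib,
      ← Finset.sum_div, Finset.sum_ite_eq' univ (0 : ZMod d), if_pos (mem_univ _),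
      Finset.sum_const, card_univ, ZMod.card, nsmul_eq_mul, hδ]
    field_simp
    ring
  · intro A q hA hq hqA
    have h1 : g A q = 1 := by
      rw [hg]
      exact if_pos ⟨hA, hq, hqA⟩
    have h2 : N A q = if NegP α A q then (1 : ℝ) else 0 := by rw [hN]
    dsimp only
    rw [h1, if_neg hq, h2]
    ring

open scoped Classical in
theorem local_decomp (a : ℤ) (ha : a ≠ 0) : ∃ (d₀ : ℕ) (κ₁ : (d : ℕ) → ZMod d → ZMod d → ℝ)
    (k₂ : (d : ℕ) → ZMod d → ℝ) (δ : ℕ → ℝ), ∀ (d : ℕ) [Fact d.Prime], d₀ ≤ d → d % 4 = 3 →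
      ((a : ℤ) : ZMod d) ≠ 0 ∧ (∀ A q, |κ₁ d A q| ≤ 1) ∧ (∀ q, ∑ A : ZMod d, κ₁ d A q = 0) ∧ (∀ q, |k₂ d q| ≤ 1) ∧
      k₂ d 0 = 0 ∧ ∑ q : ZMod d, k₂ d q = 0 ∧ 1 / 9 ≤ δ d ∧ δ d ≤ 1 ∧
      ∀ A q : ZMod d, A ≠ 0 → q ≠ 0 → q ≠ A →
        (if NegP (a : ZMod d) A q then (1 : ℝ) else 0) = κ₁ d A q + k₂ d q + δ d := by
  obtain ⟨d₁, hd₁⟩ := negS_ge
  have key : ∀ d : ℕ, ∃ (κ : ZMod d → ZMod d → ℝ) (k : ZMod d → ℝ) (δ : ℝ),
      ∀ [Fact d.Prime], max d₁ (a.natAbs + 1) ≤ d → d % 4 = 3 →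
      ((a : ℤ) : ZMod d) ≠ 0 ∧ (∀ A q, |κ A q| ≤ 1) ∧ (∀ q, ∑ A : ZMod d, κ A q = 0) ∧
        (∀ q, |k q| ≤ 1) ∧ k 0 = 0 ∧ ∑ q : ZMod d, k q = 0 ∧ 1 / 9 ≤ δ ∧ δ ≤ 1 ∧
        ∀ A q : ZMod d, A ≠ 0 → q ≠ 0 → q ≠ A →
          (if NegP (a : ZMod d) A q then (1 : ℝ) else 0) = κ A q + k q + δ := by
    intro d
    by_cases h : d.Prime ∧ max d₁ (a.natAbs + 1) ≤ d ∧ d % 4 = 3
    · obtain ⟨hp, h1, h2⟩ := h
      have : Fact d.Prime := ⟨hp⟩
      have hne : ((a : ℤ) : ZMod d) ≠ 0 := by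
        intro h0
        rw [ZMod.intCast_zmod_eq_zero_iff_dvd] at h0
        have h3 := Nat.le_of_dvd (Int.natAbs_pos.2 ha) (Int.natCast_dvd.1 h0)
        have h4 := (le_max_right d₁ (a.natAbs + 1)).trans h1
        omega
      obtain ⟨κ, k, δ, hh⟩ := h5a_one (a : ZMod d) (by omega)
        (hd₁ d ((le_max_left _ _).trans h1) h2 _ hne)
      refine ⟨κ, k, δ, ?_⟩
      intro _ _ _
      exact ⟨hne, hh⟩
    · refine ⟨fun _ _ => 0, fun _ => 0, 0, ?_⟩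
      intro hf h1 h2
      exact absurd ⟨hf.out, h1, h2⟩ h
  choose κ₁ k₂ δ hkey using key
  exact ⟨max d₁ (a.natAbs + 1), κ₁, k₂, δ, fun d _ h1 h2 => hkey d h1 h2⟩

end Pool.Agent.LibKC40
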