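import Pool.Agent.LibKC40.H1
import Pool.Agent.LibKC40.H2
import Pool.Agent.LibKC40.H3
import Pool.Agent.LibKC40.H4
import Pool.Agent.LibKC40.H5a

/-!
Row H5b (MEDIUM). Almost every prime pair has a good `d`.

PLAN. `B = B₀` of `model_low`. For large `N` all `d ∈ DD B N` are `≥ d₀` (`d² > (log N)^B`), `≤ (log N)^(2B) < N/2`. `T₁, T₂, T₃(z)` the three inner sums of
`var1` (`κ₁`), `var2` (`k₂`), `var3` (`δ`). `bad = {z ∈ Box : |T_i| ≥ c/36 for some i}`, `bad.card ≤ 3 (36/c)² N² (log N)^(-10) ≤ N² (log N)^(-9)` (Chebyshev). For `z = (A,q)`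
outside, `A`, `q`, `B' = (q-A)/2` primes `> d`: they are units modulo `d`, `q ≠ A` modulo `d`, so
`∑ wd 1_{NegP} th(nn) = T₁ + T₂ + T₃ + ∑ wd δ lamw ≥ -c/12 + c/9 > 0` (`model_low`; `PrA (ww N)`: `A, q` are primes `> ww N`), hence some term is `> 0`.
(`κ`'s outside the range `d ≥ d₀` are irrelevant.)
-/

set_option autoImplicit false

namespace Pool.Agent.LibKC40

open Finset Filter

/-- Chebyshev -/
private theorem h5b_cheb (S : Finset (ℕ × ℕ)) (T : ℕ × ℕ → ℝ) (c V : ℝ) (hc : 0 < c)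
    (h : ∑ z ∈ S, T z ^ 2 ≤ V) : (#(S.filter fun z => c ≤ |T z|) : ℝ) ≤ V * (c ^ 2)⁻¹ := by
  have h1 : (#(S.filter fun z => c ≤ |T z|) : ℝ) * c ^ 2 ≤ V := by
    calc (#(S.filter fun z => c ≤ |T z|) : ℝ) * c ^ 2 =
          ∑ z ∈ S.filter (fun z => c ≤ |T z|), c ^ 2 := by
          rw [Finset.sum_const, nsmul_eq_mul]
      _ ≤ ∑ z ∈ S.filter (fun z => c ≤ |T z|), T z ^ 2 := by
          refine Finset.sum_le_sum fun z hz => ?_
          rw [Finset.mem_filter] at hz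
          rw [← sq_abs (T z)]
          exact pow_le_pow_left₀ hc.le hz.2 2
      _ ≤ ∑ z ∈ S, T z ^ 2 :=
          Finset.sum_le_sum_of_subset_of_nonneg (Finset.filter_subset _ _) fun _ _ _ => sq_nonneg _
      _ ≤ V := h
  rw [← div_eq_mul_inv, le_div_iff₀ (by positivity)]
  exact h1

/-- growth -/
private theorem h5b_growth (B M : ℕ) (hB : 1 ≤ B) (V : ℝ) : ∀ᶠ N : ℕ in atTop,
    V ≤ Real.log N ∧ 1 ≤ Real.log N ∧ (M : ℝ) ^ 2 ≤ Real.log N ^ B ∧
      2 * Real.log N ^ (2 * B) < N ∧ Real.log N ^ 20 < N := by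
  have hl : Tendsto (fun N : ℕ => Real.log N) atTop atTop :=
    Real.tendsto_log_atTop.comp tendsto_natCast_atTop_atTop
  have h1 : ∀ n : ℕ, ∀ᶠ N : ℕ in atTop, Real.log N ^ n ≤ 1 / 4 * N := by
    intro n
    have h2 := ((isLittleO_log_rpow_rpow_atTop (s := 1) (n : ℝ) one_pos).bound
      (c := 1 / 4) (by norm_num))
    have h3 := tendsto_natCast_atTop_atTop.eventually h2
    filter_upwards [h3, hl.eventually_ge_atTop 1] with N h3 h4
    rw [Real.rpow_natCast, Real.rpow_one, Real.norm_of_nonneg (by positivity),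
      Real.norm_of_nonneg (Nat.cast_nonneg _)] at h3
    exact h3
  filter_upwards [h1 (2 * B), h1 20, hl.eventually_ge_atTop V, hl.eventually_ge_atTop 1,
    hl.eventually_ge_atTop ((M : ℝ) ^ 2), eventually_gt_atTop 0] with N a1 a2 a3 a4 a5 a6
  have hN : (0 : ℝ) < N := by exact_mod_cast a6
  refine ⟨a3, a4, ?_, by linarith, by linarith⟩
  calc (M : ℝ) ^ 2 ≤ Real.log N ^ 1 := by rwa [pow_one]
    _ ≤ Real.log N ^ B := pow_le_pow_right₀ a4 hB

open scoped Classical in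
/-- the indicator of the local condition -/
private noncomputable def h5b_ind (a : ℤ) (A q d : ℕ) : ℝ :=
  if h : d.Prime then
    (haveI : Fact d.Prime := ⟨h⟩; if NegP (a : ZMod d) (A : ZMod d) (q : ZMod d) then 1 else 0)
  else 0

theorem good_pairs : ∃ B : ℕ, 2 ≤ B ∧ ∀ a : ℤ, a ≠ 0 → ∀ᶠ N : ℕ in atTop, ∃ bad : Finset (ℕ × ℕ),
    (bad.card : ℝ) ≤ (N : ℝ) ^ 2 * (Real.log N ^ 9)⁻¹ ∧ ∀ z ∈ Box N, z ∉ bad → z.1.Prime → z.2.Prime → z.1 < z.2 →
      ((z.2 - z.1) / 2).Prime → N ≤ 2 * ((z.2 - z.1) / 2) →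
      ∃ (d : ℕ) (hd : d.Prime), d % 4 = 3 ∧ 11 ≤ d ∧ (d : ℝ) ≤ Real.log N ^ (2 * B) ∧ 2 * d < N ∧
        ¬ (d : ℤ) ∣ a ∧ (nn d z.1 z.2).Prime ∧
        (haveI : Fact d.Prime := ⟨hd⟩; NegP (a : ZMod d) (z.1 : ZMod d) (z.2 : ZMod d)) := by
  classical
  obtain ⟨B, c, hB, hc, hmod⟩ := model_low
  refine ⟨B, by omega, fun a ha => ?_⟩
  obtain ⟨d₀, κ₁, k₂, δ, hloc⟩ := local_decomp a ha
  filter_upwards [hmod B le_rfl, params B (by omega), ww_params, var1 B hB, var2 B hB, var3 B hB,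
    h5b_growth B (max d₀ 11) (by omega) (3 * ((c / 36) ^ 2)⁻¹)] with N hmod hpar hww v1 v2 v3 hgr
  obtain ⟨g1, g2, g3, g4, g5⟩ := hgr
  obtain ⟨hD, hwd, -, -⟩ := hpar
  -- the members of `DD`
  have hDD : ∀ d ∈ DD B N, d.Prime ∧ d % 4 = 3 ∧ (d : ℝ) ≤ Real.log N ^ (2 * B) ∧
      d₀ ≤ d ∧ 11 ≤ d ∧ 2 * d < N := by
    intro d hd
    obtain ⟨h1, h2, h3, h4⟩ := hD d hd
    have h5 : ((max d₀ 11 : ℕ) : ℝ) ^ 2 < (d : ℝ) ^ 2 := g3.trans_lt h4
    have h6 : ((max d₀ 11 : ℕ) : ℝ) < (d : ℝ) := lt_of_pow_lt_pow_left₀ 2 (Nat.cast_nonneg _) h5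
    have h7 : max d₀ 11 < d := by exact_mod_cast h6
    have h8 : (2 * d : ℝ) < N := by linarith
    have h9 : 2 * d < N := by exact_mod_cast h8
    have h10 := le_max_left d₀ 11
    have h11 := le_max_right d₀ 11
    exact ⟨h1, h2, h3, by omega, by omega, h9⟩
  -- the three sums
  set T₁ : ℕ × ℕ → ℝ := fun z => ∑ d ∈ DD B N,
    wd B N d * (κ₁ d (z.1 : ZMod d) (z.2 : ZMod d) * th (nn d z.1 z.2)) with hT₁
  set T₂ : ℕ × ℕ → ℝ := fun z => ∑ d ∈ DD B N,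
    wd B N d * (k₂ d (z.2 : ZMod d) * th (nn d z.1 z.2)) with hT₂
  set T₃ : ℕ × ℕ → ℝ := fun z => ∑ d ∈ DD B N,
    wd B N d * (δ d * (th (nn d z.1 z.2) - lamw (ww N) (nn d z.1 z.2))) with hT₃
  have s1 : ∑ z ∈ Box N, T₁ z ^ 2 ≤ (N : ℝ) ^ 2 * (Real.log N ^ 10)⁻¹ := by
    refine v1 κ₁ (fun d hd A q => ?_) (fun d _ hd q => ?_)
    · obtain ⟨h1, h2, -, h3, -, -⟩ := hDD d hd
      have : Fact d.Prime := ⟨h1⟩
      exact (hloc d h3 h2).2.1 A q
    · obtain ⟨h1, h2, -, h3, -, -⟩ := hDD d hd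
      have : Fact d.Prime := ⟨h1⟩
      exact (hloc d h3 h2).2.2.1 q
  have s2 : ∑ z ∈ Box N, T₂ z ^ 2 ≤ (N : ℝ) ^ 2 * (Real.log N ^ 10)⁻¹ := by
    refine v2 k₂ (fun d hd q => ?_) (fun d _ hd => ?_)
    · obtain ⟨h1, h2, -, h3, -, -⟩ := hDD d hd
      have : Fact d.Prime := ⟨h1⟩
      exact (hloc d h3 h2).2.2.2.1 q
    · obtain ⟨h1, h2, -, h3, -, -⟩ := hDD d hd
      have : Fact d.Prime := ⟨h1⟩
      exact ⟨(hloc d h3 h2).2.2.2.2.1, (hloc d h3 h2).2.2.2.2.2.1⟩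
  have hδ : ∀ d ∈ DD B N, 1 / 9 ≤ δ d ∧ δ d ≤ 1 := by
    intro d hd
    obtain ⟨h1, h2, -, h3, -, -⟩ := hDD d hd
    have : Fact d.Prime := ⟨h1⟩
    exact ⟨(hloc d h3 h2).2.2.2.2.2.2.1, (hloc d h3 h2).2.2.2.2.2.2.2.1⟩
  have s3 : ∑ z ∈ Box N, T₃ z ^ 2 ≤ (N : ℝ) ^ 2 * (Real.log N ^ 10)⁻¹ := by
    refine v3 δ (fun d hd => ?_)
    obtain ⟨h1, h2⟩ := hδ d hd
    exact ⟨by linarith, h2⟩
  have hc36 : 0 < c / 36 := by positivity
  have hN0 : (0 : ℝ) ≤ (N : ℝ) ^ 2 := by positivity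
  refine ⟨((Box N).filter fun z => c / 36 ≤ |T₁ z|) ∪ ((Box N).filter fun z => c / 36 ≤ |T₂ z|) ∪
    ((Box N).filter fun z => c / 36 ≤ |T₃ z|), ?_, ?_⟩
  · have b1 := h5b_cheb (Box N) T₁ (c / 36) _ hc36 s1
    have b2 := h5b_cheb (Box N) T₂ (c / 36) _ hc36 s2
    have b3 := h5b_cheb (Box N) T₃ (c / 36) _ hc36 s3
    have b4 := Finset.card_union_le (((Box N).filter fun z => c / 36 ≤ |T₁ z|) ∪
      ((Box N).filter fun z => c / 36 ≤ |T₂ z|)) ((Box N).filter fun z => c / 36 ≤ |T₃ z|)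
    have b5 := Finset.card_union_le ((Box N).filter fun z => c / 36 ≤ |T₁ z|)
      ((Box N).filter fun z => c / 36 ≤ |T₂ z|)
    have b6 := b4.trans (Nat.add_le_add_right b5 _)
    have b7 : (#(((Box N).filter fun z => c / 36 ≤ |T₁ z|) ∪
        ((Box N).filter fun z => c / 36 ≤ |T₂ z|) ∪
        ((Box N).filter fun z => c / 36 ≤ |T₃ z|)) : ℝ) ≤
        #((Box N).filter fun z => c / 36 ≤ |T₁ z|) + #((Box N).filter fun z => c / 36 ≤ |T₂ z|) +
        #((Box N).filter fun z => c / 36 ≤ |T₃ z|) := by exact_mod_cast b6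
    have hL : 0 < Real.log N := by linarith
    calc _ ≤ 3 * ((N : ℝ) ^ 2 * (Real.log N ^ 10)⁻¹ * ((c / 36) ^ 2)⁻¹) := by linarith
      _ = (3 * ((c / 36) ^ 2)⁻¹) * ((N : ℝ) ^ 2 * (Real.log N ^ 10)⁻¹) := by ring
      _ ≤ Real.log N * ((N : ℝ) ^ 2 * (Real.log N ^ 10)⁻¹) :=
          mul_le_mul_of_nonneg_right g1 (by positivity)
      _ = (N : ℝ) ^ 2 * (Real.log N ^ 9)⁻¹ := by
          rw [pow_succ (Real.log N) 9]
          field_simp
  · rintro ⟨A, q⟩ hz hbad hA hq hAq hB' hNB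
    rw [Finset.mem_union, Finset.mem_union, not_or, not_or] at hbad
    obtain ⟨⟨n1, n2⟩, n3⟩ := hbad
    have m1 : |T₁ (A, q)| < c / 36 := by
      by_contra h
      exact n1 (Finset.mem_filter.2 ⟨hz, not_lt.1 h⟩)
    have m2 : |T₂ (A, q)| < c / 36 := by
      by_contra h
      exact n2 (Finset.mem_filter.2 ⟨hz, not_lt.1 h⟩)
    have m3 : |T₃ (A, q)| < c / 36 := by
      by_contra h
      exact n3 (Finset.mem_filter.2 ⟨hz, not_lt.1 h⟩)
    simp only at hA hq hAq hB' hNB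
    have hz' := hz
    unfold Box at hz'
    rw [Finset.mem_filter, Finset.mem_product, Finset.mem_Ioc, Finset.mem_Ioc] at hz'
    obtain ⟨⟨⟨hA1, -⟩, ⟨hq1, -⟩⟩, hpar1, hpar2⟩ := hz'
    simp only at hA1 hq1 hpar1 hpar2
    -- the model
    have hwN : ww N < N := by
      have h1 : (ww N : ℝ) < N := hww.2.1.trans_lt g5
      exact_mod_cast h1
    have hlow := hmod A q hpar1 hpar2 (by
      intro p hp
      unfold Pool.Agent.LibSW40.PrA at hp
      rw [Finset.mem_filter, Finset.mem_Icc] at hp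
      obtain ⟨⟨hp1, hp2⟩, hp3⟩ := hp
      constructor
      · intro h
        have := (Nat.prime_dvd_prime_iff_eq hp3 hA).1 h
        omega
      · intro h
        have := (Nat.prime_dvd_prime_iff_eq hp3 hq).1 h
        omega)
    -- the units
    have hunit : ∀ d ∈ DD B N, (A : ZMod d) ≠ 0 ∧ (q : ZMod d) ≠ 0 ∧ (q : ZMod d) ≠ (A : ZMod d) := by
      intro d hd
      obtain ⟨h1, h2, -, -, h3, h4⟩ := hDD d hd
      refine ⟨?_, ?_, ?_⟩
      · intro h
        rw [ZMod.natCast_eq_zero_iff] at h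
        have := (Nat.prime_dvd_prime_iff_eq h1 hA).1 h
        omega
      · intro h
        rw [ZMod.natCast_eq_zero_iff] at h
        have := (Nat.prime_dvd_prime_iff_eq h1 hq).1 h
        omega
      · intro h
        have h5 := (ZMod.natCast_eq_natCast_iff _ _ _).1 h.symm
        have h6 : d ∣ q - A := (Nat.modEq_iff_dvd' hAq.le).1 h5
        have h7 : q - A = 2 * ((q - A) / 2) := by omega
        rw [h7] at h6
        rcases (h1.dvd_mul).1 h6 with h8 | h8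
        · have := Nat.le_of_dvd two_pos h8
          omega
        · have := (Nat.prime_dvd_prime_iff_eq h1 hB').1 h8
          omega
    -- the sum
    have hsum : ∑ d ∈ DD B N, wd B N d * (h5b_ind a A q d * th (nn d A q)) =
        T₁ (A, q) + T₂ (A, q) + T₃ (A, q) +
          ∑ d ∈ DD B N, wd B N d * (δ d * lamw (ww N) (nn d A q)) := by
      rw [hT₁, hT₂, hT₃]
      simp only
      rw [← Finset.sum_add_distrib, ← Finset.sum_add_distrib, ← Finset.sum_add_distrib]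
      refine Finset.sum_congr rfl fun d hd => ?_
      obtain ⟨h1, h2, -, h3, -, -⟩ := hDD d hd
      have : Fact d.Prime := ⟨h1⟩
      obtain ⟨u1, u2, u3⟩ := hunit d hd
      have h4 := (hloc d h3 h2).2.2.2.2.2.2.2.2 _ _ u1 u2 u3
      have h5 : h5b_ind a A q d =
          κ₁ d (A : ZMod d) (q : ZMod d) + k₂ d (q : ZMod d) + δ d := by
        rw [← h4]
        unfold h5b_ind
        rw [dif_pos h1]
      rw [h5]
      ring
    have hlam : ∀ n, 0 ≤ lamw (ww N) n := by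
      intro n
      unfold lamw
      split_ifs
      · linarith [hww.2.2.2.1]
      · exact le_rfl
    have hmodel : c / 9 ≤ ∑ d ∈ DD B N, wd B N d * (δ d * lamw (ww N) (nn d A q)) := by
      calc c / 9 ≤ (∑ d ∈ DD B N, wd B N d * lamw (ww N) (nn d A q)) * (1 / 9) := by linarith
        _ = ∑ d ∈ DD B N, wd B N d * lamw (ww N) (nn d A q) * (1 / 9) := Finset.sum_mul _ _ _
        _ ≤ _ := by
            refine Finset.sum_le_sum fun d hd => ?_
            rw [mul_assoc]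
            refine mul_le_mul_of_nonneg_left ?_ (hwd d).1
            rw [mul_comm]
            exact mul_le_mul_of_nonneg_right (hδ d hd).1 (hlam _)
    have hpos : 0 < ∑ d ∈ DD B N, wd B N d * (h5b_ind a A q d * th (nn d A q)) := by
      rw [hsum]
      have e1 := (abs_lt.1 m1).1
      have e2 := (abs_lt.1 m2).1
      have e3 := (abs_lt.1 m3).1
      linarith
    obtain ⟨d, hd, hd0⟩ := Finset.exists_ne_zero_of_sum_ne_zero hpos.ne'
    obtain ⟨h1, h2, h3, h4, h5, h6⟩ := hDD d hd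
    have hth : th (nn d A q) ≠ 0 := fun h => hd0 (by rw [h, mul_zero, mul_zero])
    have hind : h5b_ind a A q d ≠ 0 := fun h => hd0 (by rw [h, zero_mul, mul_zero])
    refine ⟨d, h1, h2, h5, h3, h6, ?_, ?_, ?_⟩
    · intro hdvd
      have : Fact d.Prime := ⟨h1⟩
      exact (hloc d h4 h2).1 ((ZMod.intCast_zmod_eq_zero_iff_dvd a d).2 hdvd)
    · by_contra h
      exact hth (by
        unfold th
        rw [if_neg h])
    · by_contra h
      apply hind
      unfold h5b_ind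
      rw [dif_pos h1, if_neg h]

end Pool.Agent.LibKC40
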