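import Pool.Agent.LibKC40.GDefs

/-!
Row H6a (SHORT/MEDIUM, elementary). Every modulus comes from at most 12 pairs.

PLAN. Map `z = (A, q)` with its type (which of the four cases) to the prime factor `q, A, A, q` of `c`. Injective on each type: type 1 (`c = n q`): `q` gives
`n`, `d A = 2n - q`, and `A` is the only prime factor `> N` of `2n - q` with `2 · (cofactor) < N`; type 2 (`c = d (n A)`): `d` is the smallest prime factor
of `c` (`d < N < A, n`), `A` gives `n`, `q = 2n - dA`; type 3 (`c = d (A B)`): `B = (c/d)/A`, `q = A + 2B`; type 4: `B = (c/d)/q`, `A = q - 2B`. In types 3, 4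
`B > N/2 > d`. `c` has at most 3 prime factors: `4 · 3 = 12`.
-/

set_option autoImplicit false

namespace Pool.Agent.LibKC40

open Finset

/-- `c` is one of the four moduli attached to `(A, q)` -/
def Att (N c : ℕ) (z : ℕ × ℕ) : Prop := ∃ d n B : ℕ, d.Prime ∧ 2 * d < N ∧ n.Prime ∧ B.Prime ∧ z.2 = z.1 + 2 * B ∧
  N ≤ 2 * B ∧ 2 * n = d * z.1 + z.2 ∧ (c = n * z.2 ∨ c = d * (n * z.1) ∨ c = d * (z.1 * B) ∨ c = d * (B * z.2))

/-- the common conditions -/
private def h6a_base (N : ℕ) (z : ℕ × ℕ) (d n B : ℕ) : Prop :=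
  z.1.Prime ∧ z.2.Prime ∧ N < z.1 ∧ d.Prime ∧ 2 * d < N ∧ n.Prime ∧ B.Prime ∧ z.2 = z.1 + 2 * B ∧
    N ≤ 2 * B ∧ 2 * n = d * z.1 + z.2

private theorem h6a_n {N : ℕ} {z : ℕ × ℕ} {d n B : ℕ} (h : h6a_base N z d n B) : N < n := by
  obtain ⟨_, _, h3, h4, _, _, _, h8, _, h10⟩ := h
  have h5 : 2 * z.1 ≤ d * z.1 := Nat.mul_le_mul_right _ h4.two_le
  omega

private theorem h6a_dd {d d' X Y : ℕ} (hd : d.Prime) (hd' : d'.Prime) (hY : Y.Prime) (hne : d ≠ Y)
    (h : d * X = d' * Y) : d = d' ∧ X = Y := by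
  have h1 : d ∣ d' * Y := ⟨X, h.symm⟩
  rcases (Nat.Prime.dvd_mul hd).1 h1 with h2 | h2
  · have h3 : d = d' := (Nat.prime_dvd_prime_iff_eq hd hd').1 h2
    subst h3
    exact ⟨rfl, Nat.eq_of_mul_eq_mul_left hd.pos h⟩
  · exact absurd ((Nat.prime_dvd_prime_iff_eq hd hY).1 h2) hne

private theorem h6a_three {a b c : ℕ} (ha : a.Prime) (hb : b.Prime) (hc : c.Prime) :
    #(a * (b * c)).primeFactors ≤ 3 := by
  rw [Nat.primeFactors_mul ha.ne_zero (mul_ne_zero hb.ne_zero hc.ne_zero),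
    Nat.primeFactors_mul hb.ne_zero hc.ne_zero, ha.primeFactors, hb.primeFactors, hc.primeFactors]
  refine (Finset.card_union_le _ _).trans ?_
  have h1 := Finset.card_union_le ({b} : Finset ℕ) {c}
  simp only [Finset.card_singleton] at h1 ⊢
  omega

private theorem h6a_two {b c : ℕ} (hb : b.Prime) (hc : c.Prime) :
    #(b * c).primeFactors ≤ 3 := by
  rw [Nat.primeFactors_mul hb.ne_zero hc.ne_zero, hb.primeFactors, hc.primeFactors]
  have h1 := Finset.card_union_le ({b} : Finset ℕ) {c}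
  simp only [Finset.card_singleton] at h1 ⊢
  omega

private theorem h6a_card {c : ℕ} (hc : c ≠ 0) (hc3 : #c.primeFactors ≤ 3) (S : Finset (ℕ × ℕ))
    (f : ℕ × ℕ → ℕ) (h1 : ∀ z ∈ S, (f z).Prime ∧ f z ∣ c)
    (h2 : ∀ z ∈ S, ∀ w ∈ S, f z = f w → z = w) : #S ≤ 3 := by
  refine le_trans (Finset.card_le_card_of_injOn f ?_ ?_) hc3
  · intro z hz
    obtain ⟨h3, h4⟩ := h1 z hz
    exact Nat.mem_primeFactors.2 ⟨h3, h4, hc⟩
  · intro z hz w hw h
    exact h2 z hz w hw h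

theorem mult_le (N c : ℕ) (S : Finset (ℕ × ℕ)) (hS : ∀ z ∈ S, z.1.Prime ∧ z.2.Prime ∧ N < z.1 ∧ Att N c z) :
    #S ≤ 12 := by
  classical
  rcases S.eq_empty_or_nonempty with h0 | ⟨z0, hz0⟩
  · rw [h0, Finset.card_empty]
    omega
  -- the modulus
  have hc : c ≠ 0 ∧ #c.primeFactors ≤ 3 := by
    obtain ⟨p1, p2, _, d, n, B, hd, _, hn, hB, _, _, _, h⟩ := hS z0 hz0
    rcases h with h | h | h | h
    · rw [h]
      exact ⟨mul_ne_zero hn.ne_zero p2.ne_zero, h6a_two hn p2⟩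
    · rw [h]
      exact ⟨mul_ne_zero hd.ne_zero (mul_ne_zero hn.ne_zero p1.ne_zero), h6a_three hd hn p1⟩
    · rw [h]
      exact ⟨mul_ne_zero hd.ne_zero (mul_ne_zero p1.ne_zero hB.ne_zero), h6a_three hd p1 hB⟩
    · rw [h]
      exact ⟨mul_ne_zero hd.ne_zero (mul_ne_zero hB.ne_zero p2.ne_zero), h6a_three hd hB p2⟩
  obtain ⟨hc0, hc3⟩ := hc
  set S1 : Finset (ℕ × ℕ) := S.filter (fun z => ∃ d n B : ℕ, h6a_base N z d n B ∧ c = n * z.2) with hS1
  set S2 : Finset (ℕ × ℕ) := S.filter (fun z => ∃ d n B : ℕ, h6a_base N z d n B ∧ c = d * (n * z.1)) with hS2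
  set S3 : Finset (ℕ × ℕ) := S.filter (fun z => ∃ d n B : ℕ, h6a_base N z d n B ∧ c = d * (z.1 * B)) with hS3
  set S4 : Finset (ℕ × ℕ) := S.filter (fun z => ∃ d n B : ℕ, h6a_base N z d n B ∧ c = d * (B * z.2)) with hS4
  have hsub : S ⊆ (S1 ∪ S2) ∪ (S3 ∪ S4) := by
    intro z hz
    obtain ⟨p1, p2, p3, d, n, B, hd, hdN, hn, hB, h8, h9, h10, h⟩ := hS z hz
    have hb : h6a_base N z d n B := ⟨p1, p2, p3, hd, hdN, hn, hB, h8, h9, h10⟩
    rcases h with h | h | h | h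
    · exact Finset.mem_union_left _ (Finset.mem_union_left _ (Finset.mem_filter.2 ⟨hz, d, n, B, hb, h⟩))
    · exact Finset.mem_union_left _ (Finset.mem_union_right _ (Finset.mem_filter.2 ⟨hz, d, n, B, hb, h⟩))
    · exact Finset.mem_union_right _ (Finset.mem_union_left _ (Finset.mem_filter.2 ⟨hz, d, n, B, hb, h⟩))
    · exact Finset.mem_union_right _ (Finset.mem_union_right _ (Finset.mem_filter.2 ⟨hz, d, n, B, hb, h⟩))
  have c1 : #S1 ≤ 3 := by
    refine h6a_card hc0 hc3 S1 (fun z => z.2) ?_ ?_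
    · intro z hz
      obtain ⟨_, d, n, B, hb, h⟩ := Finset.mem_filter.1 hz
      exact ⟨hb.2.1, ⟨n, by rw [h, mul_comm]⟩⟩
    · intro z hz w hw hzw
      obtain ⟨_, d, n, B, hb, h⟩ := Finset.mem_filter.1 hz
      obtain ⟨_, d', n', B', hb', h'⟩ := Finset.mem_filter.1 hw
      obtain ⟨p1, p2, p3, hd, hdN, hn, hB, h8, h9, h10⟩ := hb
      obtain ⟨p1', p2', p3', hd', hdN', hn', hB', h8', h9', h10'⟩ := hb'
      rw [← hzw] at h' h10' p2' h8'
      have e1 : n = n' := Nat.eq_of_mul_eq_mul_right p2.pos (h.symm.trans h')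
      rw [← e1] at h10'
      have e2 : d * z.1 = d' * w.1 := by omega
      have e3 : z.1 ∣ d' * w.1 := ⟨d, by rw [← e2, mul_comm]⟩
      have e4 : z.1 = w.1 := by
        rcases (Nat.Prime.dvd_mul p1).1 e3 with h2 | h2
        · have h3 := Nat.le_of_dvd hd'.pos h2
          omega
        · exact (Nat.prime_dvd_prime_iff_eq p1 p1').1 h2
      exact Prod.ext e4 hzw
  have c2 : #S2 ≤ 3 := by
    refine h6a_card hc0 hc3 S2 (fun z => z.1) ?_ ?_
    · intro z hz
      obtain ⟨_, d, n, B, hb, h⟩ := Finset.mem_filter.1 hz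
      exact ⟨hb.1, ⟨d * n, by rw [h]; ring⟩⟩
    · intro z hz w hw hzw
      obtain ⟨_, d, n, B, hb, h⟩ := Finset.mem_filter.1 hz
      obtain ⟨_, d', n', B', hb', h'⟩ := Finset.mem_filter.1 hw
      have hN := h6a_n hb
      have hN' := h6a_n hb'
      obtain ⟨p1, p2, p3, hd, hdN, hn, hB, h8, h9, h10⟩ := hb
      obtain ⟨p1', p2', p3', hd', hdN', hn', hB', h8', h9', h10'⟩ := hb'
      rw [← hzw] at h' h10'
      have e1 : d * n = d' * n' := by
        have e0 : (d * n) * z.1 = (d' * n') * z.1 := by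
          rw [mul_assoc, mul_assoc, ← h, ← h']
        exact Nat.eq_of_mul_eq_mul_right p1.pos e0
      obtain ⟨e2, e3⟩ := h6a_dd hd hd' hn' (by omega) e1
      rw [← e2, ← e3] at h10'
      exact Prod.ext hzw (by omega)
  have c3 : #S3 ≤ 3 := by
    refine h6a_card hc0 hc3 S3 (fun z => z.1) ?_ ?_
    · intro z hz
      obtain ⟨_, d, n, B, hb, h⟩ := Finset.mem_filter.1 hz
      exact ⟨hb.1, ⟨d * B, by rw [h]; ring⟩⟩
    · intro z hz w hw hzw
      obtain ⟨_, d, n, B, hb, h⟩ := Finset.mem_filter.1 hz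
      obtain ⟨_, d', n', B', hb', h'⟩ := Finset.mem_filter.1 hw
      obtain ⟨p1, p2, p3, hd, hdN, hn, hB, h8, h9, h10⟩ := hb
      obtain ⟨p1', p2', p3', hd', hdN', hn', hB', h8', h9', h10'⟩ := hb'
      rw [← hzw] at h' h8'
      have e1 : d * B = d' * B' := by
        have e0 : (d * B) * z.1 = (d' * B') * z.1 := by
          have a1 : (d * B) * z.1 = d * (z.1 * B) := by ring
          have a2 : (d' * B') * z.1 = d' * (z.1 * B') := by ring
          rw [a1, a2, ← h, ← h']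
        exact Nat.eq_of_mul_eq_mul_right p1.pos e0
      obtain ⟨e2, e3⟩ := h6a_dd hd hd' hB' (by omega) e1
      rw [← e3] at h8'
      exact Prod.ext hzw (by omega)
  have c4 : #S4 ≤ 3 := by
    refine h6a_card hc0 hc3 S4 (fun z => z.2) ?_ ?_
    · intro z hz
      obtain ⟨_, d, n, B, hb, h⟩ := Finset.mem_filter.1 hz
      exact ⟨hb.2.1, ⟨d * B, by rw [h]; ring⟩⟩
    · intro z hz w hw hzw
      obtain ⟨_, d, n, B, hb, h⟩ := Finset.mem_filter.1 hz
      obtain ⟨_, d', n', B', hb', h'⟩ := Finset.mem_filter.1 hw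
      obtain ⟨p1, p2, p3, hd, hdN, hn, hB, h8, h9, h10⟩ := hb
      obtain ⟨p1', p2', p3', hd', hdN', hn', hB', h8', h9', h10'⟩ := hb'
      rw [← hzw] at h' h8'
      have e1 : d * B = d' * B' := by
        have e0 : (d * B) * z.2 = (d' * B') * z.2 := by
          rw [mul_assoc, mul_assoc, ← h, ← h']
        exact Nat.eq_of_mul_eq_mul_right p2.pos e0
      obtain ⟨e2, e3⟩ := h6a_dd hd hd' hB' (by omega) e1
      rw [← e3] at h8'
      exact Prod.ext (by omega) hzw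
  have h1 := Finset.card_le_card hsub
  have h2 := Finset.card_union_le (S1 ∪ S2) (S3 ∪ S4)
  have h3 := Finset.card_union_le S1 S2
  have h4 := Finset.card_union_le S3 S4
  omega

end Pool.Agent.LibKC40
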