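import Pool.Agent.LibKC40.H5b
import Pool.Agent.LibKC40.H6a
import Pool.Agent.LibKC40.F1
import Pool.Agent.LibVinogradov.Pairs3

/-!
Row H6b (MEDIUM/STRONG). Both signs at the scale `N = 4 n^32`.

PLAN. `LSieve.pairs_exist3 3 1 2`: `𝒬`, `#𝒬 ≥ cc n^64/(log n)³`; `N = 4 n^32`: `z ∈ 𝒬` is in `Box N` (`N < z.1 < z.2 ≤ 4N`, `z.2 = z.1 + 2t`, `t` prime `> N/2`, odd).
Remove `bad` (`good_pairs`): `≥ (cc/2) n^64/(log n)³` pairs. Each remaining `z = (A,q)` has `d`, `n' = nn d A q` prime, `B = t`; `n' ≥ (11N + N)/2 > 4N`, so all five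
primes are distinct and odd (`A = B` would give `q = 3A`), `four_neg`: the product of the four real parts is negative, so one of them is `< 0` and one is `> 0`
(none is 0). The four moduli are odd, squarefree, have `≤ 3` prime factors, are prime to `a` (`d ∤ a`; `n', A, B, q > |a|`), and
`≤ 16 (log N)^(4B) N²`. Choose one negative and one positive modulus for each `z`; fibres `≤ 12` (`mult_le`).
NEW in this version: the structure of `c` is kept: `c = d (p p')` (`d = 1` for the modulus `n' q`), `d ≤ (log N)^(2B)`, `p, p' ≥ N/2 ≥ n^32`, `c ≥ p p' ≥ n^64`, so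
`log n ≤ log c`, and `c ≤ n^64 (log n)^B' ≤ p² (log c)^B'`; and `B`, `c₁` do not depend on `a`.
-/

set_option autoImplicit false

namespace Pool.Agent.LibKC40

open Finset Filter

/-- the moduli of the theorem: `c` odd, squarefree, prime to `a`, `c = d (p p')` with primes `p, p'` of size about `√c` and
`d = 1` or a small prime -/
def Okc (a : ℤ) (B c : ℕ) : Prop := c % 2 = 1 ∧ Squarefree c ∧ Int.gcd a c = 1 ∧
  ∃ d p p' : ℕ, c = d * (p * p') ∧ (d = 1 ∨ d.Prime) ∧ p.Prime ∧ p'.Prime ∧ (d : ℝ) ≤ Real.log c ^ B ∧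
    (c : ℝ) ≤ (p : ℝ) ^ 2 * Real.log c ^ B ∧ (c : ℝ) ≤ (p' : ℝ) ^ 2 * Real.log c ^ B

private lemma h6b_cop {a : ℤ} {p : ℕ} (hp : p.Prime) (ha : ¬ (p : ℤ) ∣ a) : a.natAbs.Coprime p := by
  refine Nat.Coprime.symm ((Nat.Prime.coprime_iff_not_dvd hp).2 fun h => ha ?_)
  exact Int.natCast_dvd.2 h

/-- the local form of `Okc` -/
private def h6bOk (a : ℤ) (L : ℝ) (N c : ℕ) : Prop := c % 2 = 1 ∧ Squarefree c ∧ Int.gcd a c = 1 ∧
  ∃ d p p' : ℕ, c = d * (p * p') ∧ (d = 1 ∨ d.Prime) ∧ p.Prime ∧ p'.Prime ∧ (d : ℝ) ≤ L ∧ N ≤ 2 * p ∧ N ≤ 2 * p'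

private lemma h6b_okc2 {a : ℤ} {L : ℝ} {N p q : ℕ} (hL : 1 ≤ L) (hp : p.Prime) (hq : q.Prime) (hp2 : p % 2 = 1)
    (hq2 : q % 2 = 1) (hpq : p ≠ q) (hpa : ¬ (p : ℤ) ∣ a) (hqa : ¬ (q : ℤ) ∣ a) (hNp : N ≤ 2 * p)
    (hNq : N ≤ 2 * q) : h6bOk a L N (p * q) := by
  refine ⟨by rw [Nat.mul_mod, hp2, hq2], ?_, ?_, ?_⟩
  · rw [Nat.squarefree_mul ((Nat.coprime_primes hp hq).2 hpq)]
    exact ⟨hp.prime.squarefree, hq.prime.squarefree⟩
  · rw [Int.gcd_eq_natAbs, Int.natAbs_natCast]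
    exact (h6b_cop hp hpa).mul_right (h6b_cop hq hqa)
  · exact ⟨1, p, q, (one_mul _).symm, Or.inl rfl, hp, hq, by simpa using hL, hNp, hNq⟩

private lemma h6b_okc3 {a : ℤ} {L : ℝ} {N p q r : ℕ} (hp : p.Prime) (hq : q.Prime) (hr : r.Prime) (hp2 : p % 2 = 1)
    (hq2 : q % 2 = 1) (hr2 : r % 2 = 1) (hpq : p ≠ q) (hpr : p ≠ r) (hqr : q ≠ r) (hpa : ¬ (p : ℤ) ∣ a)
    (hqa : ¬ (q : ℤ) ∣ a) (hra : ¬ (r : ℤ) ∣ a) (hpL : (p : ℝ) ≤ L) (hNq : N ≤ 2 * q) (hNr : N ≤ 2 * r) :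
    h6bOk a L N (p * (q * r)) := by
  refine ⟨by rw [Nat.mul_mod, Nat.mul_mod q r, hp2, hq2, hr2], ?_, ?_, ?_⟩
  · rw [Nat.squarefree_mul (((Nat.coprime_primes hp hq).2 hpq).mul_right ((Nat.coprime_primes hp hr).2 hpr)),
      Nat.squarefree_mul ((Nat.coprime_primes hq hr).2 hqr)]
    exact ⟨hp.prime.squarefree, hq.prime.squarefree, hr.prime.squarefree⟩
  · rw [Int.gcd_eq_natAbs, Int.natAbs_natCast]
    exact (h6b_cop hp hpa).mul_right ((h6b_cop hq hqa).mul_right (h6b_cop hr hra))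
  · exact ⟨p, q, r, rfl, Or.inr hp, hq, hr, hpL, hNq, hNr⟩

private lemma h6b_dvd {a : ℤ} (ha : a ≠ 0) {N p : ℕ} (hN : 2 * a.natAbs < N) (hp : N ≤ 2 * p) : ¬ (p : ℤ) ∣ a := by
  intro h
  have h1 : p ∣ a.natAbs := Int.natCast_dvd.1 h
  have h2 := Nat.le_of_dvd (Int.natAbs_pos.2 ha) h1
  omega

private lemma h6b_four {x y z w : ℝ} (h : x * y * z * w < 0) :
    (x < 0 ∨ y < 0 ∨ z < 0 ∨ w < 0) ∧ (0 < x ∨ 0 < y ∨ 0 < z ∨ 0 < w) := by
  constructor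
  · by_contra hc
    push Not at hc
    obtain ⟨h1, h2, h3, h4⟩ := hc
    have : 0 ≤ x * y * z * w := by positivity
    linarith
  · by_contra hc
    push Not at hc
    obtain ⟨h1, h2, h3, h4⟩ := hc
    have e1 : 0 ≤ x * y := mul_nonneg_of_nonpos_of_nonpos h1 h2
    have e2 : 0 ≤ z * w := mul_nonneg_of_nonpos_of_nonpos h3 h4
    have : 0 ≤ (x * y) * (z * w) := mul_nonneg e1 e2
    linarith [mul_assoc (x * y) z w]

/-- the two moduli at one pair -/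
private lemma h6b_local (a : ℤ) (ha : a ≠ 0) (N : ℕ) (L : ℝ) (z : ℕ × ℕ) (hz : z ∈ Box N)
    (hN : 2 * a.natAbs < N) (hN4 : 8 ≤ N) (hp1 : z.1.Prime) (hp2 : z.2.Prime) (hlt : z.1 < z.2)
    (t : ℕ) (ht : t.Prime) (hNt : N ≤ 2 * t) (heq : z.2 = z.1 + 2 * t)
    (d : ℕ) (hd : d.Prime) (hd4 : d % 4 = 3) (hd11 : 11 ≤ d) (hdL : (d : ℝ) ≤ L) (h2d : 2 * d < N)
    (hda : ¬ (d : ℤ) ∣ a) (hn : (nn d z.1 z.2).Prime)
    (hneg : haveI : Fact d.Prime := ⟨hd⟩; NegP (a : ZMod d) (z.1 : ZMod d) (z.2 : ZMod d)) :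
    (∃ c, Att N c z ∧ (0 < c ∧ (c : ℝ) ≤ 16 * L ^ 2 * (N : ℝ) ^ 2 ∧ h6bOk a L N c ∧
      ∀ _ : NeZero c, (Kloo.F a c 1).re < 0)) ∧
    (∃ c, Att N c z ∧ (0 < c ∧ (c : ℝ) ≤ 16 * L ^ 2 * (N : ℝ) ^ 2 ∧ h6bOk a L N c ∧
      ∀ _ : NeZero c, 0 < (Kloo.F a c 1).re)) := by
  obtain ⟨A, q⟩ := z
  simp only at hp1 hp2 hlt heq hn hneg ⊢
  rw [Box, mem_filter, mem_product, mem_Ioc, mem_Ioc] at hz
  obtain ⟨⟨⟨hA1, hA2⟩, ⟨hq1, hq2⟩⟩, hodd, hq4⟩ := hz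
  simp only at hA1 hA2 hq1 hq2 hodd hq4
  have hmod : (d * A + q) % 2 = 0 := by
    have h1 : d % 2 = 1 := by omega
    have h2 : q % 2 = 1 := by omega
    rw [Nat.add_mod, Nat.mul_mod, h1, hodd, h2]
  set m := nn d A q with hm
  have h2m : 2 * m = d * A + q := by
    rw [hm, nn]; omega
  have hdA : 11 * A ≤ d * A := Nat.mul_le_mul_right _ hd11
  have hm4 : 4 * N < m := by omega
  have hm2 : m % 2 = 1 := by
    rcases hn.eq_two_or_odd with h | h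
    · omega
    · exact h
  have hd2 : d % 2 = 1 := by omega
  have hq2' : q % 2 = 1 := by omega
  have ht2 : t % 2 = 1 := by
    rcases ht.eq_two_or_odd with h | h
    · omega
    · exact h
  have hAt : A ≠ t := by
    intro h
    have h3 : q = 3 * A := by omega
    have h4 : 3 ∣ q := ⟨A, h3⟩
    have h5 := (Nat.prime_dvd_prime_iff_eq Nat.prime_three hp2).1 h4
    omega
  have hma : ¬ (m : ℤ) ∣ a := h6b_dvd ha hN (by omega)
  have hAa : ¬ (A : ℤ) ∣ a := h6b_dvd ha hN (by omega)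
  have hta : ¬ (t : ℤ) ∣ a := h6b_dvd ha hN (by omega)
  have hqa : ¬ (q : ℤ) ∣ a := h6b_dvd ha hN (by omega)
  have : Fact d.Prime := ⟨hd⟩
  have : NeZero m := ⟨hn.ne_zero⟩
  have : NeZero A := ⟨hp1.ne_zero⟩
  have : NeZero t := ⟨ht.ne_zero⟩
  have : NeZero q := ⟨hp2.ne_zero⟩
  have key := four_neg a d m A t q (by omega) hn hp1 ht hp2 (by omega) (by omega) heq h2m
    ⟨by omega, by omega, by omega, hAt, by omega, by omega⟩ ⟨by omega, by omega, by omega, by omega⟩ hneg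
  have hL0 : (1 : ℝ) ≤ L := le_trans (by exact_mod_cast (by omega : 1 ≤ d)) hdL
  have hdR : (0 : ℝ) ≤ (d : ℝ) := Nat.cast_nonneg _
  have hNR : (0 : ℝ) ≤ (N : ℝ) := Nat.cast_nonneg _
  have hAR : (A : ℝ) ≤ 4 * N := by exact_mod_cast hA2
  have hqR : (q : ℝ) ≤ 4 * N := by exact_mod_cast hq2
  have htR : (t : ℝ) ≤ 4 * N := by exact_mod_cast (by omega : t ≤ 4 * N)
  have hmR : (m : ℝ) ≤ 4 * N * d := by
    have h1 : (2 : ℝ) * m = d * A + q := by exact_mod_cast h2m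
    have h2 : (d : ℝ) * A ≤ d * (4 * N) := mul_le_mul_of_nonneg_left hAR hdR
    have h3 : (1 : ℝ) ≤ d := by exact_mod_cast (by omega : 1 ≤ d)
    nlinarith
  have hA0 : (0 : ℝ) ≤ A := Nat.cast_nonneg _
  have hq0 : (0 : ℝ) ≤ q := Nat.cast_nonneg _
  have ht0 : (0 : ℝ) ≤ t := Nat.cast_nonneg _
  have hm0 : (0 : ℝ) ≤ m := Nat.cast_nonneg _
  have hd1 : (1 : ℝ) ≤ d := by exact_mod_cast (by omega : 1 ≤ d)
  have hdd : (d : ℝ) ≤ d ^ 2 := by nlinarith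
  have hd2L : (d : ℝ) ^ 2 ≤ L ^ 2 := by gcongr
  have hb : 16 * (d : ℝ) ^ 2 * (N : ℝ) ^ 2 ≤ 16 * L ^ 2 * (N : ℝ) ^ 2 := by gcongr
  have b1 : ((m * q : ℕ) : ℝ) ≤ 16 * L ^ 2 * (N : ℝ) ^ 2 := by
    push_cast
    calc (m : ℝ) * q ≤ (4 * N * d) * (4 * N) := by gcongr
      _ = 16 * (d : ℝ) * (N : ℝ) ^ 2 := by ring
      _ ≤ 16 * (d : ℝ) ^ 2 * (N : ℝ) ^ 2 := by gcongr
      _ ≤ _ := hb
  have b2 : ((d * (m * A) : ℕ) : ℝ) ≤ 16 * L ^ 2 * (N : ℝ) ^ 2 := by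
    push_cast
    calc (d : ℝ) * (m * A) ≤ d * ((4 * N * d) * (4 * N)) := by gcongr
      _ = 16 * (d : ℝ) ^ 2 * (N : ℝ) ^ 2 := by ring
      _ ≤ _ := hb
  have b3 : ((d * (A * t) : ℕ) : ℝ) ≤ 16 * L ^ 2 * (N : ℝ) ^ 2 := by
    push_cast
    calc (d : ℝ) * (A * t) ≤ d * ((4 * N) * (4 * N)) := by gcongr
      _ = 16 * (d : ℝ) * (N : ℝ) ^ 2 := by ring
      _ ≤ 16 * (d : ℝ) ^ 2 * (N : ℝ) ^ 2 := by gcongr
      _ ≤ _ := hb
  have b4 : ((d * (t * q) : ℕ) : ℝ) ≤ 16 * L ^ 2 * (N : ℝ) ^ 2 := by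
    push_cast
    calc (d : ℝ) * (t * q) ≤ d * ((4 * N) * (4 * N)) := by gcongr
      _ = 16 * (d : ℝ) * (N : ℝ) ^ 2 := by ring
      _ ≤ 16 * (d : ℝ) ^ 2 * (N : ℝ) ^ 2 := by gcongr
      _ ≤ _ := hb
  have p1 : 0 < m * q := Nat.pos_of_ne_zero (NeZero.ne _)
  have p2 : 0 < d * (m * A) := Nat.mul_pos hd.pos (Nat.mul_pos hn.pos hp1.pos)
  have p3 : 0 < d * (A * t) := Nat.mul_pos hd.pos (Nat.mul_pos hp1.pos ht.pos)
  have p4 : 0 < d * (t * q) := Nat.mul_pos hd.pos (Nat.mul_pos ht.pos hp2.pos)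
  have o1 : h6bOk a L N (m * q) := h6b_okc2 hL0 hn hp2 hm2 hq2' (by omega) hma hqa (by omega) (by omega)
  have o2 : h6bOk a L N (d * (m * A)) :=
    h6b_okc3 hd hn hp1 hd2 hm2 hodd (by omega) (by omega) (by omega) hda hma hAa hdL (by omega) (by omega)
  have o3 : h6bOk a L N (d * (A * t)) :=
    h6b_okc3 hd hp1 ht hd2 hodd ht2 (by omega) (by omega) hAt hda hAa hta hdL (by omega) (by omega)
  have o4 : h6bOk a L N (d * (t * q)) :=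
    h6b_okc3 hd ht hp2 hd2 ht2 hq2' (by omega) (by omega) (by omega) hda hta hqa hdL (by omega) (by omega)
  have att : ∀ c : ℕ, (c = m * q ∨ c = d * (m * A) ∨ c = d * (A * t) ∨ c = d * (t * q)) → Att N c (A, q) :=
    fun c hc => ⟨d, m, t, hd, h2d, hn, ht, heq, hNt, h2m, hc⟩
  obtain ⟨hlo, hhi⟩ := h6b_four key
  constructor
  · rcases hlo with h | h | h | h
    · exact ⟨_, att _ (Or.inl rfl), p1, b1, o1, fun _ => h⟩
    · exact ⟨_, att _ (Or.inr (Or.inl rfl)), p2, b2, o2, fun _ => h⟩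
    · exact ⟨_, att _ (Or.inr (Or.inr (Or.inl rfl))), p3, b3, o3, fun _ => h⟩
    · exact ⟨_, att _ (Or.inr (Or.inr (Or.inr rfl))), p4, b4, o4, fun _ => h⟩
  · rcases hhi with h | h | h | h
    · exact ⟨_, att _ (Or.inl rfl), p1, b1, o1, fun _ => h⟩
    · exact ⟨_, att _ (Or.inr (Or.inl rfl)), p2, b2, o2, fun _ => h⟩
    · exact ⟨_, att _ (Or.inr (Or.inr (Or.inl rfl))), p3, b3, o3, fun _ => h⟩
    · exact ⟨_, att _ (Or.inr (Or.inr (Or.inr rfl))), p4, b4, o4, fun _ => h⟩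

open scoped Classical in
/-- a choice of moduli with small fibres -/
private lemma h6b_choose (N : ℕ) (G : Finset (ℕ × ℕ)) (Q : ℕ → Prop)
    (hG : ∀ z ∈ G, z.1.Prime ∧ z.2.Prime ∧ N < z.1 ∧ ∃ c, Att N c z ∧ Q c) :
    ∃ S : Finset ℕ, (∀ c ∈ S, Q c) ∧ #G ≤ 12 * #S := by
  have hch : ∀ z : ℕ × ℕ, ∃ c : ℕ, z ∈ G → Att N c z ∧ Q c := by
    intro z
    by_cases hz : z ∈ G
    · obtain ⟨-, -, -, c, hc⟩ := hG z hz
      exact ⟨c, fun _ => hc⟩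
    · exact ⟨0, fun h => absurd h hz⟩
  choose f hf using hch
  refine ⟨G.image f, ?_, ?_⟩
  · intro c hc
    obtain ⟨z, hz, rfl⟩ := mem_image.1 hc
    exact (hf z hz).2
  · refine card_le_mul_card_image G 12 fun c _ => ?_
    refine mult_le N c _ fun z hz => ?_
    rw [mem_filter] at hz
    obtain ⟨h1, h2, h3, -⟩ := hG z hz.1
    exact ⟨h1, h2, h3, hz.2 ▸ (hf z hz.1).1⟩

private lemma h6b_tend : Tendsto (fun n : ℕ => 4 * n ^ 32) atTop atTop := by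
  refine tendsto_atTop_mono (fun n => ?_) tendsto_id
  show n ≤ 4 * n ^ 32
  have := Nat.le_self_pow (n := 32) (by norm_num) n
  omega

/-- the logarithmic bounds at the scale `4 n^32` -/
private lemma h6b_log (B : ℕ) (cc : ℝ) (hcc : 0 < cc) : ∀ᶠ n : ℕ in atTop,
    1 ≤ Real.log n ∧ Real.log n ≤ Real.log ((4 * n ^ 32 : ℕ) : ℝ) ∧
    Real.log ((4 * n ^ 32 : ℕ) : ℝ) ≤ 33 * Real.log n ∧
    256 * 33 ^ (4 * B) ≤ Real.log n ∧ 32 ≤ cc * Real.log n ^ 6 := by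
  have ht : Tendsto (fun n : ℕ => Real.log n) atTop atTop :=
    Real.tendsto_log_atTop.comp tendsto_natCast_atTop_atTop
  filter_upwards [ht.eventually_ge_atTop 1, ht.eventually_ge_atTop (256 * 33 ^ (4 * B)),
    ht.eventually_ge_atTop (32 / cc), eventually_ge_atTop 4] with n h1 h2 h3 h4
  have hn : (0 : ℝ) < n := by exact_mod_cast (by omega : 0 < n)
  have e : Real.log ((4 * n ^ 32 : ℕ) : ℝ) = Real.log 4 + 32 * Real.log n := by
    push_cast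
    rw [Real.log_mul (by norm_num) (by positivity), Real.log_pow]
    push_cast
    ring
  have h4' : Real.log 4 ≤ Real.log n := Real.log_le_log (by norm_num) (by exact_mod_cast h4)
  have h4'' : 0 ≤ Real.log 4 := Real.log_nonneg (by norm_num)
  refine ⟨h1, by rw [e]; linarith, by rw [e]; linarith, h2, ?_⟩
  have h5 : Real.log n ≤ Real.log n ^ 6 := le_self_pow₀ h1 (by norm_num)
  rw [div_le_iff₀ hcc] at h3
  calc (32 : ℝ) ≤ Real.log n * cc := h3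
    _ = cc * Real.log n := mul_comm _ _
    _ ≤ cc * Real.log n ^ 6 := by gcongr

theorem both_scale : ∃ (B : ℕ) (c₁ : ℝ), 0 < c₁ ∧ ∀ a : ℤ, a ≠ 0 → ∀ᶠ n : ℕ in atTop,
    ∃ S S' : Finset ℕ, (∀ c ∈ S, 0 < c ∧ (c : ℝ) ≤ n ^ 64 * Real.log n ^ B ∧ Okc a B c ∧
        ∀ _ : NeZero c, (Kloo.F a c 1).re < 0) ∧
      (∀ c ∈ S', 0 < c ∧ (c : ℝ) ≤ n ^ 64 * Real.log n ^ B ∧ Okc a B c ∧ ∀ _ : NeZero c, 0 < (Kloo.F a c 1).re) ∧
      c₁ * n ^ 64 / Real.log n ^ 3 ≤ #S ∧ c₁ * n ^ 64 / Real.log n ^ 3 ≤ #S' := by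
  classical
  obtain ⟨B, hB2, hgood⟩ := good_pairs
  obtain ⟨cc, hcc, hpairs⟩ := LSieve.pairs_exist3 3 1 2 Nat.prime_three (by norm_num) (by norm_num)
    (by norm_num) (by decide)
  refine ⟨4 * B + 1, cc / 24, by positivity, fun a ha => ?_⟩
  filter_upwards [h6b_tend.eventually (hgood a ha), hpairs, h6b_log B cc hcc,
    h6b_tend.eventually (eventually_gt_atTop (2 * a.natAbs)),
    h6b_tend.eventually (eventually_ge_atTop 8)] with n hg hp hlog hNa hN8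
  obtain ⟨bad, hbad, hg⟩ := hg
  obtain ⟨𝒬, hcard, hQ⟩ := hp
  obtain ⟨hl1, hl2, hl3, hl4, hl5⟩ := hlog
  set N := 4 * n ^ 32 with hNdef
  set G := 𝒬.filter fun z => z ∉ bad with hG
  set l := Real.log n with hldef
  set lN := Real.log (N : ℝ) with hlN
  have hl0 : 0 < l := by linarith
  have hlN0 : 0 < lN := by linarith
  -- the size of `G`
  have hNR : (N : ℝ) = 4 * (n : ℝ) ^ 32 := by rw [hNdef]; push_cast; ring
  have hGcard : cc / 2 * n ^ 64 / l ^ 3 ≤ #G := by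
    have h1 : #𝒬 ≤ #G + bad.card := by
      have h2 : 𝒬 ⊆ G ∪ bad := by
        intro z hz
        by_cases hb : z ∈ bad
        · exact mem_union_right _ hb
        · exact mem_union_left _ (mem_filter.2 ⟨hz, hb⟩)
      exact (card_le_card h2).trans (card_union_le _ _)
    have h1' : (#𝒬 : ℝ) ≤ #G + bad.card := by exact_mod_cast h1
    have h3 : (bad.card : ℝ) ≤ cc / 2 * n ^ 64 / l ^ 3 := by
      refine hbad.trans ?_
      have h4 : (lN ^ 9)⁻¹ ≤ (l ^ 9)⁻¹ := by gcongr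
      calc (N : ℝ) ^ 2 * (lN ^ 9)⁻¹ ≤ (N : ℝ) ^ 2 * (l ^ 9)⁻¹ := by gcongr
        _ = 16 * n ^ 64 / l ^ 9 := by rw [hNR]; ring
        _ ≤ cc / 2 * n ^ 64 / l ^ 3 := by
          rw [div_le_div_iff₀ (by positivity) (by positivity)]
          have h5 : 16 ≤ cc / 2 * l ^ 6 := by linarith
          have h6 : (0 : ℝ) ≤ (n : ℝ) ^ 64 * l ^ 3 := by positivity
          calc 16 * (n : ℝ) ^ 64 * l ^ 3 = 16 * ((n : ℝ) ^ 64 * l ^ 3) := by ring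
            _ ≤ (cc / 2 * l ^ 6) * ((n : ℝ) ^ 64 * l ^ 3) := mul_le_mul_of_nonneg_right h5 h6
            _ = cc / 2 * (n : ℝ) ^ 64 * l ^ 9 := by ring
    have h7 : cc * n ^ 64 / l ^ 3 = cc / 2 * n ^ 64 / l ^ 3 + cc / 2 * n ^ 64 / l ^ 3 := by ring
    linarith
  -- the moduli
  have hbound : ∀ c : ℕ, (c : ℝ) ≤ 16 * (lN ^ (2 * B)) ^ 2 * (N : ℝ) ^ 2 →
      (c : ℝ) ≤ n ^ 64 * l ^ (4 * B + 1) := by
    intro c hc
    refine hc.trans ?_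
    have h1 : (lN ^ (2 * B)) ^ 2 ≤ (33 * l) ^ (4 * B) := by
      rw [← pow_mul]
      have : 2 * B * 2 = 4 * B := by ring
      rw [this]
      gcongr
    calc 16 * (lN ^ (2 * B)) ^ 2 * (N : ℝ) ^ 2 ≤ 16 * (33 * l) ^ (4 * B) * (N : ℝ) ^ 2 := by gcongr
      _ = (n : ℝ) ^ 64 * l ^ (4 * B) * (256 * 33 ^ (4 * B)) := by rw [hNR, mul_pow]; ring
      _ ≤ (n : ℝ) ^ 64 * l ^ (4 * B) * l := by gcongr
      _ = n ^ 64 * l ^ (4 * B + 1) := by ring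
  have hloc : ∀ z ∈ G, (z.1.Prime ∧ z.2.Prime ∧ N < z.1) ∧
      (∃ c, Att N c z ∧ (0 < c ∧ (c : ℝ) ≤ 16 * (lN ^ (2 * B)) ^ 2 * (N : ℝ) ^ 2 ∧ h6bOk a (lN ^ (2 * B)) N c ∧
        ∀ _ : NeZero c, (Kloo.F a c 1).re < 0)) ∧
      (∃ c, Att N c z ∧ (0 < c ∧ (c : ℝ) ≤ 16 * (lN ^ (2 * B)) ^ 2 * (N : ℝ) ^ 2 ∧ h6bOk a (lN ^ (2 * B)) N c ∧
        ∀ _ : NeZero c, 0 < (Kloo.F a c 1).re)) := by
    intro z hz
    rw [hG, mem_filter] at hz
    obtain ⟨hz1, hz2⟩ := hz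
    obtain ⟨hp1, hp2, hlo, hlt, hhi, -, -, t, ht, htN, heq⟩ := hQ z hz1
    have hN2 : N = 2 * (2 * n ^ 32) := by rw [hNdef]; ring
    have h16 : 16 * n ^ 32 = 4 * N := by rw [hNdef]; ring
    have hodd : z.1 % 2 = 1 := by
      rcases hp1.eq_two_or_odd with h | h
      · omega
      · exact h
    have ht2 : t % 2 = 1 := by
      rcases ht.eq_two_or_odd with h | h
      · omega
      · exact h
    have hbox : z ∈ Box N := by
      rw [Box, mem_filter, mem_product, mem_Ioc, mem_Ioc]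
      refine ⟨⟨⟨hlo, by omega⟩, ⟨by omega, by omega⟩⟩, hodd, by omega⟩
    have htt : (z.2 - z.1) / 2 = t := by omega
    obtain ⟨d, hd, hd4, hd11, hdL, h2d, hda, hn, hneg⟩ := hg z hbox hz2 hp1 hp2 hlt
      (by rw [htt]; exact ht) (by rw [htt]; omega)
    exact ⟨⟨hp1, hp2, hlo⟩, h6b_local a ha N (lN ^ (2 * B)) z hbox hNa hN8 hp1 hp2 hlt t ht (by omega)
      heq d hd hd4 hd11 hdL h2d hda hn hneg⟩
  obtain ⟨S, hS, hSc⟩ := h6b_choose N G (fun c => 0 < c ∧ (c : ℝ) ≤ 16 * (lN ^ (2 * B)) ^ 2 * (N : ℝ) ^ 2 ∧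
    h6bOk a (lN ^ (2 * B)) N c ∧ ∀ _ : NeZero c, (Kloo.F a c 1).re < 0) fun z hz =>
      ⟨(hloc z hz).1.1, (hloc z hz).1.2.1, (hloc z hz).1.2.2, (hloc z hz).2.1⟩
  obtain ⟨S', hS', hSc'⟩ := h6b_choose N G (fun c => 0 < c ∧ (c : ℝ) ≤ 16 * (lN ^ (2 * B)) ^ 2 * (N : ℝ) ^ 2 ∧
    h6bOk a (lN ^ (2 * B)) N c ∧ ∀ _ : NeZero c, 0 < (Kloo.F a c 1).re) fun z hz =>
      ⟨(hloc z hz).1.1, (hloc z hz).1.2.1, (hloc z hz).1.2.2, (hloc z hz).2.2⟩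
  have hfin : ∀ T : Finset ℕ, #G ≤ 12 * #T → cc / 24 * n ^ 64 / l ^ 3 ≤ #T := by
    intro T hT
    have h1 : (#G : ℝ) ≤ 12 * #T := by exact_mod_cast hT
    have h2 : cc / 24 * n ^ 64 / l ^ 3 = (cc / 2 * n ^ 64 / l ^ 3) / 12 := by ring
    rw [h2]
    linarith
  have hokc : ∀ c : ℕ, (c : ℝ) ≤ n ^ 64 * l ^ (4 * B + 1) → h6bOk a (lN ^ (2 * B)) N c → Okc a (4 * B + 1) c := by
    rintro c hc ⟨h1, h2, h3, d, p, p', rfl, hd, hp, hp', hdL, hNp, hNp'⟩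
    refine ⟨h1, h2, h3, d, p, p', rfl, hd, hp, hp', ?_⟩
    set c := d * (p * p') with hcdef
    have hd1 : 1 ≤ d := by
      rcases hd with h | h
      · omega
      · exact h.one_lt.le
    have hp2 : 2 * n ^ 32 ≤ p := by omega
    have hp2' : 2 * n ^ 32 ≤ p' := by omega
    have hn1 : 1 ≤ n := by
      by_contra h0
      have : n = 0 := by omega
      rw [hldef, this] at hl1
      norm_num at hl1
    have hnc : n ≤ c := by
      have e1 : n ≤ p := by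
        have := Nat.le_self_pow (n := 32) (by norm_num) n
        omega
      calc n ≤ p := e1
        _ = 1 * (p * 1) := by ring
        _ ≤ d * (p * p') := Nat.mul_le_mul hd1 (Nat.mul_le_mul_left _ hp'.one_lt.le)
    have hlc : l ≤ Real.log c := by
      rw [hldef]
      exact Real.log_le_log (by exact_mod_cast hn1) (by exact_mod_cast hnc)
    have hpow : l ^ (4 * B + 1) ≤ Real.log c ^ (4 * B + 1) := by gcongr
    have hsq : ∀ r : ℕ, 2 * n ^ 32 ≤ r → (c : ℝ) ≤ (r : ℝ) ^ 2 * Real.log c ^ (4 * B + 1) := by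
      intro r hr
      have hr' : 2 * (n : ℝ) ^ 32 ≤ r := by exact_mod_cast hr
      have hr2 : (n : ℝ) ^ 64 ≤ (r : ℝ) ^ 2 := by
        have e1 : (n : ℝ) ^ 32 ≤ r := by
          have : (0 : ℝ) ≤ (n : ℝ) ^ 32 := by positivity
          linarith
        calc (n : ℝ) ^ 64 = ((n : ℝ) ^ 32) ^ 2 := by ring
          _ ≤ (r : ℝ) ^ 2 := by gcongr
      calc (c : ℝ) ≤ n ^ 64 * l ^ (4 * B + 1) := hc
        _ ≤ (r : ℝ) ^ 2 * Real.log c ^ (4 * B + 1) := by gcongr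
    refine ⟨?_, hsq p hp2, hsq p' hp2'⟩
    refine hdL.trans (le_trans ?_ hpow)
    have h33 : (33 : ℝ) ^ (2 * B) ≤ l := by
      refine le_trans ?_ hl4
      have e1 : (33 : ℝ) ^ (2 * B) ≤ 33 ^ (4 * B) := pow_le_pow_right₀ (by norm_num) (by omega)
      have e2 : (0 : ℝ) ≤ 33 ^ (4 * B) := by positivity
      linarith
    calc lN ^ (2 * B) ≤ (33 * l) ^ (2 * B) := by gcongr
      _ = 33 ^ (2 * B) * l ^ (2 * B) := by rw [mul_pow]
      _ ≤ l * l ^ (4 * B) := by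
        have e3 : l ^ (2 * B) ≤ l ^ (4 * B) := pow_le_pow_right₀ hl1 (by omega)
        gcongr
      _ = l ^ (4 * B + 1) := by ring
  refine ⟨S, S', fun c hc => ?_, fun c hc => ?_, hfin S hSc, hfin S' hSc'⟩
  · obtain ⟨h1, h2, h3, h4⟩ := hS c hc
    exact ⟨h1, hbound c h2, hokc c (hbound c h2) h3, h4⟩
  · obtain ⟨h1, h2, h3, h4⟩ := hS' c hc
    exact ⟨h1, hbound c h2, hokc c (hbound c h2) h3, h4⟩

end Pool.Agent.LibKC40
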