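import Mathlib

/-!
Row H7 (ONLY MATHLIB, SHORT/MEDIUM). From the scales `n` to all real `X`. Template: `Kloo.real_transfer` (`LibKloosterman/Transfer.lean`).

PLAN. `n = ⌊(X/(log X)^(B+1))^(1/64)⌋`: `n → ∞`, `n^64 (log n)^B ≤ X/(log X)^(B+1) (log X)^B ≤ X`, and `(2n)^64 ≥ X/(log X)^(B+1)`. So the count is
`≥ c₁ n^64/(log n)³ ≥ c₁ 2^(-64) X/(log X)^(B+4) ≥ X/(log X)^(B+5)`.
-/

set_option autoImplicit false

namespace Pool.Agent.LibKC40

open Finset Filter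

private lemma h7_tendsto (k : ℕ) : Tendsto (fun X : ℝ => X / Real.log X ^ k) atTop atTop := by
  have h1 : Tendsto (fun X : ℝ => Real.log X ^ k / X) atTop (nhds 0) :=
    (Real.isLittleO_pow_log_id_atTop (n := k)).tendsto_div_nhds_zero
  have h2 : ∀ᶠ X : ℝ in atTop, 0 < Real.log X ^ k / X := by
    filter_upwards [eventually_gt_atTop 1] with X hX
    exact div_pos (pow_pos (Real.log_pos hX) k) (by linarith)
  have h3 : Tendsto (fun X : ℝ => Real.log X ^ k / X) atTop (nhdsWithin 0 (Set.Ioi 0)) :=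
    tendsto_nhdsWithin_iff.mpr ⟨h1, h2⟩
  refine h3.inv_tendsto_nhdsGT_zero.congr fun X => ?_
  rw [Pi.inv_apply, inv_div]

theorem to_real (P : ℕ → Prop) (B : ℕ) (c₁ : ℝ) (hc : 0 < c₁)
    (h : ∀ᶠ n : ℕ in atTop, ∃ S : Finset ℕ, (∀ c ∈ S, (c : ℝ) ≤ n ^ 64 * Real.log n ^ B ∧ P c) ∧
      c₁ * n ^ 64 / Real.log n ^ 3 ≤ #S) :
    ∀ᶠ X : ℝ in atTop, X / Real.log X ^ (B + 5) ≤ (({c : ℕ | (c : ℝ) ≤ X ∧ P c} : Set ℕ).ncard : ℝ) := by
  have hfl : Tendsto (fun X : ℝ => ⌊(X / Real.log X ^ (B + 1)) ^ ((1 : ℝ) / 64)⌋₊) atTop atTop := by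
    apply tendsto_nat_floor_atTop.comp
    exact (tendsto_rpow_atTop (by norm_num : (0 : ℝ) < 1 / 64)).comp (h7_tendsto (B + 1))
  filter_upwards [hfl.eventually h, hfl.eventually_ge_atTop 3, eventually_gt_atTop 1,
    Real.tendsto_log_atTop.eventually_ge_atTop 1,
    Real.tendsto_log_atTop.eventually_ge_atTop (2 ^ 64 / c₁)]
    with X hX hn hX1 hL1 hL2
  obtain ⟨S, hS, hcard⟩ := hX
  obtain ⟨n, hndef⟩ : ∃ n : ℕ, n = ⌊(X / Real.log X ^ (B + 1)) ^ ((1 : ℝ) / 64)⌋₊ := ⟨_, rfl⟩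
  rw [← hndef] at hS hcard hn
  obtain ⟨L, hLdef⟩ : ∃ L : ℝ, L = Real.log X := ⟨_, rfl⟩
  rw [← hLdef] at hndef hL1 hL2 ⊢
  have hX0 : 0 < X := by linarith
  have hL0 : 0 < L := by linarith
  have hn' : (3 : ℝ) ≤ n := by exact_mod_cast hn
  have hn0 : (0 : ℝ) < n := by linarith
  have hy : 0 < X / L ^ (B + 1) := div_pos hX0 (pow_pos hL0 _)
  have hroot : ((X / L ^ (B + 1)) ^ ((1 : ℝ) / 64)) ^ 64 = X / L ^ (B + 1) := by
    rw [← Real.rpow_natCast, ← Real.rpow_mul hy.le]; norm_num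
  have h1 : (n : ℝ) ^ 64 ≤ X / L ^ (B + 1) := by
    have h2 : (n : ℝ) ≤ (X / L ^ (B + 1)) ^ ((1 : ℝ) / 64) := by
      rw [hndef]; exact Nat.floor_le (by positivity)
    rw [← hroot]
    exact pow_le_pow_left₀ hn0.le h2 64
  have h2 : X / L ^ (B + 1) ≤ 2 ^ 64 * (n : ℝ) ^ 64 := by
    have h3 : (X / L ^ (B + 1)) ^ ((1 : ℝ) / 64) ≤ 2 * n := by
      have := Nat.lt_floor_add_one ((X / L ^ (B + 1)) ^ ((1 : ℝ) / 64))
      rw [← hndef] at this
      linarith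
    rw [← mul_pow, ← hroot]
    exact pow_le_pow_left₀ (by positivity) h3 64
  have hyX : X / L ^ (B + 1) ≤ X := div_le_self hX0.le (one_le_pow₀ hL1)
  have hlogn : 0 < Real.log n := Real.log_pos (by linarith)
  have hlog : Real.log n ≤ L := by
    rw [hLdef]
    apply Real.log_le_log hn0
    have h3 : (n : ℝ) ≤ (n : ℝ) ^ 64 := le_self_pow₀ (by linarith) (by norm_num)
    linarith
  have hfin : ({c : ℕ | (c : ℝ) ≤ X ∧ P c} : Set ℕ).Finite := by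
    apply (Set.finite_Iic ⌊X⌋₊).subset
    rintro c ⟨hc, _⟩
    exact Nat.le_floor hc
  have hSsub : (S : Set ℕ) ⊆ {c : ℕ | (c : ℝ) ≤ X ∧ P c} := by
    intro c hc
    have h3 := hS c hc
    refine ⟨h3.1.trans ?_, h3.2⟩
    calc (n : ℝ) ^ 64 * Real.log n ^ B ≤ X / L ^ (B + 1) * L ^ B :=
          mul_le_mul h1 (pow_le_pow_left₀ hlogn.le hlog B) (pow_nonneg hlogn.le B) hy.le
      _ = X / L := by
          rw [pow_succ]
          field_simp
      _ ≤ X := div_le_self hX0.le hL1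
  have h6 : (#S : ℝ) ≤ (({c : ℕ | (c : ℝ) ≤ X ∧ P c} : Set ℕ).ncard : ℝ) := by
    have := Set.ncard_le_ncard hSsub hfin
    rw [Set.ncard_coe_finset] at this
    exact_mod_cast this
  refine le_trans ?_ h6
  refine le_trans ?_ hcard
  have h7 : c₁ * (X / L ^ (B + 1) / 2 ^ 64) / L ^ 3 ≤ c₁ * n ^ 64 / Real.log n ^ 3 := by
    have h8 : c₁ * (X / L ^ (B + 1) / 2 ^ 64) ≤ c₁ * (n : ℝ) ^ 64 := by
      apply mul_le_mul_of_nonneg_left _ hc.le
      rw [div_le_iff₀ (by positivity)]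
      linarith
    apply div_le_div₀ (by positivity) h8 (pow_pos hlogn 3)
    exact pow_le_pow_left₀ hlogn.le hlog 3
  refine le_trans ?_ h7
  have h9 : 1 ≤ c₁ * L / 2 ^ 64 := by
    rw [le_div_iff₀ (by positivity), one_mul]
    rw [div_le_iff₀ hc] at hL2
    linarith
  have e1 : c₁ * (X / L ^ (B + 1) / 2 ^ 64) / L ^ 3 = X / L ^ (B + 5) * (c₁ * L / 2 ^ 64) := by
    rw [show B + 5 = (B + 1) + 4 by ring, pow_add L (B + 1) 4]
    field_simp
  rw [e1]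
  have h10 : 0 ≤ X / L ^ (B + 5) := by positivity
  exact le_mul_of_one_le_right h10 h9

end Pool.Agent.LibKC40
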