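import Pool.Agent.LibKC40.GDefs
import Pool.Agent.LibPL63.SA2
import Pool.Agent.LibPL63.SA5

/-!
Row M1 (MEDIUM/STRONG, sieve). Odd `A` in an interval with `n + g A` free of primes `≤ w = (log N)^K1`, tiny error.

PLAN. `LibPL63.lemmaSA` for the average over the odd `A ∈ (u, v]`: `om = 1`, `good = {p odd prime}`, `lp p y = 1/p`, `X = (v-u)/2`, `Er q = 1` (a class
modulo `q` odd, and odd: number in `(u,v]` is `(v-u)/(2q) + O(1)`; field `hp` by `hp_of_classes` (`LibPL63/SA3.lean`), see `avgU` in `LibPL63/SA5.lean` and `avgP` in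
`LibPL63/SA6.lean`); take `Er q = 2` if convenient. `Pr = PrO w`, `x p A = if p ∣ n + g A then 1 else 0`: `Ep = 1/p` if `p ∤ g`, `= 0` if `p ∣ g` (then
`p ∤ n`); `k = 1`, `T = ∅`, `z = w`, `b` even, `b + 1 ≥ e² C (K + 2) log log N`: `eps0 C 1 b ≤ C e^C (C e/(b+1))^(b+1) ≤ (log N)^(-K)`, and the remainder is
`≤ 2 #{D : ∏ D ≤ w^(2b+6)} ≤ 2 w^(2b+6) = exp(O((log log N)²)) ≤ √N`. The prime `2` never divides `n + g A`.
-/

set_option autoImplicit false

namespace Pool.Agent.LibKC40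

open Finset Filter Pool.Agent.LibSW40 Pool.Agent.LibPL63 Pool.Agent.LibLG5

private theorem m1_cnt (u v m r : ℕ) (huv : u ≤ v) (hm : 0 < m) (hr : r < m) :
    |(#((Ioc u v).filter fun A => A % m = r) : ℝ) - ((v : ℝ) - u) / m| ≤ 1 := by
  have h1 : (Ioc u v).filter (fun A => A % m = r) = (Ioc u v).filter (fun A => A ≡ r [MOD m]) := by
    refine Finset.filter_congr fun A _ => ?_
    unfold Nat.ModEq
    rw [Nat.mod_eq_of_lt hr]
  rw [h1]
  have h2 := Nat.Ioc_filter_modEq_card u v hm r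
  have hm0 : (0 : ℚ) < m := by exact_mod_cast hm
  have huv' : (u : ℚ) ≤ v := by exact_mod_cast huv
  have h3 : ⌊((u : ℚ) - r) / m⌋ ≤ ⌊((v : ℚ) - r) / m⌋ := by
    refine Int.floor_le_floor ?_
    exact div_le_div_of_nonneg_right (by linarith) hm0.le
  rw [max_eq_left (by linarith)] at h2
  have h4 : (#((Ioc u v).filter fun A => A ≡ r [MOD m]) : ℚ) =
      (⌊((v : ℚ) - r) / m⌋ : ℚ) - (⌊((u : ℚ) - r) / m⌋ : ℚ) := by
    exact_mod_cast h2
  have h5 : |(#((Ioc u v).filter fun A => A ≡ r [MOD m]) : ℚ) - ((v : ℚ) - u) / m| ≤ 1 := by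
    have e1 := Int.floor_le (((v : ℚ) - r) / m)
    have e2 := Int.lt_floor_add_one (((v : ℚ) - r) / m)
    have e3 := Int.floor_le (((u : ℚ) - r) / m)
    have e4 := Int.lt_floor_add_one (((u : ℚ) - r) / m)
    have e5 : ((v : ℚ) - u) / m = ((v : ℚ) - r) / m - ((u : ℚ) - r) / m := by ring
    rw [h4, e5, abs_le]
    constructor <;> linarith
  have h6 : ((|(#((Ioc u v).filter fun A => A ≡ r [MOD m]) : ℚ) - ((v : ℚ) - u) / m| : ℚ) : ℝ) ≤
      ((1 : ℚ) : ℝ) := Rat.cast_le.2 h5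
  push_cast at h6
  exact h6

/-- the odd numbers in an interval -/
private noncomputable def m1_avg (u v : ℕ) (huv : u ≤ v) : Average where
  s := (Ioc u v).filter fun A => A % 2 = 1
  om := fun _ => 1
  good := {p | p.Prime ∧ ¬ p ∣ 2}
  lp := fun p _ => 1 / (p : ℝ)
  X := ((v : ℝ) - u) / 2
  Er := fun _ => 1
  om_nonneg := fun _ _ => zero_le_one
  X_nonneg := by
    have : (u : ℝ) ≤ v := by exact_mod_cast huv
    linarith
  Er_nonneg := fun _ => zero_le_one
  good_prime := fun p hp => hp.1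
  lp_nonneg := fun p _ _ => by positivity
  lp_sum := fun p hp => by
    rw [Finset.sum_const, Finset.card_range, nsmul_eq_mul, mul_one_div,
      div_self (by exact_mod_cast (hp.1).ne_zero)]
  hp := by
    refine hp_of_classes ((Ioc u v).filter fun A => A % 2 = 1) (fun _ => 1) {p | p.Prime ∧ ¬ p ∣ 2}
      (fun (p : ℕ) (hp : p ∈ {p : ℕ | p.Prime ∧ ¬ p ∣ 2}) => hp.1)
      (fun p _ => 1 / (p : ℝ)) (((v : ℝ) - u) / 2) (fun _ => 1) ?_
    intro T hT a ha
    set q := ∏ p ∈ T, p with hq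
    have hq0 : 0 < q := Finset.prod_pos fun p hp => (hT p hp).1.pos
    have hcop : Nat.Coprime 2 q := by
      apply Nat.Coprime.prod_right
      intro p hp
      exact ((Nat.Prime.coprime_iff_not_dvd (hT p hp).1).2 (hT p hp).2).symm
    set r : ℕ := (Nat.chineseRemainder hcop 1 a : ℕ) with hr
    have hrlt : r < 2 * q := Nat.chineseRemainder_lt_mul hcop 1 a two_ne_zero hq0.ne'
    have h1 : ((Ioc u v).filter fun A => A % 2 = 1).filter (fun A => A % q = a) =
        (Ioc u v).filter (fun A => A % (2 * q) = r) := by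
      rw [Finset.filter_filter]
      refine Finset.filter_congr fun A _ => ?_
      exact crt_mod 2 q 1 a A two_pos hq0 hcop one_lt_two ha
    have h2 : ((v : ℝ) - u) / 2 * ∏ p ∈ T, 1 / (p : ℝ) = ((v : ℝ) - u) / ((2 * q : ℕ) : ℝ) := by
      rw [Finset.prod_div_distrib, Finset.prod_const_one, hq]
      push_cast
      rw [div_mul_div_comm, mul_one]
    rw [h1, h2, Finset.sum_const, nsmul_eq_mul, mul_one]
    exact m1_cnt u v (2 * q) r huv (by omega) hrlt

private theorem m1_one {p n g : ℕ} (hp : p.Prime) (hg : ¬ p ∣ g) :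
    ∑ y ∈ range p, (if p ∣ n + g * y then (1 : ℝ) else 0) = 1 := by
  have : Fact p.Prime := ⟨hp⟩
  have hg0 : (g : ZMod p) ≠ 0 := by
    intro h
    exact hg ((ZMod.natCast_eq_zero_iff g p).1 h)
  set y0 : ℕ := (-(n : ZMod p) * (g : ZMod p)⁻¹).val with hy0
  have hy0lt : y0 < p := ZMod.val_lt _
  have h1 : ∀ y ∈ range p, (if p ∣ n + g * y then (1 : ℝ) else 0) = if y = y0 then 1 else 0 := by
    intro y hy
    rw [Finset.mem_range] at hy
    have h2 : p ∣ n + g * y ↔ y = y0 := by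
      rw [← ZMod.natCast_eq_zero_iff]
      push_cast
      constructor
      · intro h
        have h3 : (y : ZMod p) = -(n : ZMod p) * (g : ZMod p)⁻¹ := by
          field_simp
          linear_combination h
        rw [hy0, ← h3, ZMod.val_cast_of_lt hy]
      · intro h
        have h3 : (y : ZMod p) = -(n : ZMod p) * (g : ZMod p)⁻¹ := by
          rw [h, hy0, ZMod.natCast_zmod_val]
        rw [h3]
        field_simp
        ring
    by_cases h : y = y0
    · rw [if_pos h, if_pos (h2.2 h)]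
    · rw [if_neg h, if_neg fun h' => h (h2.1 h')]
  rw [Finset.sum_congr rfl h1, Finset.sum_ite_eq' (range p) y0, if_pos (Finset.mem_range.2 hy0lt)]

private theorem m1_card (S : Finset ℕ) (hS : ∀ p ∈ S, p.Prime) (M : ℕ) :
    #(S.powerset.filter fun D => ∏ p ∈ D, p ≤ M) ≤ M := by
  have h1 : #(S.powerset.filter fun D => ∏ p ∈ D, p ≤ M) ≤ #(Icc 1 M) := by
    refine Finset.card_le_card_of_injOn (fun D => ∏ p ∈ D, p) ?_ ?_
    · intro D hD
      rw [Finset.mem_coe, Finset.mem_filter, Finset.mem_powerset] at hD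
      rw [Finset.mem_coe, Finset.mem_Icc]
      exact ⟨Finset.prod_pos fun p hp => (hS p (hD.1 hp)).pos, hD.2⟩
    · intro D hD D' hD' h
      rw [Finset.mem_coe, Finset.mem_filter, Finset.mem_powerset] at hD hD'
      have e1 := Nat.primeFactors_prod (s := D) fun p hp => hS p (hD.1 hp)
      have e2 := Nat.primeFactors_prod (s := D') fun p hp => hS p (hD'.1 hp)
      have h' : ∏ p ∈ D, p = ∏ p ∈ D', p := h
      rw [← e1, ← e2, h']
  rwa [Nat.card_Icc, Nat.add_sub_cancel] at h1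

private theorem m1_eps (C b : ℕ) :
    eps0 C 1 b ≤ C * Real.exp C * Real.exp (Real.exp 1 * C) * Real.exp (-((b : ℝ) + 1)) := by
  unfold eps0
  have h1 := Real.pow_div_factorial_le_exp (Real.exp 1 * C) (by positivity) (b + 1)
  have h2 : (C : ℝ) ^ (b + 1) / ((b + 1).factorial : ℝ) ≤
      Real.exp (Real.exp 1 * C) * Real.exp (-((b : ℝ) + 1)) := by
    have h3 : (C : ℝ) ^ (b + 1) = (Real.exp 1 * C) ^ (b + 1) * Real.exp (-((b : ℝ) + 1)) := by
      rw [mul_pow, ← Real.exp_nat_mul, mul_one, mul_right_comm, ← Real.exp_add]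
      push_cast
      rw [add_neg_cancel, Real.exp_zero, one_mul]
    rw [h3, mul_div_right_comm]
    exact mul_le_mul_of_nonneg_right h1 (Real.exp_pos _).le
  have h4 : (C : ℝ) * (C * ((1 : ℕ) : ℝ)) ^ (b + 1) * Real.exp (C * ((1 : ℕ) : ℝ)) /
      ((b + 1).factorial : ℝ) =
      C * Real.exp C * ((C : ℝ) ^ (b + 1) / ((b + 1).factorial : ℝ)) := by
    rw [Nat.cast_one, mul_one]
    ring
  rw [h4]
  calc C * Real.exp C * ((C : ℝ) ^ (b + 1) / ((b + 1).factorial : ℝ))
      ≤ C * Real.exp C * (Real.exp (Real.exp 1 * C) * Real.exp (-((b : ℝ) + 1))) :=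
        mul_le_mul_of_nonneg_left h2 (by positivity)
    _ = _ := by ring

private theorem m1_grow (c : ℝ) : ∀ᶠ x : ℝ in atTop, c * x ^ 2 ≤ Real.exp x := by
  have h1 := Real.tendsto_pow_mul_exp_neg_atTop_nhds_zero 2
  have h2 : ∀ᶠ x : ℝ in atTop, x ^ 2 * Real.exp (-x) < 1 / (|c| + 1) :=
    h1.eventually_lt_const (by positivity)
  filter_upwards [h2] with x hx
  have hc : 0 < |c| + 1 := by positivity
  have hx2 : 0 ≤ x ^ 2 := sq_nonneg x
  rw [Real.exp_neg, lt_div_iff₀ hc, ← div_eq_mul_inv, div_mul_eq_mul_div,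
    div_lt_one (Real.exp_pos x)] at hx
  have h3 := le_abs_self c
  nlinarith

open scoped Classical in
theorem model_count (K1 K : ℕ) : ∀ᶠ N : ℕ in atTop, ∀ w : ℕ, 2 ≤ w → (w : ℝ) ≤ Real.log N ^ K1 →
    ∀ g n u v : ℕ, g % 2 = 0 → 0 < g → n % 2 = 1 → (∀ p ∈ PrA w, ¬ (p ∣ n ∧ p ∣ g)) → u ≤ v →
      |(#((Ioc u v).filter fun A => A % 2 = 1 ∧ ∀ p ∈ PrA w, ¬ p ∣ n + g * A) : ℝ) -
        ((v : ℝ) - u) / 2 * ∏ p ∈ (PrO w).filter (fun p => ¬ p ∣ g), (1 - 1 / (p : ℝ))| ≤
        ((v : ℝ) - u) * (Real.log N ^ K)⁻¹ + Real.sqrt N := by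
  obtain ⟨C, hC1, hSA⟩ := lemmaSA
  set M0 : ℝ := C * Real.exp C * Real.exp (Real.exp 1 * C) with hM0
  have hM00 : 0 ≤ M0 := by positivity
  have hlogN : Tendsto (fun N : ℕ => Real.log N) atTop atTop :=
    Real.tendsto_log_atTop.comp tendsto_natCast_atTop_atTop
  have hllN : Tendsto (fun N : ℕ => Real.log (Real.log N)) atTop atTop :=
    Real.tendsto_log_atTop.comp hlogN
  filter_upwards [hlogN.eventually_ge_atTop (max M0 1), hllN.eventually_ge_atTop 1,
    hllN.eventually (m1_grow (2 * (K1 * (4 * (K + 1) + 10)))), eventually_ge_atTop 1] with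
    N hN1 hN2 hN3 hN4 w hw hwN g n u v hg hg0 hn hpn huv
  set L : ℝ := Real.log N with hL
  set x : ℝ := Real.log L with hx
  have hL1 : 1 ≤ L := (le_max_right _ _).trans hN1
  have hLM : M0 ≤ L := (le_max_left _ _).trans hN1
  have hL0 : 0 < L := by linarith
  have hexpx : Real.exp x = L := Real.exp_log hL0
  have huv' : (u : ℝ) ≤ v := by exact_mod_cast huv
  set r0 : ℕ := ⌈((K : ℝ) + 1) * x⌉₊ with hr0
  set b : ℕ := 2 * r0 with hb
  have hr1 : ((K : ℝ) + 1) * x ≤ r0 := Nat.le_ceil _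
  have hr2 : (r0 : ℝ) < ((K : ℝ) + 1) * x + 1 := Nat.ceil_lt_add_one (by positivity)
  have hbR : (b : ℝ) = 2 * r0 := by rw [hb]; push_cast; ring
  have heps : eps0 C 1 b ≤ (L ^ K)⁻¹ := by
    refine (m1_eps C b).trans ?_
    rw [← hM0]
    have h1 : Real.exp (-((b : ℝ) + 1)) ≤ Real.exp (-(((K : ℝ) + 1) * x)) := by
      refine Real.exp_le_exp.2 ?_
      have : 0 ≤ (r0 : ℝ) := Nat.cast_nonneg _
      linarith
    have h2 : Real.exp (-(((K : ℝ) + 1) * x)) = (L ^ (K + 1))⁻¹ := by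
      rw [Real.exp_neg, ← hexpx, ← Real.exp_nat_mul]
      push_cast
      rfl
    rw [h2] at h1
    calc M0 * Real.exp (-((b : ℝ) + 1)) ≤ L * (L ^ (K + 1))⁻¹ :=
          mul_le_mul hLM h1 (Real.exp_pos _).le hL0.le
      _ = (L ^ K)⁻¹ := by
          rw [pow_succ, mul_inv]
          field_simp
  have heps1 : eps0 C 1 b ≤ 1 := by
    refine heps.trans ?_
    exact inv_le_one_of_one_le₀ (one_le_pow₀ hL1)
  have heps0 : 0 ≤ eps0 C 1 b := by unfold eps0; positivity
  set Pr : Finset ℕ := (PrO w).filter (fun p => ¬ p ∣ g) with hPr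
  have hPrm : ∀ p ∈ Pr, p.Prime ∧ 3 ≤ p ∧ p ≤ w ∧ ¬ p ∣ g := by
    intro p hp
    rw [hPr, Finset.mem_filter] at hp
    have h1 := hp.1
    unfold PrO at h1
    rw [Finset.mem_filter, Finset.mem_Icc] at h1
    exact ⟨h1.2, h1.1.1, h1.1.2, hp.2⟩
  have hgood : ∀ p ∈ Pr, p ∈ (m1_avg u v huv).good ∧ p ≤ w := by
    intro p hp
    obtain ⟨h1, h2, h3, h4⟩ := hPrm p hp
    refine ⟨⟨h1, fun h5 => ?_⟩, h3⟩
    have := Nat.le_of_dvd two_pos h5
    omega
  have hEp : ∀ p ∈ Pr, (m1_avg u v huv).Ep p (fun A => if p ∣ n + g * A then (1 : ℝ) else 0) =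
      1 / p := by
    intro p hp
    obtain ⟨h1, h2, h3, h4⟩ := hPrm p hp
    show ∑ y ∈ range p, 1 / (p : ℝ) * (if p ∣ n + g * y then (1 : ℝ) else 0) = 1 / p
    rw [← Finset.mul_sum, m1_one h1 h4, mul_one]
  have key := hSA 1 b ⟨r0, by omega⟩ heps1 (m1_avg u v huv) w (by omega) Pr hgood
    (fun p A => if p ∣ n + g * A then (1 : ℝ) else 0)
    (fun p _ A => by
      show (if p ∣ n + g * (A + p) then (1 : ℝ) else 0) = if p ∣ n + g * A then 1 else 0
      have h1 : p ∣ n + g * (A + p) ↔ p ∣ n + g * A := by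
        rw [mul_add, ← add_assoc]
        exact (Nat.dvd_add_iff_left (Dvd.intro_left g rfl)).symm
      simp only [h1])
    (fun p _ A => by
      show (0 : ℝ) ≤ (if p ∣ n + g * A then (1 : ℝ) else 0) ∧ (if p ∣ n + g * A then (1 : ℝ) else 0) ≤ 1
      split_ifs <;> constructor <;> norm_num)
    (fun p hp => by
      obtain ⟨h1, h2, h3, h4⟩ := hPrm p hp
      rw [hEp p hp]
      have h5 : (3 : ℝ) ≤ p := by exact_mod_cast h2
      refine ⟨?_, ?_, ?_⟩
      · exact one_div_le_one_div_of_le two_pos (by linarith)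
      · rw [Nat.cast_one]
      · unfold tot
        have h6 : ∑ y ∈ range p, |(if p ∣ n + g * y then (1 : ℝ) else 0)| =
            ∑ y ∈ range p, (if p ∣ n + g * y then (1 : ℝ) else 0) := by
          refine Finset.sum_congr rfl fun y _ => ?_
          split_ifs <;> simp
        rw [h6, m1_one h1 h4, Nat.cast_one])
    ∅ (fun _ _ => 1) (fun p hp => absurd hp (Finset.notMem_empty p)) (Finset.disjoint_empty_left _)
    (fun p hp => absurd hp (Finset.notMem_empty p))
  simp only [Finset.prod_empty, mul_one] at key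
  have hEprod : ∏ p ∈ Pr, (1 - (m1_avg u v huv).Ep p (fun A => if p ∣ n + g * A then (1 : ℝ) else 0)) =
      ∏ p ∈ Pr, (1 - 1 / (p : ℝ)) :=
    Finset.prod_congr rfl fun p hp => by rw [hEp p hp]
  rw [hEprod] at key
  have hcount : ∑ A ∈ (m1_avg u v huv).s, (m1_avg u v huv).om A *
      ∏ p ∈ Pr, (1 - (if p ∣ n + g * A then (1 : ℝ) else 0)) =
      (#((Ioc u v).filter fun A => A % 2 = 1 ∧ ∀ p ∈ PrA w, ¬ p ∣ n + g * A) : ℝ) := by
    show ∑ A ∈ (Ioc u v).filter (fun A => A % 2 = 1), (1 : ℝ) *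
      ∏ p ∈ Pr, (1 - (if p ∣ n + g * A then (1 : ℝ) else 0)) = _
    have h1 : ∀ A : ℕ, (1 : ℝ) * ∏ p ∈ Pr, (1 - (if p ∣ n + g * A then (1 : ℝ) else 0)) =
        if ∀ p ∈ PrA w, ¬ p ∣ n + g * A then 1 else 0 := by
      intro A
      rw [one_mul]
      have h2 : (∀ p ∈ PrA w, ¬ p ∣ n + g * A) ↔ ∀ p ∈ Pr, ¬ p ∣ n + g * A := by
        constructor
        · intro h p hp
          obtain ⟨e1, e2, e3, e4⟩ := hPrm p hp
          refine h p ?_
          unfold PrA
          rw [Finset.mem_filter, Finset.mem_Icc]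
          exact ⟨⟨by omega, e3⟩, e1⟩
        · intro h p hp
          have hp' := hp
          unfold PrA at hp
          rw [Finset.mem_filter, Finset.mem_Icc] at hp
          intro hd
          by_cases hpg : p ∣ g
          · have h3 : p ∣ n := (Nat.dvd_add_iff_left (hpg.mul_right A)).2 hd
            exact hpn p hp' ⟨h3, hpg⟩
          · have hp2 : p ≠ 2 := by
              rintro rfl
              exact hpg (Nat.dvd_of_mod_eq_zero hg)
            have hp3 : 3 ≤ p := by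
              have := hp.2.two_le
              omega
            refine h p ?_ hd
            rw [hPr, Finset.mem_filter]
            refine ⟨?_, hpg⟩
            unfold PrO
            rw [Finset.mem_filter, Finset.mem_Icc]
            exact ⟨⟨hp3, hp.1.2⟩, hp.2⟩
      by_cases h3 : ∀ p ∈ PrA w, ¬ p ∣ n + g * A
      · rw [if_pos h3]
        refine Finset.prod_eq_one fun p hp => ?_
        rw [if_neg (h2.1 h3 p hp), sub_zero]
      · rw [if_neg h3]
        have h4 : ¬ ∀ p ∈ Pr, ¬ p ∣ n + g * A := fun h => h3 (h2.2 h)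
        push Not at h4
        obtain ⟨p, hp, hd⟩ := h4
        refine Finset.prod_eq_zero hp ?_
        rw [if_pos hd, sub_self]
    rw [Finset.sum_congr rfl fun A _ => h1 A, ← Finset.sum_filter, Finset.filter_filter,
      Finset.sum_const, nsmul_eq_mul, mul_one]
  rw [hcount] at key
  have hX : (m1_avg u v huv).X = ((v : ℝ) - u) / 2 := rfl
  rw [hX] at key
  refine key.trans ?_
  have hprod1 : ∏ p ∈ Pr, (1 - 1 / (p : ℝ)) ≤ 1 := by
    refine Finset.prod_le_one (fun p hp => ?_) (fun p hp => ?_)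
    · have h5 : (3 : ℝ) ≤ p := by exact_mod_cast (hPrm p hp).2.1
      have : 1 / (p : ℝ) ≤ 1 / 3 := one_div_le_one_div_of_le (by norm_num) h5
      linarith
    · have : 0 ≤ 1 / (p : ℝ) := by positivity
      linarith
  have hprod0 : 0 ≤ ∏ p ∈ Pr, (1 - 1 / (p : ℝ)) := by
    refine Finset.prod_nonneg fun p hp => ?_
    have h5 : (3 : ℝ) ≤ p := by exact_mod_cast (hPrm p hp).2.1
    have : 1 / (p : ℝ) ≤ 1 / 3 := one_div_le_one_div_of_le (by norm_num) h5
    linarith
  refine add_le_add ?_ ?_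
  · have hX0 : 0 ≤ ((v : ℝ) - u) / 2 := by linarith
    calc eps0 C 1 b * (((v : ℝ) - u) / 2 * ∏ p ∈ Pr, (1 - 1 / (p : ℝ)))
        ≤ (L ^ K)⁻¹ * (((v : ℝ) - u) / 2 * 1) := by
          refine mul_le_mul heps (mul_le_mul_of_nonneg_left hprod1 hX0)
            (mul_nonneg hX0 hprod0) (by positivity)
      _ ≤ ((v : ℝ) - u) * (L ^ K)⁻¹ := by
          have : 0 ≤ (L ^ K)⁻¹ := by positivity
          nlinarith
  · have h1 : ∑ D ∈ Pr.powerset with ∏ p ∈ D, p ≤ w ^ (2 * b + 6),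
        ((1 : ℕ) : ℝ) ^ #D * (m1_avg u v huv).Er (∏ p ∈ D, p) =
        (#(Pr.powerset.filter fun D => ∏ p ∈ D, p ≤ w ^ (2 * b + 6)) : ℝ) := by
      rw [Finset.card_eq_sum_ones, Nat.cast_sum]
      refine Finset.sum_congr rfl fun D _ => ?_
      show ((1 : ℕ) : ℝ) ^ #D * 1 = ((1 : ℕ) : ℝ)
      rw [Nat.cast_one, one_pow, one_mul]
    rw [h1]
    have h2 := m1_card Pr (fun p hp => (hPrm p hp).1) (w ^ (2 * b + 6))
    have h3 : (#(Pr.powerset.filter fun D => ∏ p ∈ D, p ≤ w ^ (2 * b + 6)) : ℝ) ≤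
        (w : ℝ) ^ (2 * b + 6) := by exact_mod_cast h2
    refine h3.trans ?_
    have hx0 : 0 ≤ x := by linarith
    have h4 : (w : ℝ) ^ (2 * b + 6) ≤ Real.exp (x * (K1 * (2 * b + 6))) := by
      calc (w : ℝ) ^ (2 * b + 6) ≤ (L ^ K1) ^ (2 * b + 6) := pow_le_pow_left₀ (Nat.cast_nonneg _) hwN _
        _ = Real.exp (x * (K1 * (2 * b + 6))) := by
          rw [← pow_mul, ← hexpx, ← Real.exp_nat_mul]
          congr 1
          push_cast
          ring
    refine h4.trans ?_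
    have h5 : Real.sqrt N = Real.exp (L / 2) := by
      rw [hL, Real.exp_half, Real.exp_log]
      exact_mod_cast hN4
    rw [h5]
    refine Real.exp_le_exp.2 ?_
    rw [hexpx] at hN3
    have h6 : (2 * (b : ℝ) + 6) ≤ 4 * ((K : ℝ) + 1) * x + 10 := by
      rw [hbR]
      linarith
    have h7 : (4 * ((K : ℝ) + 1) * x + 10) ≤ (4 * ((K : ℝ) + 1) + 10) * x := by
      linarith
    have hK1 : 0 ≤ (K1 : ℝ) := Nat.cast_nonneg _
    calc x * (K1 * (2 * (b : ℝ) + 6)) ≤ x * (K1 * ((4 * ((K : ℝ) + 1) + 10) * x)) :=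
          mul_le_mul_of_nonneg_left (mul_le_mul_of_nonneg_left (h6.trans h7) hK1) hx0
      _ = (2 * (K1 * (4 * (K + 1) + 10)) * x ^ 2) / 2 := by ring
      _ ≤ L / 2 := by linarith

end Pool.Agent.LibKC40
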